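import Pool.Agent.CFC.Graph

/-! Good systems of disjoint sets, their first and second moments. -/

namespace Pool.Agent.CFC

open Finset Pool.Agent.MD437

variable {n m : ℕ}

/-- pairs inside `A` -/
def prs (A : Finset (Fin n)) : Finset (Sym2 (Fin n)) :=
  A.offDiag.image (Function.uncurry Sym2.mk)

lemma mem_prs {A : Finset (Fin n)} {x y : Fin n} : s(x, y) ∈ prs A ↔ x ∈ A ∧ y ∈ A ∧ x ≠ y := by
  unfold prs
  rw [mem_image]
  constructor
  · rintro ⟨⟨a, b⟩, hab, h⟩
    rw [mem_offDiag] at hab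
    rcases Sym2.eq_iff.1 h with ⟨h1, h2⟩ | ⟨h1, h2⟩
    · rw [← h1, ← h2]; exact hab
    · rw [← h1, ← h2]; exact ⟨hab.2.1, hab.1, hab.2.2.symm⟩
  · intro h
    exact ⟨(x, y), mem_offDiag.2 h, rfl⟩

lemma card_prs (A : Finset (Fin n)) : (prs A).card = A.card.choose 2 :=
  Sym2.card_image_offDiag A

lemma prs_sub (A : Finset (Fin n)) : prs A ⊆ E n := by
  intro e he
  induction e with
  | h x y =>
    rw [mk_mem_E]
    exact (mem_prs.1 he).2.2

lemma prs_mem (A : Finset (Fin n)) : ∀ e ∈ prs A, ∀ v ∈ e, v ∈ A := by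
  intro e he v hv
  induction e with
  | h x y =>
    have := mem_prs.1 he
    rcases Sym2.mem_iff.1 hv with rfl | rfl
    · exact this.1
    · exact this.2.1

lemma prs_inter (A B : Finset (Fin n)) : prs A ∩ prs B = prs (A ∩ B) := by
  ext e
  induction e with
  | h x y =>
    rw [mem_inter, mem_prs, mem_prs, mem_prs, mem_inter, mem_inter]
    tauto

lemma prs_disjoint {A B : Finset (Fin n)} (h : Disjoint A B) : Disjoint (prs A) (prs B) := by
  rw [disjoint_iff_inter_eq_empty, prs_inter, disjoint_iff_inter_eq_empty.1 h]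
  simp [prs]

/-- A good system: every `C i` is independent and every other vertex has exactly one neighbour in
some `C i`. -/
def GoodS (S : Finset (Sym2 (Fin n))) (C : Fin m → Finset (Fin n)) : Prop :=
  (∀ i, Disjoint S (prs (C i))) ∧
    ∀ x ∈ (univ.biUnion C)ᶜ, ∃ i, ((C i).filter (fun y => s(x, y) ∈ S)).card = 1

/-- A good system gives a conflict-free colouring. -/
lemma colour_of_good {S : Finset (Sym2 (Fin n))} {C : Fin m → Finset (Fin n)}
    (hd : ∀ i j, i ≠ j → Disjoint (C i) (C j)) (hC : GoodS S C) :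
    ∃ c : Fin n → Fin (m + 1), IsCF (gr S) c := by
  classical
  let c : Fin n → Fin (m + 1) := fun x => if h : ∃ i, x ∈ C i then h.choose.castSucc else Fin.last m
  have hc : ∀ i, ∀ x ∈ C i, c x = i.castSucc := by
    intro i x hx
    have hex : ∃ i, x ∈ C i := ⟨i, hx⟩
    have : c x = hex.choose.castSucc := dif_pos hex
    rw [this]
    congr 1
    by_contra hne
    exact disjoint_left.1 (hd _ _ hne) hex.choose_spec hx
  have hc' : ∀ i : Fin m, ∀ x, c x = i.castSucc → x ∈ C i := by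
    intro i x hx
    by_cases hex : ∃ i, x ∈ C i
    · obtain ⟨j, hj⟩ := hex
      have := hc j x hj
      rw [this] at hx
      have := Fin.castSucc_injective m hx
      rw [← this]
      exact hj
    · have : c x = Fin.last m := dif_neg hex
      rw [this] at hx
      exact absurd hx.symm (Fin.castSucc_lt_last i).ne
  refine ⟨c, fun x => ?_⟩
  by_cases hx : ∃ i, x ∈ C i
  · obtain ⟨i, hi⟩ := hx
    refine ⟨x, Or.inl rfl, fun z hz hcz => ?_⟩
    rw [hc i x hi] at hcz
    have hzC := hc' i z hcz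
    rcases hz with hz | hz
    · exact hz
    · exfalso
      rw [gr_adj] at hz
      exact disjoint_left.1 (hC.1 i) hz.1 (mem_prs.2 ⟨hi, hzC, hz.2⟩)
  · have hxU : x ∈ (univ.biUnion C)ᶜ := by
      rw [mem_compl, mem_biUnion]
      rintro ⟨i, -, hi⟩
      exact hx ⟨i, hi⟩
    obtain ⟨i, hi⟩ := hC.2 x hxU
    obtain ⟨y, hy⟩ := card_eq_one.1 hi
    have hyf : y ∈ (C i).filter (fun y => s(x, y) ∈ S) := by rw [hy]; exact mem_singleton_self y
    rw [mem_filter] at hyf
    have hxy : x ≠ y := by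
      rintro rfl
      exact hx ⟨i, hyf.1⟩
    refine ⟨y, Or.inr (gr_adj.2 ⟨hyf.2, hxy⟩), fun z hz hcz => ?_⟩
    rw [hc i y hyf.1] at hcz
    have hzC := hc' i z hcz
    rcases hz with hz | hz
    · exfalso
      rw [hz] at hzC
      exact hx ⟨i, hzC⟩
    · rw [gr_adj] at hz
      have : z ∈ (C i).filter (fun y => s(x, y) ∈ S) := mem_filter.2 ⟨hzC, hz.1⟩
      rw [hy, mem_singleton] at this
      exact this

/-- expected fraction of unhappy vertices -/
noncomputable def ww (p : ℝ) (s : Fin m → ℕ) : ℝ := ∏ i, (1 - qs p (s i))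

lemma ww_nonneg {p : ℝ} (hp0 : 0 ≤ p) (hp1 : p ≤ 1) (s : Fin m → ℕ) : 0 ≤ ww p s :=
  prod_nonneg fun i _ => by linarith [qs_le_one hp0 hp1 (s i)]

/-- The first moment. -/
lemma pr_good (p : ℝ) (s : Fin m → ℕ) (C : Fin m → Finset (Fin n))
    (hd : ∀ i j, i ≠ j → Disjoint (C i) (C j)) (hs : ∀ i, (C i).card = s i) :
    pr p (E n) (fun S => GoodS S C) =
      (1 - p) ^ (∑ i, (s i).choose 2) * (1 - ww p s) ^ (n - ∑ i, s i) := by
  classical
  set U := univ.biUnion C with hU
  have hCU : ∀ i, C i ⊆ U := fun i => subset_biUnion_of_mem C (mem_univ i)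
  set F := univ.biUnion (fun i => prs (C i)) with hF
  have h := pr_star p U F (by
    rw [hF, biUnion_subset]
    exact fun i _ => prs_sub _) (by
    intro e he v hv
    rw [hF, mem_biUnion] at he
    obtain ⟨i, -, hi⟩ := he
    exact hCU i (prs_mem _ e hi v hv))
    (fun _ T => ∃ i, (T ∩ C i).card = 1)
  have e1 : pr p (E n) (fun S => GoodS S C) =
      pr p (E n) (fun S => Disjoint S F ∧ ∀ x ∈ Uᶜ, ∃ i,
        ((U.filter (fun y => s(x, y) ∈ S)) ∩ C i).card = 1) := by
    refine pr_congr p fun S _ => ?_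
    unfold GoodS
    have a1 : (∀ i, Disjoint S (prs (C i))) ↔ Disjoint S F := by
      rw [hF, disjoint_biUnion_right]
      simp
    have a2 : ∀ x i, (U.filter (fun y => s(x, y) ∈ S)) ∩ C i =
        (C i).filter (fun y => s(x, y) ∈ S) := by
      intro x i
      ext y
      simp only [mem_inter, mem_filter]
      constructor
      · rintro ⟨⟨-, h2⟩, h3⟩
        exact ⟨h3, h2⟩
      · rintro ⟨h1, h2⟩
        exact ⟨⟨hCU i h1, h2⟩, h1⟩
    simp only [a1, a2]
    rfl
  rw [e1, h, prod_const]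
  have e2 : pr p U (fun T => ∃ i, (T ∩ C i).card = 1) = 1 - ww p s := by
    have h1 := pr_blocks p univ C (fun i _ j _ hij => hd i j hij) U (fun i _ => hCU i)
      (fun i T => T.card ≠ 1)
    have h2 : ∀ i ∈ (univ : Finset (Fin m)), pr p (C i) (fun T => T.card ≠ 1) =
        1 - qs p (s i) := by
      intro i _
      rw [pr_ne_one, hs i]
    rw [prod_congr rfl h2] at h1
    unfold ww
    rw [← h1, ← pr_not]
    refine pr_congr p fun T _ => ?_
    push Not
    simp
  have e3 : Uᶜ.card = n - ∑ i, s i := by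
    rw [card_compl, Fintype.card_fin, hU, card_biUnion]
    · simp only [hs]
    · intro i _ j _ hij
      exact hd i j hij
  have e4 : F.card = ∑ i, (s i).choose 2 := by
    rw [hF, card_biUnion]
    · refine sum_congr rfl fun i _ => ?_
      rw [card_prs, hs i]
    · intro i _ j _ hij
      exact prs_disjoint (hd i j hij)
  rw [e2, e3, e4]

/-- the second moment for one pair -/
lemma pr_good_pair {p : ℝ} (hp0 : 0 ≤ p) (hp1 : p ≤ 1) (s : Fin m → ℕ)
    (C C' : Fin m → Finset (Fin n))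
    (hd : ∀ i j, i ≠ j → Disjoint (C i ∪ C' i) (C j ∪ C' j)) (hs : ∀ i, (C i).card = s i)
    (hs' : ∀ i, (C' i).card = s i) :
    pr p (E n) (fun S => GoodS S C ∧ GoodS S C') ≤
      (1 - p) ^ (∑ i, (2 * (s i).choose 2 - (C i ∩ C' i).card.choose 2)) *
        (1 - 2 * ww p s + ∏ i, gp p (C i) (C' i)) ^ (n - 2 * ∑ i, s i) ∧
    0 ≤ 1 - 2 * ww p s + ∏ i, gp p (C i) (C' i) ∧
    1 - 2 * ww p s + ∏ i, gp p (C i) (C' i) ≤ 1 := by
  classical
  set U := univ.biUnion (fun i => C i ∪ C' i) with hU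
  have hCU : ∀ i, C i ∪ C' i ⊆ U := fun i =>
    subset_biUnion_of_mem (fun i => C i ∪ C' i) (mem_univ i)
  have hCU₁ : ∀ i, C i ⊆ U := fun i => subset_union_left.trans (hCU i)
  have hCU₂ : ∀ i, C' i ⊆ U := fun i => subset_union_right.trans (hCU i)
  have hd₁ : ∀ i j, i ≠ j → Disjoint (C i) (C j) := fun i j hij =>
    disjoint_of_subset_left subset_union_left (disjoint_of_subset_right subset_union_left
      (hd i j hij))
  have hd₂ : ∀ i j, i ≠ j → Disjoint (C' i) (C' j) := fun i j hij =>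
    disjoint_of_subset_left subset_union_right (disjoint_of_subset_right subset_union_right
      (hd i j hij))
  set F := univ.biUnion (fun i => prs (C i) ∪ prs (C' i)) with hF
  have h := pr_star p U F (by
    rw [hF, biUnion_subset]
    exact fun i _ => union_subset (prs_sub _) (prs_sub _)) (by
    intro e he v hv
    rw [hF, mem_biUnion] at he
    obtain ⟨i, -, hi⟩ := he
    rcases mem_union.1 hi with hi | hi
    · exact hCU₁ i (prs_mem _ e hi v hv)
    · exact hCU₂ i (prs_mem _ e hi v hv))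
    (fun _ T => (∃ i, (T ∩ C i).card = 1) ∧ ∃ i, (T ∩ C' i).card = 1)
  have e1 : pr p (E n) (fun S => GoodS S C ∧ GoodS S C') ≤
      pr p (E n) (fun S => Disjoint S F ∧ ∀ x ∈ Uᶜ, (∃ i,
        ((U.filter (fun y => s(x, y) ∈ S)) ∩ C i).card = 1) ∧ ∃ i,
        ((U.filter (fun y => s(x, y) ∈ S)) ∩ C' i).card = 1) := by
    refine pr_mono hp0 hp1 fun S _ h => ?_
    obtain ⟨⟨h1, h2⟩, ⟨h3, h4⟩⟩ := h
    refine ⟨?_, ?_⟩
    · rw [hF, disjoint_biUnion_right]
      intro i _
      exact disjoint_union_right.2 ⟨h1 i, h3 i⟩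
    · intro x hx
      have a2 : ∀ A, A ⊆ U → (U.filter (fun y => s(x, y) ∈ S)) ∩ A =
          A.filter (fun y => s(x, y) ∈ S) := by
        intro A hA
        ext y
        simp only [mem_inter, mem_filter]
        constructor
        · rintro ⟨⟨-, h2⟩, h3⟩
          exact ⟨h3, h2⟩
        · rintro ⟨h1, h2⟩
          exact ⟨⟨hA h1, h2⟩, h1⟩
      have hx1 : x ∈ (univ.biUnion C)ᶜ := by
        rw [mem_compl] at hx ⊢
        intro h
        obtain ⟨i, -, hi⟩ := mem_biUnion.1 h
        exact hx (hCU₁ i hi)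
      have hx2 : x ∈ (univ.biUnion C')ᶜ := by
        rw [mem_compl] at hx ⊢
        intro h
        obtain ⟨i, -, hi⟩ := mem_biUnion.1 h
        exact hx (hCU₂ i hi)
      obtain ⟨i, hi⟩ := h2 x hx1
      obtain ⟨j, hj⟩ := h4 x hx2
      exact ⟨⟨i, by rw [a2 _ (hCU₁ i)]; exact hi⟩, ⟨j, by rw [a2 _ (hCU₂ j)]; exact hj⟩⟩
  -- the probability for one vertex
  have e2 : pr p U (fun T => (∃ i, (T ∩ C i).card = 1) ∧ ∃ i, (T ∩ C' i).card = 1) =
      1 - 2 * ww p s + ∏ i, gp p (C i) (C' i) := by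
    have b1 := pr_blocks p univ C (fun i _ j _ hij => hd₁ i j hij) U (fun i _ => hCU₁ i)
      (fun i T => T.card ≠ 1)
    have b2 := pr_blocks p univ C' (fun i _ j _ hij => hd₂ i j hij) U (fun i _ => hCU₂ i)
      (fun i T => T.card ≠ 1)
    have b3 := pr_blocks p univ (fun i => C i ∪ C' i) (fun i _ j _ hij => hd i j hij) U
      (fun i _ => hCU i) (fun i T => (T ∩ C i).card ≠ 1 ∧ (T ∩ C' i).card ≠ 1)
    have c1 : ∀ i ∈ (univ : Finset (Fin m)), pr p (C i) (fun T => T.card ≠ 1) =
        1 - qs p (s i) := by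
      intro i _
      rw [pr_ne_one, hs i]
    have c2 : ∀ i ∈ (univ : Finset (Fin m)), pr p (C' i) (fun T => T.card ≠ 1) =
        1 - qs p (s i) := by
      intro i _
      rw [pr_ne_one, hs' i]
    rw [prod_congr rfl c1] at b1
    rw [prod_congr rfl c2] at b2
    have b3' : pr p U (fun T => (∀ i, (T ∩ C i).card ≠ 1) ∧ ∀ i, (T ∩ C' i).card ≠ 1) =
        ∏ i, gp p (C i) (C' i) := by
      unfold gp
      rw [← b3]
      refine pr_congr p fun T _ => ?_
      have x1 : ∀ i, T ∩ (C i ∪ C' i) ∩ C i = T ∩ C i := by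
        intro i
        rw [inter_assoc, inter_eq_right.2 subset_union_left]
      have x2 : ∀ i, T ∩ (C i ∪ C' i) ∩ C' i = T ∩ C' i := by
        intro i
        rw [inter_assoc, inter_eq_right.2 subset_union_right]
      simp only [mem_univ, forall_true_left, x1, x2]
      constructor
      · rintro ⟨h1, h2⟩ i
        exact ⟨h1 i, h2 i⟩
      · intro h
        exact ⟨fun i => (h i).1, fun i => (h i).2⟩
    have b1' : pr p U (fun T => ∀ i, (T ∩ C i).card ≠ 1) = ww p s := by
      unfold ww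
      rw [← b1]
      exact pr_congr p fun T _ => by simp
    have b2' : pr p U (fun T => ∀ i, (T ∩ C' i).card ≠ 1) = ww p s := by
      unfold ww
      rw [← b2]
      exact pr_congr p fun T _ => by simp
    rw [← b3']
    have b4 : pr p U (fun T => (∀ i, (T ∩ C i).card ≠ 1) ∨ ∀ i, (T ∩ C' i).card ≠ 1) =
        2 * ww p s - pr p U (fun T => (∀ i, (T ∩ C i).card ≠ 1) ∧ ∀ i, (T ∩ C' i).card ≠ 1) := by
      have := pr_exclusive p U
        (fun T => (∀ i, (T ∩ C i).card ≠ 1) ∨ ∀ i, (T ∩ C' i).card ≠ 1)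
        (fun T => False) (by intro S _ _ h; exact h)
      have hsum : pr p U (fun T => (∀ i, (T ∩ C i).card ≠ 1) ∨ ∀ i, (T ∩ C' i).card ≠ 1) +
          pr p U (fun T => (∀ i, (T ∩ C i).card ≠ 1) ∧ ∀ i, (T ∩ C' i).card ≠ 1) =
          pr p U (fun T => ∀ i, (T ∩ C i).card ≠ 1) +
          pr p U (fun T => ∀ i, (T ∩ C' i).card ≠ 1) := by
        rw [pr_def, pr_def, pr_def, pr_def, ← ex_add, ← ex_add]
        refine ex_congr p fun T _ => ?_
        by_cases q1 : ∀ i, (T ∩ C i).card ≠ 1 <;> by_cases q2 : ∀ i, (T ∩ C' i).card ≠ 1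
        · rw [if_pos (Or.inl q1), if_pos ⟨q1, q2⟩, if_pos q1, if_pos q2]
        · rw [if_pos (Or.inl q1), if_neg (fun h => q2 h.2), if_pos q1, if_neg q2]
        · rw [if_pos (Or.inr q2), if_neg (fun h => q1 h.1), if_neg q1, if_pos q2]
          ring
        · rw [if_neg (fun h => h.elim q1 q2), if_neg (fun h => q1 h.1), if_neg q1, if_neg q2]
      rw [b1', b2'] at hsum
      linarith
    have b5 : pr p U (fun T => (∃ i, (T ∩ C i).card = 1) ∧ ∃ i, (T ∩ C' i).card = 1) =
        1 - pr p U (fun T => (∀ i, (T ∩ C i).card ≠ 1) ∨ ∀ i, (T ∩ C' i).card ≠ 1) := by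
      rw [← pr_not]
      refine pr_congr p fun T _ => ?_
      push Not
      rfl
    rw [b5, b4]
    ring
  have hv0 : 0 ≤ 1 - 2 * ww p s + ∏ i, gp p (C i) (C' i) := by
    rw [← e2]; exact pr_nonneg hp0 hp1 _ _
  have hv1 : 1 - 2 * ww p s + ∏ i, gp p (C i) (C' i) ≤ 1 := by
    rw [← e2]; exact pr_le_one hp0 hp1 _ _
  refine ⟨?_, hv0, hv1⟩
  refine e1.trans ?_
  rw [h, prod_const, e2]
  have e3 : n - 2 * ∑ i, s i ≤ Uᶜ.card := by
    rw [card_compl, Fintype.card_fin]
    have : U.card ≤ 2 * ∑ i, s i := by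
      rw [hU]
      refine card_biUnion_le.trans ?_
      rw [mul_sum]
      refine sum_le_sum fun i _ => ?_
      have := card_union_le (C i) (C' i)
      rw [hs i, hs' i] at this
      omega
    omega
  have e4 : F.card = ∑ i, (2 * (s i).choose 2 - (C i ∩ C' i).card.choose 2) := by
    rw [hF, card_biUnion]
    · refine sum_congr rfl fun i _ => ?_
      have := card_union_add_card_inter (prs (C i)) (prs (C' i))
      rw [prs_inter, card_prs, card_prs, card_prs, hs i, hs' i] at this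
      omega
    · intro i _ j _ hij
      show Disjoint (prs (C i) ∪ prs (C' i)) (prs (C j) ∪ prs (C' j))
      rw [disjoint_union_left, disjoint_union_right, disjoint_union_right]
      have := hd i j hij
      rw [disjoint_union_left, disjoint_union_right, disjoint_union_right] at this
      exact ⟨⟨prs_disjoint this.1.1, prs_disjoint this.1.2⟩,
        ⟨prs_disjoint this.2.1, prs_disjoint this.2.2⟩⟩
  rw [e4]
  exact mul_le_mul_of_nonneg_left (pow_le_pow_of_le_one hv0 hv1 e3)
    (pow_nonneg (by linarith) _)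

end Pool.Agent.CFC
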