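import Pool.Agent.CFC.Lower
import Pool.Agent.CFC.System

/-! The lower bound for `7/8 ≤ p ≤ 1`. -/

namespace Pool.Agent.CFC

open Finset Pool.Agent.MD437

variable {n m : ℕ} {p : ℝ}

lemma qt_zero (p : ℝ) : qt p 2 0 = 0 := by
  unfold qt qs
  norm_num

lemma qt_one (p : ℝ) : qt p 2 1 = p := by
  unfold qt qs
  norm_num

lemma qt_two (p : ℝ) : qt p 2 2 = 1 - p ^ 2 := by
  unfold qt qs
  norm_num
  ring

/-- the pointwise inequality -/
lemma pointwise_B {z : ℝ} (h0 : 7 / 8 ≤ p) (h1 : p ≤ 1) (hz : 0 ≤ z)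
    (hL : 3 + z ≤ Real.log n) (hmn : 200 * ((m : ℝ) + 1) ≤ n)
    (hm : 2 * ((m : ℝ) + 2) * Real.log n ≤ n * (1 - p) ^ m)
    (s : Fin (m + 1) → ℕ) (hs : ∀ i, s i ≤ 2) (j : Fin (m + 1)) (hj : s j = 2) :
    z + (∑ i, (s i : ℝ)) * Real.log n + ((m : ℝ) + 1) * Real.log 3 ≤
      ((n : ℝ) - ∑ i, (s i : ℝ)) * ∏ i, (1 - qt p 2 (s i)) := by
  classical
  set Λ := Real.log n with hΛd
  set t : Fin m → ℕ := fun i => s (j.succAbove i) with ht
  set d : ℕ := (univ.filter (fun i => t i = 2)).card with hd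
  have hm0 : (0 : ℝ) ≤ m := Nat.cast_nonneg _
  have hd0 : (0 : ℝ) ≤ d := Nat.cast_nonneg _
  have hsum : ∑ i, (s i : ℝ) = 2 + ∑ i, (t i : ℝ) := by
    rw [Fin.sum_univ_succAbove _ j, hj]
    push_cast
    rfl
  have hsum2 : ∑ i, (t i : ℝ) ≤ m + d := by
    have h2 : ∀ i, (t i : ℝ) ≤ 1 + (if t i = 2 then (1 : ℝ) else 0) := by
      intro i
      have h3 : t i ≤ 2 := hs _
      split_ifs with h
      · rw [h]; norm_num
      · have h4 : t i ≤ 1 := by omega
        rw [add_zero]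
        exact_mod_cast h4
    calc ∑ i, (t i : ℝ) ≤ ∑ i, (1 + (if t i = 2 then (1 : ℝ) else 0)) :=
          sum_le_sum fun i _ => h2 i
      _ = m + d := by
          rw [sum_add_distrib, ← sum_filter, sum_const, sum_const, card_univ, Fintype.card_fin,
            nsmul_eq_mul, nsmul_eq_mul, mul_one, mul_one]
  have hp2 : (49 : ℝ) / 64 ≤ p ^ 2 := by
    calc (49 : ℝ) / 64 = (7 / 8) ^ 2 := by norm_num
      _ ≤ p ^ 2 := pow_le_pow_left₀ (by norm_num) h0 2
  have hfac : ∀ i, (if t i = 2 then (6 : ℝ) else 1) * (1 - p) ≤ 1 - qt p 2 (t i) := by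
    intro i
    have h3 : t i ≤ 2 := hs _
    by_cases h : t i = 2
    · rw [if_pos h, h, qt_two]
      linarith
    · rw [if_neg h, one_mul]
      have h4 : t i = 0 ∨ t i = 1 := by omega
      rcases h4 with h4 | h4
      · rw [h4, qt_zero]; linarith
      · rw [h4, qt_one]
  have hq : 0 ≤ 1 - p := by linarith
  have hprod : (6 : ℝ) ^ d * (1 - p) ^ m ≤ ∏ i, (1 - qt p 2 (t i)) := by
    calc (6 : ℝ) ^ d * (1 - p) ^ m =
        ∏ i, ((if t i = 2 then (6 : ℝ) else 1) * (1 - p)) := by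
          rw [prod_mul_distrib, prod_ite, prod_const_one, mul_one, prod_const, prod_const,
            card_univ, Fintype.card_fin]
      _ ≤ _ := prod_le_prod (fun i _ => mul_nonneg (by split_ifs <;> norm_num) hq)
          fun i _ => hfac i
  have hpm : 0 ≤ (1 - p) ^ m := pow_nonneg hq _
  have hww : 49 / 64 * ((6 : ℝ) ^ d * (1 - p) ^ m) ≤ ∏ i, (1 - qt p 2 (s i)) := by
    rw [Fin.prod_univ_succAbove _ j, hj, qt_two]
    have e : 1 - (1 - p ^ 2) = p ^ 2 := by ring
    rw [e]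
    exact mul_le_mul hp2 hprod (by positivity) (by positivity)
  have hdpow : 1 + 5 * (d : ℝ) ≤ (6 : ℝ) ^ d := by
    have := one_add_mul_le_pow (show (-2 : ℝ) ≤ 5 by norm_num) d
    calc 1 + 5 * (d : ℝ) = 1 + d * 5 := by ring
      _ ≤ (1 + 5) ^ d := this
      _ = _ := by norm_num
  have e6 : 99 / 100 * (n : ℝ) ≤ (n : ℝ) - ∑ i, (s i : ℝ) := by
    have h7 : ∑ i, (s i : ℝ) ≤ 2 * ((m : ℝ) + 1) := by
      calc ∑ i, (s i : ℝ) ≤ ∑ _i : Fin (m + 1), (2 : ℝ) :=
            sum_le_sum fun i _ => by exact_mod_cast hs i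
        _ = _ := by
            rw [sum_const, card_univ, Fintype.card_fin, nsmul_eq_mul]
            push_cast
            ring
    linarith
  have hn0 : (0 : ℝ) ≤ n := Nat.cast_nonneg _
  have hΛ3 : 3 ≤ Λ := by linarith
  have hlog3 : Real.log 3 ≤ 11 / 10 := by
    rw [Real.log_le_iff_le_exp (by norm_num)]
    have h2 := Real.exp_one_gt_d9
    have h3 := Real.add_one_le_exp (1 / 10 : ℝ)
    calc (3 : ℝ) ≤ (1 / 10 + 1) * 2.7182818283 + 1 / 100 := by norm_num
      _ ≤ Real.exp (1 / 10) * Real.exp 1 := by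
          have h4 : (1 : ℝ) / 10 + 1 + 1 / 200 ≤ Real.exp (1 / 10) := by
            have := Real.quadratic_le_exp_of_nonneg (show (0 : ℝ) ≤ 1 / 10 by norm_num)
            linarith
          nlinarith
      _ = Real.exp (11 / 10) := by rw [← Real.exp_add]; norm_num
  -- the left-hand side
  have hLHS : z + (∑ i, (s i : ℝ)) * Λ + ((m : ℝ) + 1) * Real.log 3 ≤
      3 / 2 * ((m + 2 + d) * Λ) := by
    have h2 : (∑ i, (s i : ℝ)) * Λ ≤ (m + 2 + d) * Λ :=
      mul_le_mul_of_nonneg_right (by rw [hsum]; linarith) (by linarith)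
    have h3 : ((m : ℝ) + 1) * Real.log 3 ≤ (m + 1) * (11 / 10) :=
      mul_le_mul_of_nonneg_left hlog3 (by linarith)
    have h4 : ((m : ℝ) + 2) / 2 * (3 + z) ≤ (m + 2 + d) / 2 * Λ :=
      mul_le_mul (by linarith) hL (by linarith) (by linarith)
    have h5 : z ≤ ((m : ℝ) + 2) / 2 * z := by
      have : 1 * z ≤ ((m : ℝ) + 2) / 2 * z := mul_le_mul_of_nonneg_right (by linarith) hz
      linarith
    linarith
  have hRHS : 3 / 2 * ((m + 2 + d) * Λ) ≤
      ((n : ℝ) - ∑ i, (s i : ℝ)) * ∏ i, (1 - qt p 2 (s i)) := by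
    have h2 : ((m : ℝ) + 2 + d) ≤ (6 : ℝ) ^ d * (m + 2) := by
      have h3 : (1 + 5 * (d : ℝ)) * (m + 2) ≤ (6 : ℝ) ^ d * (m + 2) :=
        mul_le_mul_of_nonneg_right hdpow (by linarith)
      have h4 : 0 ≤ (d : ℝ) * m := mul_nonneg hd0 hm0
      linarith
    calc 3 / 2 * ((m + 2 + d) * Λ) ≤ 3 / 2 * (((6 : ℝ) ^ d * (m + 2)) * Λ) := by
          have := mul_le_mul_of_nonneg_right h2 (by linarith : (0 : ℝ) ≤ Λ)
          linarith
      _ ≤ (99 / 100 * (49 / 64) * 2) * (((6 : ℝ) ^ d * (m + 2)) * Λ) := by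
          have : 0 ≤ ((6 : ℝ) ^ d * (m + 2)) * Λ := by positivity
          have h5 : (3 : ℝ) / 2 ≤ 99 / 100 * (49 / 64) * 2 := by norm_num
          exact mul_le_mul_of_nonneg_right h5 this
      _ = (99 / 100 * (49 / 64)) * ((6 : ℝ) ^ d * (2 * (m + 2) * Λ)) := by ring
      _ ≤ (99 / 100 * (49 / 64)) * ((6 : ℝ) ^ d * (n * (1 - p) ^ m)) := by
          refine mul_le_mul_of_nonneg_left ?_ (by norm_num)
          exact mul_le_mul_of_nonneg_left hm (by positivity)
      _ = (99 / 100 * n) * (49 / 64 * ((6 : ℝ) ^ d * (1 - p) ^ m)) := by ring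
      _ ≤ _ := mul_le_mul e6 hww (by positivity) (by linarith)
  exact hLHS.trans hRHS

/-- No conflict-free colouring with `m + 1` colours. -/
theorem lower_B {z : ℝ} (h0 : 7 / 8 ≤ p) (h1 : p ≤ 1) (hz : 0 ≤ z)
    (hL : 3 + z ≤ Real.log n) (hmn : 200 * ((m : ℝ) + 1) ≤ n)
    (hm : 2 * ((m : ℝ) + 2) * Real.log n ≤ n * (1 - p) ^ m) :
    pr p (E n) (fun S => ∃ c : Fin n → Fin (m + 1), IsCF (gr S) c) ≤ Real.exp (-z) := by
  have hp0 : 0 ≤ p := by linarith
  have hm0 : (0 : ℝ) ≤ m := Nat.cast_nonneg _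
  have hn0 : (0 : ℝ) < n := by linarith
  refine lower_bound (S₀ := 2) hp0 h1 ?_
    (fun s => Real.exp (-(s * Real.log n + Real.log 3)))
    (fun s => (Real.exp_pos _).le) ?_ (Real.exp_pos _).le ?_
  · have : ((m + 1 : ℕ) : ℝ) < n := by
      push_cast
      linarith
    have h2 : m + 1 < n := by exact_mod_cast this
    omega
  · have h2 : ∀ s ∈ range (2 + 1), (n.choose s : ℝ) *
        Real.exp (-(s * Real.log n + Real.log 3)) ≤ 1 / 3 := by
      intro s _
      have h3 : (n.choose s : ℝ) ≤ (n : ℝ) ^ s := by exact_mod_cast Nat.choose_le_pow n s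
      have h4 : (n : ℝ) ^ s = Real.exp (s * Real.log n) := by
        rw [Real.exp_nat_mul, Real.exp_log hn0]
      rw [h4] at h3
      calc (n.choose s : ℝ) * Real.exp (-(s * Real.log n + Real.log 3)) ≤
          Real.exp (s * Real.log n) * Real.exp (-(s * Real.log n + Real.log 3)) :=
            mul_le_mul_of_nonneg_right h3 (Real.exp_pos _).le
        _ = Real.exp (-Real.log 3) := by
            rw [← Real.exp_add]
            congr 1
            ring
        _ = 1 / 3 := by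
            rw [Real.exp_neg, Real.exp_log (by norm_num), one_div]
    refine (sum_le_sum h2).trans ?_
    rw [sum_const, card_range, nsmul_eq_mul]
    norm_num
  · intro s hs hj
    obtain ⟨j, hj⟩ := hj
    have h2 := pointwise_B h0 h1 hz hL hmn hm s hs j hj
    rw [← Real.exp_sum, ← Real.exp_add]
    apply Real.exp_le_exp.2
    have h3 : ∑ i, -((s i : ℝ) * Real.log n + Real.log 3) =
        -((∑ i, (s i : ℝ)) * Real.log n + ((m : ℝ) + 1) * Real.log 3) := by
      rw [sum_neg_distrib, sum_add_distrib, ← sum_mul, sum_const,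
        card_univ, Fintype.card_fin, nsmul_eq_mul]
      push_cast
      ring
    rw [h3]
    linarith

end Pool.Agent.CFC
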