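import Pool.Agent.CFC.UpA

/-! The upper bound for `7/8 ≤ p ≤ 1`. -/

namespace Pool.Agent.CFC

open Finset Pool.Agent.MD437

variable {n m : ℕ} {p : ℝ}

lemma qs_one (p : ℝ) : qs p 1 = p := by
  unfold qs
  norm_num

lemma qs_zero (p : ℝ) : qs p 0 = 0 := by
  unfold qs
  norm_num

lemma ww_one (p : ℝ) : ww p (fun _ : Fin m => 1) = (1 - p) ^ m := by
  unfold ww
  simp only [qs_one]
  rw [prod_const, card_univ, Fintype.card_fin]

lemma pairB (h0 : 0 ≤ p) (h1 : p ≤ 1) (V : Fin m → Finset (Fin n))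
    {C C' : Fin m → Finset (Fin n)} (hC : C ∈ fam V (fun _ => 1))
    (hC' : C' ∈ fam V (fun _ => 1)) :
    ∏ i, gp p (C i) (C' i) ≤ (1 - p) ^ m * (1 - p) ^ (m - ∑ i, (C i ∩ C' i).card) ∧
      ∑ i, (C i ∩ C' i).card ≤ m := by
  have hq : 0 ≤ 1 - p := by linarith
  have hl : ∀ i, (C i ∩ C' i).card ≤ 1 := fun i => by
    rw [← ((mem_fam.1 hC) i).2]
    exact card_le_card inter_subset_left
  have h2 : ∀ i, gp p (C i) (C' i) ≤ (1 - p) * (1 - p) ^ (1 - (C i ∩ C' i).card) := by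
    intro i
    have e1 := ((mem_fam.1 hC) i).2
    have e2 := ((mem_fam.1 hC') i).2
    have h3 : (C i ∩ C' i).card = 0 ∨ (C i ∩ C' i).card = 1 := by
      have := hl i
      omega
    rcases h3 with h3 | h3
    · have h4 := gp_le₁ h0 h1 (C i) (C' i) (e1.trans e2.symm)
      rw [e1, h3, qs_one] at h4
      rw [h3]
      norm_num at h4 ⊢
      rw [← sq]
      exact h4
    · have h4 := gp_le₂ h0 h1 (C i) (C' i)
      have h5 : (C' i \ C i).card = 0 := by
        have := card_sdiff_add_card_inter (C' i) (C i)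
        rw [e2, inter_comm, h3] at this
        omega
      rw [e1, h5, qs_one, qs_zero] at h4
      rw [h3]
      norm_num at h4 ⊢
      exact h4
  constructor
  · calc ∏ i, gp p (C i) (C' i) ≤ ∏ i, ((1 - p) * (1 - p) ^ (1 - (C i ∩ C' i).card)) :=
          prod_le_prod (fun i _ => gp_nonneg h0 h1 _ _) fun i _ => h2 i
      _ = _ := by
          rw [prod_mul_distrib, prod_const, card_univ, Fintype.card_fin, prod_pow_eq_pow_sum]
          congr 2
          have h6 : ∑ i, (1 - (C i ∩ C' i).card) + ∑ i, (C i ∩ C' i).card = m := by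
            rw [← sum_add_distrib]
            calc ∑ i, (1 - (C i ∩ C' i).card + (C i ∩ C' i).card) = ∑ _i : Fin m, 1 :=
                  sum_congr rfl fun i _ => by
                    have := hl i
                    omega
              _ = m := by simp
          omega
  · calc ∑ i, (C i ∩ C' i).card ≤ ∑ _i : Fin m, 1 := sum_le_sum fun i _ => hl i
      _ = m := by simp

/-- There is a conflict-free colouring with `m + 1` colours. -/
theorem upper_B {θ : ℝ} (h0 : 7 / 8 ≤ p) (h1 : p ≤ 1) (hm : 1 ≤ m)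
    (hUC : (n : ℝ) * (1 - p) ^ m ≤ 1 / 2 * m * Real.log n) (hθ1 : θ ≤ 1)
    (hlog : 1 ≤ Real.log n) (H2 : 2 * m ^ 2 ≤ n)
    (H3 : 2 * (m : ℝ) ^ 2 * Real.log n ^ 2 ≤ θ * n)
    (H5 : 12 * (m : ℝ) ^ 2 * Real.exp (Real.log n / 2) ≤ θ * n) :
    pr p (E n) (fun S => ¬ ∃ c : Fin n → Fin (m + 1), IsCF (gr S) c) ≤
      Real.exp θ * (Real.exp (2 * θ) + θ) - 1 := by
  classical
  have hp0 : 0 ≤ p := by linarith
  have hq : 0 ≤ 1 - p := by linarith
  set Λ := Real.log n with hΛd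
  have hm' : (1 : ℝ) ≤ m := by exact_mod_cast hm
  have hmm : m ≤ m ^ 2 := by nlinarith
  have hn : 0 < n := by nlinarith
  have hn' : (0 : ℝ) < n := by exact_mod_cast hn
  let s : Fin m → ℕ := fun _ => 1
  have hσ : ∑ i, s i = m := by simp [s]
  set w := ww p s with hw
  have hwe : w = (1 - p) ^ m := ww_one p
  have hw0 : 0 ≤ w := by rw [hwe]; positivity
  have hw8 : w ≤ 1 / 8 := by
    rw [hwe]
    calc (1 - p) ^ m ≤ (1 - p) ^ 1 := pow_le_pow_of_le_one hq (by linarith) hm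
      _ ≤ 1 / 8 := by rw [pow_one]; linarith
  rw [← hwe] at hUC
  have hnw0 : 0 ≤ n * w := by positivity
  -- the sets
  set N := n / m with hN
  have hmN : m * N ≤ n := Nat.mul_div_le n m
  have hN2m : m ≤ N := by
    rw [hN, Nat.le_div_iff_mul_le (by omega)]
    nlinarith
  have hNpos : 0 < N := by omega
  have hN' : (0 : ℝ) < N := by exact_mod_cast hNpos
  obtain ⟨V, hVd, hVc⟩ := exists_V n m N hmN
  have hNlow : (n : ℝ) ≤ 2 * m * N := by
    have h2 : n < m * (N + 1) := by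
      rw [hN]
      exact Nat.lt_mul_div_succ n (by omega)
    have h3 : (n : ℝ) < m * (N + 1) := by exact_mod_cast h2
    have h4 : (1 : ℝ) ≤ N := by exact_mod_cast hNpos
    have h5 : (m : ℝ) * 1 ≤ m * N := mul_le_mul_of_nonneg_left h4 (by linarith)
    linarith
  have hmNr : (m : ℝ) / N ≤ 2 * m ^ 2 / n := by
    rw [div_le_div_iff₀ hN' hn']
    calc (m : ℝ) * n ≤ m * (2 * m * N) := mul_le_mul_of_nonneg_left hNlow (by linarith)
      _ = _ := by ring
  have hne : (fam V s).Nonempty := by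
    have : ∀ i, (powersetCard (s i) (V i)).Nonempty := fun i => by
      rw [powersetCard_nonempty, hVc i]
      show 1 ≤ N
      omega
    choose C hC using this
    exact ⟨C, Fintype.mem_piFinset.2 hC⟩
  have hsq : ∑ i, (s i : ℝ) ^ 2 = m := by simp [s]
  set y : ℝ := (N : ℝ) / m with hy
  have hy1 : 1 ≤ y := by
    rw [hy, le_div_iff₀ (by linarith), one_mul]
    exact_mod_cast hN2m
  set τ := (n : ℝ) * w ^ 2 with hτ
  let Ω : ℕ → ℝ := fun ℓ => 1 / 2 * ℓ * Λ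
  have hM : ∀ C ∈ fam V s, ∑ C' ∈ fam V s, (1 : ℝ) ^ (∑ i, (C i ∩ C' i).card) *
      Real.exp (n * ∏ i, gp p (C i) (C' i)) ≤ _ := fun C hC =>
    M_bound V s hNpos hVc (fun i => by show 1 ≤ N; omega) le_rfl hy1 1 Ω (τ := τ) hC
      (fun C' hC' hlt => by
        obtain ⟨h2, -⟩ := pairB hp0 h1 V hC hC'
        have h3 : ∑ i, (C i ∩ C' i).card = 0 := by omega
        rw [h3, Nat.sub_zero, ← hwe] at h2
        calc (n : ℝ) * ∏ i, gp p (C i) (C' i) ≤ n * (w * w) :=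
              mul_le_mul_of_nonneg_left h2 hn'.le
          _ = τ := by rw [hτ]; ring)
      (fun C' hC' hge => by
        obtain ⟨h2, h3⟩ := pairB hp0 h1 V hC hC'
        set L := ∑ i, (C i ∩ C' i).card with hL
        show (n : ℝ) * ∏ i, gp p (C i) (C' i) ≤ 1 / 2 * (L : ℝ) * Λ
        rw [← hwe] at h2
        obtain ⟨j, hj⟩ : ∃ j, m = L + j := ⟨m - L, by omega⟩
        have e1 : m - L = j := by omega
        rw [e1] at h2
        have h4 : (1 - p) ^ j ≤ (1 / 8) ^ j := pow_le_pow_left₀ hq (by linarith) j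
        have h5 : (m : ℝ) * (1 / 8) ^ j ≤ L := by
          have h6 : 1 + 7 * (j : ℝ) ≤ (8 : ℝ) ^ j := by
            have := one_add_mul_le_pow (show (-2 : ℝ) ≤ 7 by norm_num) j
            calc 1 + 7 * (j : ℝ) = 1 + j * 7 := by ring
              _ ≤ (1 + 7) ^ j := this
              _ = _ := by norm_num
          have h7 : (1 : ℝ) ≤ L := by exact_mod_cast hge
          have h8 : (m : ℝ) = L + j := by
            rw [hj]; push_cast; rfl
          have hj0 : (0 : ℝ) ≤ j := Nat.cast_nonneg _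
          rw [one_div, inv_pow, ← div_eq_mul_inv, div_le_iff₀ (by positivity), h8]
          have h9 : (L : ℝ) * (1 + 7 * j) ≤ L * 8 ^ j := mul_le_mul_of_nonneg_left h6 (by linarith)
          have h10 : 1 * (j : ℝ) ≤ L * j := mul_le_mul_of_nonneg_right h7 hj0
          linarith
        calc (n : ℝ) * ∏ i, gp p (C i) (C' i) ≤ n * (w * (1 - p) ^ j) :=
              mul_le_mul_of_nonneg_left h2 hn'.le
          _ = (n * w) * (1 - p) ^ j := by ring
          _ ≤ (1 / 2 * m * Λ) * (1 / 8) ^ j :=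
              mul_le_mul hUC h4 (pow_nonneg hq _) (by positivity)
          _ = 1 / 2 * (m * (1 / 8) ^ j) * Λ := by ring
          _ ≤ 1 / 2 * L * Λ := by
              refine mul_le_mul_of_nonneg_right ?_ (by linarith)
              linarith)
  have h2σ : 2 * ∑ i, s i ≤ n := by rw [hσ]; omega
  have hb : 0 < (1 - p) ^ (∑ i, (s i).choose 2) := by simp [s]
  have hD : ∀ i, ∀ l ≤ s i, (1 - p) ^ (2 * (s i).choose 2 - l.choose 2) ≤
      (1 - p) ^ (2 * (s i).choose 2) * (1 : ℝ) ^ l := by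
    intro i l hl
    simp [s]
  have hSM := second_moment hp0 h1 V hVd s hne (by linarith) h2σ hb zero_le_one hD hM
  have hpr : pr p (E n) (fun S => ¬ ∃ c : Fin n → Fin (m + 1), IsCF (gr S) c) ≤
      pr p (E n) (fun S => ¬ ∃ C ∈ fam V s, GoodS S C) := by
    refine pr_mono hp0 h1 fun S _ h hC => h ?_
    obtain ⟨C, hC, hg⟩ := hC
    refine colour_of_good (C := C) ?_ hg
    intro i j hij
    exact disjoint_of_subset_left ((mem_fam.1 hC) i).1
      (disjoint_of_subset_right ((mem_fam.1 hC) j).1 (hVd i j hij))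
  refine hpr.trans (hSM.trans ?_)
  rw [hσ, hsq, ← hw]
  have hm2 : (0 : ℝ) ≤ (m : ℝ) ^ 2 := sq_nonneg _
  have hsqn : (n * w) ^ 2 ≤ 1 / 4 * ((m : ℝ) ^ 2 * Λ ^ 2) := by
    calc (n * w) ^ 2 ≤ (1 / 2 * m * Λ) ^ 2 := pow_le_pow_left₀ hnw0 hUC 2
      _ = _ := by ring
  have hmΛ : (m : ℝ) ^ 2 * Λ ≤ (m : ℝ) ^ 2 * Λ ^ 2 := by
    refine mul_le_mul_of_nonneg_left ?_ hm2
    rw [sq]
    have := mul_le_mul_of_nonneg_right hlog (by linarith : (0 : ℝ) ≤ Λ)
    linarith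
  have hmΛ0 : 0 ≤ (m : ℝ) ^ 2 * Λ ^ 2 := by positivity
  have hm2Λ : (m : ℝ) ^ 2 ≤ (m : ℝ) ^ 2 * Λ ^ 2 := by
    have h3 : (1 : ℝ) ≤ Λ ^ 2 := one_le_pow₀ hlog
    have := mul_le_mul_of_nonneg_left h3 hm2
    linarith
  have hK : 2 * (m : ℝ) * w + 2 * n * w ^ 2 ≤ θ := by
    have e1 : (n : ℝ) * (2 * m * w + 2 * n * w ^ 2) = 2 * m * (n * w) + 2 * (n * w) ^ 2 := by ring
    have e2 : 2 * (m : ℝ) * (n * w) ≤ 2 * m * (1 / 2 * m * Λ) :=
      mul_le_mul_of_nonneg_left hUC (by linarith)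
    have e3 : (n : ℝ) * (2 * m * w + 2 * n * w ^ 2) ≤ n * θ := by
      rw [e1]
      linarith
    exact le_of_mul_le_mul_left e3 hn'
  have hτθ : τ ≤ θ := by
    have e3 : (n : ℝ) * τ ≤ n * θ := by
      have : (n : ℝ) * τ = (n * w) ^ 2 := by rw [hτ]; ring
      rw [this]
      linarith
    exact le_of_mul_le_mul_left e3 hn'
  have hDθ : (1 : ℝ) * (m : ℝ) / N ≤ θ := by
    rw [one_mul]
    refine hmNr.trans ?_
    rw [div_le_iff₀ hn']
    linarith
  have hym : y * (m : ℝ) / N = 1 := by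
    rw [hy]
    field_simp
  rw [hym]
  set x := (1 / y) * Real.exp (Λ / 2) with hx
  have hy0 : 0 < y := by linarith
  have hx0 : 0 ≤ x := by positivity
  have hxle : 6 * x ≤ θ := by
    have e1 : 1 / y = m / N := by
      rw [hy]; field_simp
    rw [hx, e1]
    have e2 : (m : ℝ) / N * Real.exp (Λ / 2) ≤ (2 * m ^ 2 / n) * Real.exp (Λ / 2) :=
      mul_le_mul_of_nonneg_right hmNr (Real.exp_pos _).le
    have e3 : 6 * ((2 * (m : ℝ) ^ 2 / n) * Real.exp (Λ / 2)) ≤ θ := by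
      have e4 : 6 * ((2 * (m : ℝ) ^ 2 / n) * Real.exp (Λ / 2)) =
          12 * (m : ℝ) ^ 2 * Real.exp (Λ / 2) / n := by ring
      rw [e4, div_le_iff₀ hn']
      exact H5
    linarith
  have htail : ∑ ℓ ∈ Icc 1 m, (1 / y) ^ ℓ * Real.exp (Ω ℓ) * Real.exp 1 ≤ θ := by
    have e1 : ∀ ℓ ∈ Icc 1 m, (1 / y) ^ ℓ * Real.exp (Ω ℓ) * Real.exp 1 = Real.exp 1 * x ^ ℓ := by
      intro ℓ _
      have : Real.exp (Ω ℓ) = Real.exp (Λ / 2) ^ ℓ := by
        rw [← Real.exp_nat_mul]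
        congr 1
        show 1 / 2 * (ℓ : ℝ) * Λ = _
        ring
      rw [this, hx, mul_pow]
      ring
    rw [sum_congr rfl e1, ← mul_sum]
    have e2 : ∑ ℓ ∈ Icc 1 m, x ^ ℓ ≤ 2 * x := by
      have e3 : ∑ ℓ ∈ Icc 1 m, x ^ ℓ = x * ∑ ℓ ∈ range m, x ^ ℓ := by
        rw [mul_sum, ← Finset.Ico_add_one_right_eq_Icc, sum_Ico_eq_sum_range]
        have : m + 1 - 1 = m := by omega
        rw [this]
        exact sum_congr rfl fun ℓ _ => by rw [add_comm, pow_succ]; ring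
      have e4 : ∑ ℓ ∈ range m, x ^ ℓ ≤ 2 := by
        refine le_trans (sum_le_sum fun ℓ _ => ?_) (sum_geometric_two_le m)
        exact pow_le_pow_left₀ hx0 (by linarith) ℓ
      rw [e3]
      have := mul_le_mul_of_nonneg_left e4 hx0
      linarith
    have e3 : Real.exp 1 ≤ 3 := by
      have := Real.exp_one_lt_d9
      linarith
    have e4 : 0 ≤ ∑ ℓ ∈ Icc 1 m, x ^ ℓ := sum_nonneg fun ℓ _ => pow_nonneg hx0 _
    calc Real.exp 1 * ∑ ℓ ∈ Icc 1 m, x ^ ℓ ≤ 3 * (2 * x) := mul_le_mul e3 e2 e4 (by norm_num)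
      _ ≤ θ := by linarith
  have hfin : Real.exp τ * Real.exp (1 * (m : ℝ) / N) +
      ∑ ℓ ∈ Icc 1 m, (1 / y) ^ ℓ * Real.exp (Ω ℓ) * Real.exp 1 ≤ Real.exp (2 * θ) + θ := by
    refine add_le_add ?_ htail
    rw [← Real.exp_add]
    apply Real.exp_le_exp.2
    linarith
  have hpos : 0 ≤ Real.exp τ * Real.exp (1 * (m : ℝ) / N) +
      ∑ ℓ ∈ Icc 1 m, (1 / y) ^ ℓ * Real.exp (Ω ℓ) * Real.exp 1 := by
    have : 0 ≤ ∑ ℓ ∈ Icc 1 m, (1 / y) ^ ℓ * Real.exp (Ω ℓ) * Real.exp 1 :=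
      sum_nonneg fun ℓ _ => by positivity
    positivity
  have := mul_le_mul (Real.exp_le_exp.2 hK) hfin hpos (Real.exp_pos _).le
  linarith

end Pool.Agent.CFC
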