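import Pool.Agent.CFC.LowA
import Pool.Agent.CFC.LowB
import Pool.Agent.CFC.UpB

/-! Asymptotic analysis. -/

namespace Pool.Agent.CFC

open Finset Filter Topology Pool.Agent.MD437

lemma isCF_id {n : ℕ} (G : SimpleGraph (Fin n)) : IsCF G (fun x : Fin n => x) := by
  intro x
  exact ⟨x, Or.inl rfl, fun z _ h => h⟩

lemma chiCF_le_iff {n : ℕ} (G : SimpleGraph (Fin n)) (r : ℕ) :
    chiCF G ≤ r ↔ ∃ c : Fin n → Fin r, IsCF G c := by
  constructor
  · intro h
    have hne : {r : ℕ | ∃ c : Fin n → Fin r, IsCF G c}.Nonempty := ⟨n, _, isCF_id G⟩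
    obtain ⟨c, hc⟩ := Nat.sInf_mem hne
    refine ⟨fun x => Fin.castLE h (c x), fun x => ?_⟩
    obtain ⟨y, h1, h2⟩ := hc x
    exact ⟨y, h1, fun z hz hzy => h2 z hz (Fin.castLE_injective h hzy)⟩
  · rintro ⟨c, hc⟩
    exact Nat.sInf_le ⟨c, hc⟩

/-- from the two bounds to the concentration -/
lemma combine {n b : ℕ} {p η : ℝ} (hp0 : 0 ≤ p) (hp1 : p ≤ 1)
    (hup : pr p (E n) (fun S => ¬ ∃ c : Fin n → Fin (b + 2), IsCF (gr S) c) ≤ η / 2)
    (hlo : pr p (E n) (fun S => ∃ c : Fin n → Fin b, IsCF (gr S) c) ≤ η / 2) :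
    1 - η ≤ gnp n p (fun G => chiCF G = b + 1 ∨ chiCF G = b + 1 + 1) := by
  rw [gnp_eq]
  have h1 : pr p (E n) (fun S => ¬ (chiCF (gr S) = b + 1 ∨ chiCF (gr S) = b + 1 + 1)) ≤
      pr p (E n) (fun S => (¬ ∃ c : Fin n → Fin (b + 2), IsCF (gr S) c) ∨
        ∃ c : Fin n → Fin b, IsCF (gr S) c) := by
    refine pr_mono hp0 hp1 fun S _ h => ?_
    rw [← chiCF_le_iff, ← chiCF_le_iff]
    omega
  have h2 := pr_or hp0 hp1 (E n) (fun S => ¬ ∃ c : Fin n → Fin (b + 2), IsCF (gr S) c)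
    (fun S => ∃ c : Fin n → Fin b, IsCF (gr S) c)
  rw [pr_not] at h1
  linarith

/-- the condition for the existence of a system of `m` classes -/
def UC (n : ℕ) (p : ℝ) (m : ℕ) : Prop :=
  ∃ s : Fin m → ℕ, (∀ i, kk p ≤ s i ∧ s i ≤ SS p) ∧
    (n : ℝ) * ww p s ≤ 11 / 12 * (∑ i, (s i : ℝ)) * Real.log (n * p)

lemma UC_step {n : ℕ} {p : ℝ} (h0 : 0 < p) (h1 : p ≤ 7 / 8) (hΛ : 0 ≤ Real.log (n * p)) {m : ℕ}
    (h : ¬ UC n p (m + 1)) (s : Fin m → ℕ) (hs : ∀ i, kk p ≤ s i ∧ s i ≤ SS p) :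
    13 / 12 * (∑ i, (s i : ℝ)) * Real.log (n * p) ≤ n * ww p s := by
  by_contra hcon
  push Not at hcon
  apply h
  refine ⟨Fin.snoc s (kk p), ?_, ?_⟩
  · intro i
    refine Fin.lastCases ?_ (fun j => ?_) i
    · rw [Fin.snoc_last]
      exact ⟨le_rfl, (kk_lt_SS h0).le⟩
    · rw [Fin.snoc_castSucc]
      exact hs j
  · have e1 : ww p (Fin.snoc s (kk p) : Fin (m + 1) → ℕ) = ww p s * (1 - qs p (kk p)) := by
      unfold ww
      rw [Fin.prod_univ_castSucc]
      simp only [Fin.snoc_castSucc, Fin.snoc_last]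
    have e2 : ∑ i, (((Fin.snoc s (kk p) : Fin (m + 1) → ℕ) i : ℕ) : ℝ) =
        (∑ i, (s i : ℝ)) + kk p := by
      rw [Fin.sum_univ_castSucc]
      simp only [Fin.snoc_castSucc, Fin.snoc_last]
    rw [e1, e2]
    have h2 := qs_kk h0 h1
    have hw0 : 0 ≤ (n : ℝ) * ww p s :=
      mul_nonneg (Nat.cast_nonneg _) (ww_nonneg h0.le (by linarith) s)
    have hσ0 : 0 ≤ ∑ i, (s i : ℝ) := sum_nonneg fun i _ => Nat.cast_nonneg _
    set σ := ∑ i, (s i : ℝ) with hσ
    set Λ := Real.log (n * p) with hΛd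
    have hσΛ : 0 ≤ σ * Λ := mul_nonneg hσ0 hΛ
    have hkΛ : 0 ≤ (kk p : ℝ) * Λ := mul_nonneg (Nat.cast_nonneg _) hΛ
    calc (n : ℝ) * (ww p s * (1 - qs p (kk p))) = (n * ww p s) * (1 - qs p (kk p)) := by ring
      _ ≤ (n * ww p s) * (5 / 6) := mul_le_mul_of_nonneg_left (by linarith) hw0
      _ ≤ (13 / 12 * σ * Λ) * (5 / 6) := mul_le_mul_of_nonneg_right hcon.le (by norm_num)
      _ = 65 / 72 * (σ * Λ) := by ring
      _ ≤ 11 / 12 * (σ * Λ) + 11 / 12 * ((kk p : ℝ) * Λ) := by linarith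
      _ = _ := by ring

/-- Regime `n ^ (-1/2+ε) ≤ p ≤ 7/8`, for one `n`. -/
lemma regime_A_one {n : ℕ} {p ε θ z η : ℝ} (hε : 0 < ε) (hε' : ε ≤ 1 / 4) (hθ : 0 < θ)
    (hz : 0 ≤ z) (hzη : Real.exp (-z) ≤ η / 2)
    (hθη : Real.exp θ * (Real.exp (2 * θ) + θ) - 1 ≤ η / 2) (hn : 0 < n)
    (hp : Real.exp ((-(1 / 2) + ε) * Real.log n) ≤ p) (h1 : p ≤ 7 / 8)
    (hK : (100000 + (24000 + 12000 * Real.exp 44) / θ) * Real.log n ^ 4 ≤
      Real.exp (ε * Real.log n))
    (hL1 : 30000 ≤ Real.log n) (hL2 : 100 * (48 + z) ≤ Real.log n)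
    (hL3 : 46 + Real.log 39424 + 1500000 / ε ≤ 3 / 256 * Real.log n)
    (hL4 : Real.exp (-(Real.exp (-176) * (Real.log n / 960))) ≤ ε / 6000000)
    (hL5 : Real.exp (1 - ε / 12000000 * Real.log n) ≤ θ) :
    ∃ a : ℕ, 1 - η ≤ gnp n p (fun G => chiCF G = a ∨ chiCF G = a + 1) := by
  classical
  have hn' : (0 : ℝ) < n := by exact_mod_cast hn
  set L := Real.log n with hL
  have h0 : 0 < p := lt_of_lt_of_le (Real.exp_pos _) hp
  have hp1 : p ≤ 1 := by linarith
  have hnL : (n : ℝ) = Real.exp L := (Real.exp_log hn').symm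
  set e1 := Real.exp (ε * L) with he1
  set E' := Real.exp ((1 / 2 - ε) * L) with hE'
  have hnE : (n : ℝ) = E' ^ 2 * e1 ^ 2 := by
    rw [hnL, hE', he1, ← Real.exp_nat_mul, ← Real.exp_nat_mul, ← Real.exp_add]
    congr 1
    push_cast
    ring
  have hE1 : 1 ≤ E' := Real.one_le_exp (mul_nonneg (by linarith) (by linarith))
  have he1' : 1 ≤ e1 := Real.one_le_exp (mul_nonneg hε.le (by linarith))
  have hL0 : 1 ≤ L := by linarith
  have hpinv : 1 / p ≤ E' := by
    rw [div_le_iff₀ h0]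
    calc (1 : ℝ) = E' * Real.exp ((-(1 / 2) + ε) * L) := by
          rw [hE', ← Real.exp_add]
          have : (1 / 2 - ε) * L + (-(1 / 2) + ε) * L = 0 := by ring
          rw [this, Real.exp_zero]
      _ ≤ E' * p := mul_le_mul_of_nonneg_left hp (by linarith)
  have hSS : (SS p : ℝ) ≤ 11 * E' := by
    have h2 := SS_ub h0 hp1
    have h3 : (SS p : ℝ) = (SS p * p) * (1 / p) := by field_simp
    rw [h3]
    exact mul_le_mul h2 hpinv (by positivity) (by norm_num)
  have hSS0 : (0 : ℝ) ≤ SS p := Nat.cast_nonneg _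
  -- the logarithm
  set Λ := Real.log (n * p) with hΛ
  have hΛeq : Λ = L + Real.log p := by rw [hΛ, Real.log_mul hn'.ne' h0.ne']
  have hlogp : (-(1 / 2) + ε) * L ≤ Real.log p := by
    rw [Real.le_log_iff_exp_le h0]
    exact hp
  have hΛ1 : L / 2 ≤ Λ := by
    rw [hΛeq]
    have : 0 ≤ ε * L := by positivity
    linarith
  have hΛ2 : Λ ≤ L := by
    rw [hΛeq]
    have := Real.log_nonpos h0.le hp1
    linarith
  have hnp : 1 ≤ (n : ℝ) * p := by
    by_contra hcon
    push Not at hcon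
    have := Real.log_nonpos (by positivity) hcon.le
    rw [← hΛ] at this
    linarith
  have hL4' : 0 ≤ L ^ 4 := by positivity
  have hKθ : 0 ≤ (24000 + 12000 * Real.exp 44) / θ := by positivity
  -- consequences of `hK`
  have hK1 : 100000 * L ^ 4 ≤ e1 := by
    have : 0 ≤ (24000 + 12000 * Real.exp 44) / θ * L ^ 4 := mul_nonneg hKθ hL4'
    linarith
  have hK2 : (24000 + 12000 * Real.exp 44) * L ^ 4 ≤ θ * e1 := by
    have h2 : (24000 + 12000 * Real.exp 44) / θ * L ^ 4 ≤ e1 := by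
      have : 0 ≤ 100000 * L ^ 4 := by positivity
      linarith
    have h3 := mul_le_mul_of_nonneg_left h2 hθ.le
    have h4 : θ * ((24000 + 12000 * Real.exp 44) / θ * L ^ 4) =
        (24000 + 12000 * Real.exp 44) * L ^ 4 := by field_simp
    linarith
  have hLpow : ∀ j, j ≤ 4 → L ^ j ≤ L ^ 4 := fun j hj => pow_le_pow_right₀ hL0 hj
  have hLL4 : L ≤ L ^ 4 := by simpa using hLpow 1 (by norm_num)
  have hLL2 : L ^ 2 ≤ L ^ 4 := hLpow 2 (by norm_num)
  have he12 : e1 ≤ e1 ^ 2 := by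
    rw [sq]
    have := mul_le_mul_of_nonneg_left he1' (by linarith : (0 : ℝ) ≤ e1)
    linarith
  have hE2 : E' ≤ E' ^ 2 := by
    rw [sq]
    have := mul_le_mul_of_nonneg_left hE1 (by linarith : (0 : ℝ) ≤ E')
    linarith
  have hEe : ∀ X, X ≤ e1 → X * E' ≤ n := by
    intro X hX
    rw [hnE]
    calc X * E' ≤ e1 * E' := mul_le_mul_of_nonneg_right hX (by linarith)
      _ ≤ e1 ^ 2 * E' ^ 2 := mul_le_mul he12 hE2 (by linarith) (by positivity)
      _ = _ := by ring
  -- the least `m`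
  have hex : ∃ m, UC n p m := by
    refine ⟨⌈6 * L⌉₊, fun _ => kk p, fun _ => ⟨le_rfl, (kk_lt_SS h0).le⟩, ?_⟩
    have h2 := qs_kk h0 h1
    have h3 : ww p (fun _ : Fin ⌈6 * L⌉₊ => kk p) ≤ Real.exp (-L) := by
      unfold ww
      rw [prod_const, card_univ, Fintype.card_fin]
      calc (1 - qs p (kk p)) ^ ⌈6 * L⌉₊ ≤ (Real.exp (-(1 / 6))) ^ ⌈6 * L⌉₊ := by
            refine pow_le_pow_left₀ (by linarith [qs_le_one h0.le hp1 (kk p)]) ?_ _
            have := Real.add_one_le_exp (-(1 / 6 : ℝ))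
            linarith
        _ = Real.exp ((⌈6 * L⌉₊ : ℝ) * (-(1 / 6))) := by rw [← Real.exp_nat_mul]
        _ ≤ _ := by
            apply Real.exp_le_exp.2
            have := Nat.le_ceil (6 * L)
            linarith
    have h4 : (n : ℝ) * ww p (fun _ : Fin ⌈6 * L⌉₊ => kk p) ≤ 1 := by
      calc (n : ℝ) * ww p (fun _ : Fin ⌈6 * L⌉₊ => kk p) ≤ n * Real.exp (-L) :=
            mul_le_mul_of_nonneg_left h3 hn'.le
        _ = 1 := by rw [hnL, ← Real.exp_add]; simp
    refine h4.trans ?_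
    rw [sum_const, card_univ, Fintype.card_fin, nsmul_eq_mul]
    have h5 : (6 : ℝ) ≤ ⌈6 * L⌉₊ := by
      have := Nat.le_ceil (6 * L)
      linarith
    have h6 : (1 : ℝ) ≤ kk p := by exact_mod_cast kk_pos h0 h1
    have h7 : (6 : ℝ) * 1 ≤ (⌈6 * L⌉₊ : ℝ) * kk p := mul_le_mul h5 h6 zero_le_one (by linarith)
    have h8 : (2 : ℝ) ≤ Λ := by linarith
    calc (1 : ℝ) ≤ 11 / 12 * 6 * 2 := by norm_num
      _ ≤ 11 / 12 * ((⌈6 * L⌉₊ : ℝ) * kk p) * Λ :=
          mul_le_mul (by linarith) h8 (by norm_num) (by linarith)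
  set M := Nat.find hex with hM
  have hUC : UC n p M := Nat.find_spec hex
  have hMle : (M : ℝ) ≤ 7 * L := by
    have h2 : M ≤ ⌈6 * L⌉₊ := by
      apply Nat.find_min'
      refine ⟨fun _ => kk p, fun _ => ⟨le_rfl, (kk_lt_SS h0).le⟩, ?_⟩
      have h2 := qs_kk h0 h1
      have h3 : ww p (fun _ : Fin ⌈6 * L⌉₊ => kk p) ≤ Real.exp (-L) := by
        unfold ww
        rw [prod_const, card_univ, Fintype.card_fin]
        calc (1 - qs p (kk p)) ^ ⌈6 * L⌉₊ ≤ (Real.exp (-(1 / 6))) ^ ⌈6 * L⌉₊ := by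
              refine pow_le_pow_left₀ (by linarith [qs_le_one h0.le hp1 (kk p)]) ?_ _
              have := Real.add_one_le_exp (-(1 / 6 : ℝ))
              linarith
          _ = Real.exp ((⌈6 * L⌉₊ : ℝ) * (-(1 / 6))) := by rw [← Real.exp_nat_mul]
          _ ≤ _ := by
              apply Real.exp_le_exp.2
              have := Nat.le_ceil (6 * L)
              linarith
      have h4 : (n : ℝ) * ww p (fun _ : Fin ⌈6 * L⌉₊ => kk p) ≤ 1 := by
        calc (n : ℝ) * ww p (fun _ : Fin ⌈6 * L⌉₊ => kk p) ≤ n * Real.exp (-L) :=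
              mul_le_mul_of_nonneg_left h3 hn'.le
          _ = 1 := by rw [hnL, ← Real.exp_add]; simp
      refine h4.trans ?_
      rw [sum_const, card_univ, Fintype.card_fin, nsmul_eq_mul]
      have h5 : (6 : ℝ) ≤ ⌈6 * L⌉₊ := by
        have := Nat.le_ceil (6 * L)
        linarith
      have h6 : (1 : ℝ) ≤ kk p := by exact_mod_cast kk_pos h0 h1
      have h7 : (6 : ℝ) * 1 ≤ (⌈6 * L⌉₊ : ℝ) * kk p := mul_le_mul h5 h6 zero_le_one (by linarith)
      have h8 : (2 : ℝ) ≤ Λ := by linarith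
      calc (1 : ℝ) ≤ 11 / 12 * 6 * 2 := by norm_num
        _ ≤ 11 / 12 * ((⌈6 * L⌉₊ : ℝ) * kk p) * Λ :=
            mul_le_mul (by linarith) h8 (by norm_num) (by linarith)
    have h3 : (⌈6 * L⌉₊ : ℝ) < 6 * L + 1 := Nat.ceil_lt_add_one (by linarith)
    have h4 : (M : ℝ) ≤ ⌈6 * L⌉₊ := by exact_mod_cast h2
    linarith
  -- the bound for `B`
  have hB : ∀ X : ℝ, 0 ≤ X → X * SS p ≤ 11 * X * E' := by
    intro X hX
    have := mul_le_mul_of_nonneg_left hSS hX
    linarith
  have hMlow : L / 10 < M := by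
    by_contra hcon
    push Not at hcon
    obtain ⟨s, hs, hsU⟩ := hUC
    rw [← hΛ] at hsU
    have hσB : (∑ i, (s i : ℝ)) ≤ (M : ℝ) * SS p := by
      calc ∑ i, (s i : ℝ) ≤ ∑ _i : Fin M, (SS p : ℝ) :=
            sum_le_sum fun i _ => by exact_mod_cast (hs i).2
        _ = _ := by rw [sum_const, card_univ, Fintype.card_fin, nsmul_eq_mul]
    have hw : Real.exp (-(L / 2)) ≤ ww p s := by
      have h2 : Real.exp (-5) ≤ 1 / 96 := by
        rw [Real.exp_neg, inv_eq_one_div]
        apply one_div_le_one_div_of_le (by norm_num)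
        have h5 := Real.exp_one_gt_d9
        have h6 : Real.exp 5 = (Real.exp 1) ^ 5 := by
          rw [← Real.exp_nat_mul]; norm_num
        rw [h6]
        calc (96 : ℝ) ≤ 2.7 ^ 5 := by norm_num
          _ ≤ _ := pow_le_pow_left₀ (by norm_num) (by linarith) _
      unfold ww
      calc Real.exp (-(L / 2)) ≤ Real.exp ((M : ℝ) * (-5)) := by
            apply Real.exp_le_exp.2
            linarith
        _ = ∏ _i : Fin M, Real.exp (-5) := by
            rw [prod_const, card_univ, Fintype.card_fin, ← Real.exp_nat_mul]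
        _ ≤ _ := prod_le_prod (fun i _ => (Real.exp_pos _).le) fun i _ => by
            refine h2.trans (qs_ub h0 h1 ?_)
            have h7 := SS_ub h0 hp1
            have h8 : (s i : ℝ) ≤ SS p := by exact_mod_cast (hs i).2
            exact (mul_le_mul_of_nonneg_right h8 h0.le).trans h7
    have h2 : Real.exp (L / 2) ≤ 11 / 12 * (∑ i, (s i : ℝ)) * Λ := by
      refine le_trans ?_ hsU
      calc Real.exp (L / 2) = n * Real.exp (-(L / 2)) := by
            rw [hnL, ← Real.exp_add]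
            congr 1
            ring
        _ ≤ _ := mul_le_mul_of_nonneg_left hw hn'.le
    have h3 : (∑ i, (s i : ℝ)) ≤ 11 * (L / 10) * E' := by
      refine hσB.trans ((hB M (Nat.cast_nonneg _)).trans ?_)
      refine mul_le_mul_of_nonneg_right ?_ (by linarith)
      linarith
    have hσ0 : 0 ≤ ∑ i, (s i : ℝ) := sum_nonneg fun i _ => Nat.cast_nonneg _
    have h4 : (∑ i, (s i : ℝ)) * Λ ≤ (11 * (L / 10) * E') * L :=
      mul_le_mul h3 hΛ2 (by linarith) (by positivity)
    have h5 : Real.exp (L / 2) = E' * e1 := by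
      rw [hE', he1, ← Real.exp_add]
      congr 1
      ring
    have h6 : E' * e1 ≤ E' * (2 * L ^ 2) := by
      rw [← h5]
      have h7 : 0 ≤ E' * L ^ 2 := by positivity
      have h8 : (11 * (L / 10) * E') * L = 11 / 10 * (E' * L ^ 2) := by ring
      have h9 : 11 / 12 * (∑ i, (s i : ℝ)) * Λ = 11 / 12 * ((∑ i, (s i : ℝ)) * Λ) := by ring
      linarith
    have h7 : e1 ≤ 2 * L ^ 2 := le_of_mul_le_mul_left h6 (by linarith)
    have h8 : 0 < L ^ 4 := by positivity
    linarith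
  obtain ⟨m, hm⟩ : ∃ m, M = m + 2 := ⟨M - 2, by
    have : (2 : ℝ) < M := by linarith
    have : 2 < M := by exact_mod_cast this
    omega⟩
  have hMm : (M : ℝ) = m + 2 := by rw [hm]; push_cast; rfl
  have hnot : ¬ UC n p (m + 1) := Nat.find_min hex (by rw [← hM]; omega)
  refine ⟨m + 1 + 1, ?_⟩
  refine combine (b := m + 1) h0.le hp1 ?_ ?_
  · -- upper bound
    obtain ⟨s, hs, hsU⟩ := hUC
    have hM1 : 1 ≤ M := by omega
    have hM0 : (0 : ℝ) ≤ M := Nat.cast_nonneg _
    have hBM : (M : ℝ) * SS p ≤ 77 * L * E' := by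
      refine (hB M hM0).trans ?_
      refine mul_le_mul_of_nonneg_right ?_ (by linarith)
      linarith
    have hBM0 : 0 ≤ (M : ℝ) * SS p := by positivity
    have hBM2 : ((M : ℝ) * SS p) ^ 2 ≤ 5929 * (L ^ 2 * E' ^ 2) := by
      calc ((M : ℝ) * SS p) ^ 2 ≤ (77 * L * E') ^ 2 := pow_le_pow_left₀ hBM0 hBM 2
        _ = _ := by ring
    have hΛ0 : 0 ≤ Λ := by linarith
    have hΛsq : Λ ^ 2 ≤ L ^ 2 := pow_le_pow_left₀ hΛ0 hΛ2 2
    have hBΛ : ((M : ℝ) * SS p) ^ 2 * Λ ^ 2 ≤ 5929 * (L ^ 4 * E' ^ 2) := by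
      calc ((M : ℝ) * SS p) ^ 2 * Λ ^ 2 ≤ (5929 * (L ^ 2 * E' ^ 2)) * L ^ 2 :=
            mul_le_mul hBM2 hΛsq (sq_nonneg _) (by positivity)
        _ = _ := by ring
    have hE0 : 0 ≤ E' ^ 2 := by positivity
    have hexp44 : 0 < Real.exp 44 := Real.exp_pos _
    have hL4E : 0 ≤ L ^ 4 * E' ^ 2 := by positivity
    have hK3 : (24000 + 12000 * Real.exp 44) * (L ^ 4 * E' ^ 2) ≤ θ * (e1 * E' ^ 2) := by
      have := mul_le_mul_of_nonneg_right hK2 hE0
      linarith
    have hθe : θ * (e1 * E' ^ 2) ≤ θ * n := by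
      rw [hnE]
      refine mul_le_mul_of_nonneg_left ?_ hθ.le
      have := mul_le_mul_of_nonneg_right he12 hE0
      linarith
    have hpos44 : 0 ≤ Real.exp 44 * (L ^ 4 * E' ^ 2) := by positivity
    have hres := upper_A (n := n) (m := M) (p := p) (θ := θ) (c := ε / 1500000) h0 h1 hM1 s hs
      hsU (by positivity) (by linarith)
      (by
        have h2 : ((4 * (M * SS p) : ℕ) : ℝ) ≤ n := by
          push_cast
          have h3 := hEe (308 * L) (by linarith)
          linarith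
        exact_mod_cast h2)
      (by
        rw [← hΛ]
        calc 4 * ((M : ℝ) * SS p) ^ 2 * Λ ^ 2 = 4 * (((M : ℝ) * SS p) ^ 2 * Λ ^ 2) := by ring
          _ ≤ 4 * (5929 * (L ^ 4 * E' ^ 2)) := mul_le_mul_of_nonneg_left hBΛ (by norm_num)
          _ ≤ θ * n := by linarith)
      (by
        rw [← hΛ]
        have h2 : Real.exp (202752 * (ε / 1500000) * M) ≤ e1 := by
          apply Real.exp_le_exp.2
          have h3 : ε * M ≤ ε * (7 * L) := mul_le_mul_of_nonneg_left hMle hε.le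
          have h4 : 0 ≤ ε * L := by positivity
          linarith
        calc ((M : ℝ) * SS p) ^ 2 * Λ ^ 2 * Real.exp (202752 * (ε / 1500000) * M) ≤
            (5929 * (L ^ 4 * E' ^ 2)) * e1 :=
              mul_le_mul hBΛ h2 (Real.exp_pos _).le (by positivity)
          _ = (5929 * (L ^ 4)) * (e1 * E' ^ 2) := by ring
          _ ≤ (θ * e1) * (e1 * E' ^ 2) := by
              refine mul_le_mul_of_nonneg_right ?_ (by positivity)
              have : 0 ≤ Real.exp 44 * L ^ 4 := by positivity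
              linarith
          _ = θ * n := by rw [hnE]; ring)
      (by
        have h3 : Real.exp 44 * ((M : ℝ) * SS p) ^ 2 ≤
            Real.exp 44 * (5929 * (L ^ 4 * E' ^ 2)) := by
          refine mul_le_mul_of_nonneg_left ?_ hexp44.le
          refine hBM2.trans ?_
          have := mul_le_mul_of_nonneg_right hLL2 hE0
          linarith
        calc 2 * Real.exp 44 * ((M : ℝ) * SS p) ^ 2 =
            2 * (Real.exp 44 * ((M : ℝ) * SS p) ^ 2) := by ring
          _ ≤ θ * n := by linarith)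
      (by
        rw [← hΛ]
        have h2 : (M : ℝ) * SS p * Λ ≤ (77 * L * E') * L :=
          mul_le_mul hBM hΛ2 hΛ0 (by positivity)
        have h3 := hEe (308 * L ^ 2) (by linarith)
        have h4 : 4 * ((77 * L * E') * L) = 308 * L ^ 2 * E' := by ring
        linarith)
      (by
        rw [← hΛ]
        have h2 : Real.log (22 * M) ≤ Real.log (154 * L) := by
          apply Real.log_le_log
          · have : (0 : ℝ) < M := by linarith
            positivity
          · linarith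
        have h3 : Real.log (154 * L) ≤ Real.log 39424 + L / 256 := by
          have e : 154 * L = 39424 * (L / 256) := by ring
          rw [e, Real.log_mul (by norm_num) (by positivity)]
          have := Real.log_le_sub_one_of_pos (show 0 < L / 256 by positivity)
          linarith
        have h4 : 1 / (ε / 1500000) = 1500000 / ε := by field_simp
        rw [h4]
        linarith)
      (by
        have h2 : ε / 1500000 / 4 = ε / 6000000 := by ring
        rw [h2]
        refine le_trans ?_ hL4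
        apply Real.exp_le_exp.2
        have h3 : L / 960 ≤ (M : ℝ) / 96 := by linarith
        have := mul_le_mul_of_nonneg_left h3 (Real.exp_pos (-176)).le
        linarith)
      (by
        rw [← hΛ]
        refine le_trans ?_ hL5
        apply Real.exp_le_exp.2
        have h3 : ε * (L / 2) ≤ ε * Λ := mul_le_mul_of_nonneg_left hΛ1 hε.le
        linarith)
    have e : M + 1 = m + 1 + 2 := by omega
    rw [e] at hres
    exact hres.trans hθη
  · -- lower bound
    have hm2200 : 2200 ≤ m := by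
      have : (2200 : ℝ) ≤ m := by linarith
      exact_mod_cast this
    have hres := lower_A (n := n) (m := m) (p := p) (z := z) h0 h1 hnp hm2200 hz
      (by rw [← hΛ]; linarith)
      (by
        have h2 : ((m : ℝ) + 1) * SS p ≤ 77 * L * E' := by
          have h3 : ((m : ℝ) + 1) * SS p ≤ M * SS p :=
            mul_le_mul_of_nonneg_right (by linarith) hSS0
          refine h3.trans ((hB M (Nat.cast_nonneg _)).trans ?_)
          refine mul_le_mul_of_nonneg_right ?_ (by linarith)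
          linarith
        have h3 := hEe (77000 * L) (by linarith)
        linarith)
      (fun s hs => UC_step h0 h1 (by rw [← hΛ]; linarith) hnot s hs)
    exact hres.trans hzη

end Pool.Agent.CFC
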