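import Pool.Agent.CFC.Lower

/-! Elementary estimates for `0 < p ≤ 7/8`. -/

namespace Pool.Agent.CFC

open Finset Pool.Agent.MD437

/-- the optimal size of a class -/
noncomputable def kk (p : ℝ) : ℕ := ⌊1 / p⌋₊

/-- the size at which classes are cut off -/
noncomputable def SS (p : ℝ) : ℕ := ⌈10 / p⌉₊

variable {p : ℝ}

lemma kk_pos (h0 : 0 < p) (h1 : p ≤ 7 / 8) : 1 ≤ kk p := by
  unfold kk
  apply Nat.le_floor
  rw [Nat.cast_one, le_div_iff₀ h0]
  linarith

lemma kk_mul_le (h0 : 0 < p) : (kk p : ℝ) * p ≤ 1 := by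
  have h : (kk p : ℝ) ≤ 1 / p := Nat.floor_le (by positivity)
  rwa [le_div_iff₀ h0] at h

lemma half_le (h0 : 0 < p) (h1 : p ≤ 7 / 8) : 1 / 2 ≤ (kk p : ℝ) * p := by
  have h : 1 / p < (kk p : ℝ) + 1 := Nat.lt_floor_add_one _
  rw [div_lt_iff₀ h0] at h
  have hk : (1 : ℝ) ≤ kk p := by exact_mod_cast kk_pos h0 h1
  nlinarith

lemma SS_lb (h0 : 0 < p) : 10 ≤ (SS p : ℝ) * p := by
  have h : 10 / p ≤ (SS p : ℝ) := Nat.le_ceil _
  rwa [div_le_iff₀ h0] at h

lemma SS_ub (h0 : 0 < p) (h1 : p ≤ 1) : (SS p : ℝ) * p ≤ 11 := by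
  have h : (SS p : ℝ) < 10 / p + 1 := Nat.ceil_lt_add_one (by positivity)
  have h2 : (SS p : ℝ) * p ≤ (10 / p + 1) * p := mul_le_mul_of_nonneg_right h.le h0.le
  have h3 : (10 / p + 1) * p = 10 + p := by field_simp
  linarith

lemma kk_lt_SS (h0 : 0 < p) : kk p < SS p := by
  have h1 := kk_mul_le h0
  have h2 := SS_lb h0
  have : (kk p : ℝ) < SS p := by
    by_contra hcon
    push Not at hcon
    have := mul_le_mul_of_nonneg_right hcon h0.le
    linarith
  exact_mod_cast this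

lemma one_sub_ge (h0 : 0 < p) (h1 : p ≤ 7 / 8) : Real.exp (-(8 * p)) ≤ 1 - p := by
  have h2 : (1 - p)⁻¹ ≤ Real.exp (8 * p) := by
    have h3 := Real.add_one_le_exp (8 * p)
    refine le_trans ?_ h3
    rw [inv_eq_one_div, div_le_iff₀ (by linarith)]
    nlinarith
  rw [Real.exp_neg]
  have h4 := inv_anti₀ (by
    have : 0 < 1 - p := by linarith
    positivity) h2
  rwa [inv_inv] at h4

lemma qs_kk (h0 : 0 < p) (h1 : p ≤ 7 / 8) : 1 / 6 ≤ qs p (kk p) := by
  have hk := kk_pos h0 h1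
  have hq : 0 < 1 - p := by linarith
  have h2 : Real.exp (-(p / (1 - p))) ≤ 1 - p := by
    have h3 := Real.add_one_le_exp (p / (1 - p))
    have h4 : (1 - p)⁻¹ ≤ Real.exp (p / (1 - p)) := by
      refine le_trans (le_of_eq ?_) h3
      field_simp
      ring
    rw [Real.exp_neg]
    have h5 := inv_anti₀ (by positivity) h4
    rwa [inv_inv] at h5
  have h3 : Real.exp (-1) ≤ (1 - p) ^ (kk p - 1) := by
    calc Real.exp (-1) ≤ Real.exp (((kk p - 1 : ℕ) : ℝ) * (-(p / (1 - p)))) := by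
          apply Real.exp_le_exp.2
          have h4 : ((kk p - 1 : ℕ) : ℝ) = (kk p : ℝ) - 1 := by
            rw [Nat.cast_sub hk, Nat.cast_one]
          have h5 := kk_mul_le h0
          rw [h4]
          have h6 : ((kk p : ℝ) - 1) * (p / (1 - p)) ≤ 1 := by
            rw [mul_div_assoc', div_le_one hq]
            nlinarith
          linarith
      _ = (Real.exp (-(p / (1 - p)))) ^ (kk p - 1) := by rw [← Real.exp_nat_mul]
      _ ≤ _ := pow_le_pow_left₀ (by positivity) h2 _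
  have h4 : (1 : ℝ) / 3 ≤ Real.exp (-1) := by
    rw [Real.exp_neg]
    have := Real.exp_one_lt_d9
    rw [inv_eq_one_div]
    apply one_div_le_one_div_of_le (by positivity)
    linarith
  have h5 := half_le h0 h1
  unfold qs
  calc (1 : ℝ) / 6 = 1 / 2 * (1 / 3) := by norm_num
    _ ≤ (kk p : ℝ) * p * (1 - p) ^ (kk p - 1) :=
        mul_le_mul h5 (h4.trans h3) (by norm_num) (by positivity)

lemma qs_step (h0 : 0 < p) (h1 : p ≤ 7 / 8) {s : ℕ} (hs : s + 1 ≤ kk p) :
    qs p s ≤ qs p (s + 1) := by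
  have hk := kk_mul_le h0
  have h2 : ((s : ℝ) + 1) * p ≤ 1 := by
    have : ((s + 1 : ℕ) : ℝ) ≤ kk p := by exact_mod_cast hs
    push_cast at this
    nlinarith
  unfold qs
  rcases Nat.eq_zero_or_pos s with rfl | hpos
  · simp only [Nat.cast_zero, zero_mul, zero_add, Nat.cast_one, one_mul]
    have : 0 < 1 - p := by linarith
    positivity
  · obtain ⟨t, rfl⟩ : ∃ t, s = t + 1 := ⟨s - 1, by omega⟩
    have e1 : t + 1 - 1 = t := by omega
    have e2 : t + 1 + 1 - 1 = t + 1 := by omega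
    rw [e1, e2, pow_succ]
    push_cast at h2 ⊢
    have h3 : 0 ≤ (1 - p) ^ t := pow_nonneg (by linarith) _
    have h4 : ((t : ℝ) + 1) * p ≤ ((t : ℝ) + 1 + 1) * p * (1 - p) := by nlinarith
    calc ((t : ℝ) + 1) * p * (1 - p) ^ t ≤ (((t : ℝ) + 1 + 1) * p * (1 - p)) * (1 - p) ^ t :=
          mul_le_mul_of_nonneg_right h4 h3
      _ = _ := by ring

lemma qs_mono (h0 : 0 < p) (h1 : p ≤ 7 / 8) {s : ℕ} (hs : s ≤ kk p) :
    qs p s ≤ qs p (kk p) := by
  obtain ⟨j, hj⟩ := Nat.exists_eq_add_of_le hs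
  have : ∀ j, s + j ≤ kk p → qs p s ≤ qs p (s + j) := by
    intro j
    induction j with
    | zero => intro _; simp
    | succ j ih =>
      intro h
      exact (ih (by omega)).trans (qs_step h0 h1 (by omega))
  rw [hj]
  exact this j (by omega)

lemma qs_ub (h0 : 0 < p) (h1 : p ≤ 7 / 8) {s : ℕ} (hs : (s : ℝ) * p ≤ 11) :
    1 / 96 ≤ 1 - qs p s := by
  rcases Nat.eq_zero_or_pos s with rfl | hpos
  · unfold qs; norm_num
  · obtain ⟨t, rfl⟩ : ∃ t, s = t + 1 := ⟨s - 1, by omega⟩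
    have e1 : t + 1 - 1 = t := by omega
    have h2 : (1 - p) ^ t * (1 + t * p) ≤ 1 := by
      have h3 : 1 + (t : ℝ) * p ≤ (1 + p) ^ t := one_add_mul_le_pow (by linarith) t
      calc (1 - p) ^ t * (1 + t * p) ≤ (1 - p) ^ t * (1 + p) ^ t :=
            mul_le_mul_of_nonneg_left h3 (pow_nonneg (by linarith) _)
        _ = ((1 - p) * (1 + p)) ^ t := by rw [mul_pow]
        _ ≤ 1 := pow_le_one₀ (by nlinarith) (by nlinarith)
    have h4 : qs p (t + 1) * (1 + t * p) ≤ (t + 1) * p := by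
      unfold qs
      rw [e1]
      push_cast
      calc ((t : ℝ) + 1) * p * (1 - p) ^ t * (1 + t * p) =
          (((t : ℝ) + 1) * p) * ((1 - p) ^ t * (1 + t * p)) := by ring
        _ ≤ (((t : ℝ) + 1) * p) * 1 := mul_le_mul_of_nonneg_left h2 (by positivity)
        _ = _ := mul_one _
    push_cast at hs
    have h5 : 1 + (t : ℝ) * p ≤ 12 := by linarith
    have h6 := qs_le_one h0.le (by linarith : p ≤ 1) (t + 1)
    have h7 : 0 < 1 + (t : ℝ) * p := by positivity
    have h8 : 1 / 8 ≤ (1 - qs p (t + 1)) * (1 + t * p) := by nlinarith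
    nlinarith

lemma qt_SS (h0 : 0 < p) (h1 : p ≤ 7 / 8) : qt p (SS p) (SS p) ≤ 1 / 100 := by
  unfold qt
  rw [if_neg (lt_irrefl _)]
  have hS := SS_lb h0
  have hS' := SS_ub h0 (by linarith)
  have hpos : 1 ≤ SS p := by
    have := kk_lt_SS h0
    omega
  have h2 : (1 - p) ^ (SS p) ≤ Real.exp (-10) := by
    calc (1 - p) ^ (SS p) ≤ (Real.exp (-p)) ^ (SS p) := by
          refine pow_le_pow_left₀ (by linarith) ?_ _
          have := Real.add_one_le_exp (-p)
          linarith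
      _ = Real.exp ((SS p : ℝ) * (-p)) := by rw [← Real.exp_nat_mul]
      _ ≤ _ := by
          apply Real.exp_le_exp.2
          linarith
  have h3 : (1 - p) ^ (SS p - 1) ≤ 8 * (1 - p) ^ (SS p) := by
    obtain ⟨t, ht⟩ : ∃ t, SS p = t + 1 := ⟨SS p - 1, by omega⟩
    have e1 : t + 1 - 1 = t := by omega
    rw [ht, e1, pow_succ]
    have : 0 ≤ (1 - p) ^ t := pow_nonneg (by linarith) _
    nlinarith
  have h4 : Real.exp (-10) ≤ 1 / 8900 := by
    rw [Real.exp_neg, inv_eq_one_div]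
    apply one_div_le_one_div_of_le (by norm_num)
    have h5 := Real.exp_one_gt_d9
    have h6 : Real.exp 10 = (Real.exp 1) ^ 10 := by
      rw [← Real.exp_nat_mul]; norm_num
    rw [h6]
    calc (8900 : ℝ) ≤ 2.7 ^ 10 := by norm_num
      _ ≤ _ := pow_le_pow_left₀ (by norm_num) (by linarith) _
  unfold qs
  have h5 : (SS p : ℝ) * p * (1 - p) ^ (SS p - 1) ≤ 11 * (8 * Real.exp (-10)) :=
    mul_le_mul hS' (h3.trans (by linarith)) (pow_nonneg (by linarith) _) (by norm_num)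
  linarith

end Pool.Agent.CFC
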