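import Mathlib

/-! Counting sets with a large intersection with a given set. -/

namespace Pool.Agent.CFC

open Finset

variable {α : Type*} [DecidableEq α]

lemma card_sup (V I : Finset α) (hI : I ⊆ V) (s : ℕ) (hs : I.card ≤ s) :
    ((powersetCard s V).filter (fun C => I ⊆ C)).card = (V.card - I.card).choose (s - I.card) := by
  rw [← card_sdiff_of_subset hI, ← card_powersetCard]
  refine card_nbij' (fun C => C \ I) (fun B => B ∪ I) ?_ ?_ ?_ ?_
  · intro C hC
    rw [mem_coe, mem_filter, mem_powersetCard] at hC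
    obtain ⟨⟨h1, h2⟩, h3⟩ := hC
    rw [mem_coe, mem_powersetCard]
    exact ⟨sdiff_subset_sdiff h1 subset_rfl, by rw [card_sdiff_of_subset h3, h2]⟩
  · intro B hB
    rw [mem_coe, mem_powersetCard] at hB
    obtain ⟨h1, h2⟩ := hB
    rw [mem_coe, mem_filter, mem_powersetCard]
    have hd : Disjoint B I := disjoint_of_subset_left h1 sdiff_disjoint
    refine ⟨⟨union_subset (h1.trans sdiff_subset) hI, ?_⟩, subset_union_right⟩
    rw [card_union_of_disjoint hd, h2]
    omega
  · intro C hC
    rw [mem_coe, mem_filter, mem_powersetCard] at hC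
    exact sdiff_union_of_subset hC.2
  · intro B hB
    rw [mem_coe, mem_powersetCard] at hB
    have hd : Disjoint B I := disjoint_of_subset_left hB.1 sdiff_disjoint
    show (B ∪ I) \ I = B
    rw [union_sdiff_right, sdiff_eq_self_of_disjoint hd]

lemma choose_ratio (N s j : ℕ) (hN : 0 < N) (hsN : s ≤ N) (hj : j ≤ s) :
    ((N - j).choose (s - j) : ℝ) ≤ (N.choose s : ℝ) * ((s : ℝ) / N) ^ j := by
  induction j with
  | zero => simp
  | succ j ih =>
    have ih' := ih (by omega)
    have hNj : 0 < N - j := by omega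
    have key : ((N - j : ℕ) : ℝ) * ((N - (j + 1)).choose (s - (j + 1)) : ℝ) =
        ((N - j).choose (s - j) : ℝ) * ((s - j : ℕ) : ℝ) := by
      have h := Nat.add_one_mul_choose_eq (N - (j + 1)) (s - (j + 1))
      have e1 : N - (j + 1) + 1 = N - j := by omega
      have e2 : s - (j + 1) + 1 = s - j := by omega
      rw [e1, e2] at h
      exact_mod_cast h
    have hNr : (0 : ℝ) < ((N - j : ℕ) : ℝ) := by exact_mod_cast hNj
    have h1 : ((N - (j + 1)).choose (s - (j + 1)) : ℝ) =
        ((N - j).choose (s - j) : ℝ) * (((s - j : ℕ) : ℝ) / ((N - j : ℕ) : ℝ)) := by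
      field_simp
      linarith [key]
    have h2 : ((s - j : ℕ) : ℝ) / ((N - j : ℕ) : ℝ) ≤ (s : ℝ) / N := by
      have hN' : (0 : ℝ) < N := by exact_mod_cast hN
      rw [div_le_div_iff₀ hNr hN', Nat.cast_sub (by omega), Nat.cast_sub (by omega)]
      have a1 : (s : ℝ) ≤ N := by exact_mod_cast hsN
      have a2 : (0 : ℝ) ≤ j := Nat.cast_nonneg j
      nlinarith
    rw [h1, pow_succ, ← mul_assoc]
    exact mul_le_mul ih' h2 (by positivity) (by positivity)

/-- exponential moment of the size of the intersection -/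
lemma sum_pow_inter (V C : Finset α) (hC : C ⊆ V) (s : ℕ) (hs : s ≤ V.card)
    (hV : 0 < V.card) (hCs : C.card = s) {y : ℝ} (hy : 1 ≤ y) :
    ∑ C' ∈ powersetCard s V, y ^ (C ∩ C').card ≤
      ((powersetCard s V).card : ℝ) * Real.exp (y * (s : ℝ) ^ 2 / V.card) := by
  classical
  have h1 : ∀ C' ∈ powersetCard s V, y ^ (C ∩ C').card =
      ∑ I ∈ C.powerset, if I ⊆ C' then (y - 1) ^ I.card else 0 := by
    intro C' _
    have h := sum_pow_mul_eq_add_pow (y - 1) 1 (C ∩ C')
    simp only [one_pow, mul_one, sub_add_cancel] at h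
    rw [← h, ← sum_filter]
    refine sum_congr ?_ fun _ _ => rfl
    ext I
    rw [mem_filter, mem_powerset, mem_powerset, subset_inter_iff]
  rw [sum_congr rfl h1, sum_comm]
  have h2 : ∀ I ∈ C.powerset, ∑ C' ∈ powersetCard s V, (if I ⊆ C' then (y - 1) ^ I.card else 0) ≤
      ((powersetCard s V).card : ℝ) * ((y - 1) * ((s : ℝ) / V.card)) ^ I.card := by
    intro I hI
    rw [mem_powerset] at hI
    rw [← sum_filter, sum_const, nsmul_eq_mul, card_sup V I (hI.trans hC) s
      (by rw [← hCs]; exact card_le_card hI), card_powersetCard]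
    have h3 := choose_ratio V.card s I.card hV hs (by rw [← hCs]; exact card_le_card hI)
    calc ((V.card - I.card).choose (s - I.card) : ℝ) * (y - 1) ^ I.card ≤
        ((V.card.choose s : ℝ) * ((s : ℝ) / V.card) ^ I.card) * (y - 1) ^ I.card :=
          mul_le_mul_of_nonneg_right h3 (pow_nonneg (by linarith) _)
      _ = _ := by rw [mul_pow]; ring
  refine (sum_le_sum h2).trans ?_
  rw [← mul_sum]
  refine mul_le_mul_of_nonneg_left ?_ (Nat.cast_nonneg _)
  have h := sum_pow_mul_eq_add_pow ((y - 1) * ((s : ℝ) / V.card)) 1 C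
  simp only [one_pow, mul_one] at h
  rw [h, hCs]
  have hV' : (0 : ℝ) < V.card := by exact_mod_cast hV
  have hs0 : (0 : ℝ) ≤ s := Nat.cast_nonneg s
  calc ((y - 1) * ((s : ℝ) / V.card) + 1) ^ s ≤
      (Real.exp (y * ((s : ℝ) / V.card))) ^ s := by
        refine pow_le_pow_left₀ ?_ ?_ s
        · have : 0 ≤ (y - 1) * ((s : ℝ) / V.card) :=
            mul_nonneg (by linarith) (by positivity)
          linarith
        · have h4 := Real.add_one_le_exp (y * ((s : ℝ) / V.card))
          have h5 : (y - 1) * ((s : ℝ) / V.card) ≤ y * ((s : ℝ) / V.card) :=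
            mul_le_mul_of_nonneg_right (by linarith) (by positivity)
          linarith
    _ = Real.exp (y * (s : ℝ) ^ 2 / V.card) := by
        rw [← Real.exp_nat_mul]
        congr 1
        ring

end Pool.Agent.CFC
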