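import Mathlib

/-! Conflict-free colourings and the random graph `G(n,p)`: definitions. -/

namespace Pool.Agent.CFC

/-- The colouring `c` of the vertices (not necessarily proper) is conflict-free: every closed
neighbourhood `N[x]` (the vertex `x` and its neighbours) contains a vertex `y` whose colour appears
exactly once in `N[x]`. -/
def IsCF {V : Type*} (G : SimpleGraph V) {r : ℕ} (c : V → Fin r) : Prop :=
  ∀ x, ∃ y, (y = x ∨ G.Adj x y) ∧ ∀ z, (z = x ∨ G.Adj x z) → c z = c y → z = y

/-- The conflict-free chromatic number: the least `r` such that there is a conflict-free colouring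
with `r` colours. -/
noncomputable def chiCF {V : Type*} (G : SimpleGraph V) : ℕ :=
  sInf {r : ℕ | ∃ c : V → Fin r, IsCF G c}

open Classical in
/-- The probability that the random graph `G(n,p)` on `n` labelled vertices has the property `Q`:
the sum of `p ^ e(G) * (1 - p) ^ (binom(n,2) - e(G))` over all graphs `G` on `Fin n` with the
property `Q`. -/
noncomputable def gnp (n : ℕ) (p : ℝ) (Q : SimpleGraph (Fin n) → Prop) : ℝ :=
  ∑ G : SimpleGraph (Fin n), if Q G then
    p ^ G.edgeFinset.card * (1 - p) ^ (n.choose 2 - G.edgeFinset.card) else 0

end Pool.Agent.CFC
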