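import Pool.Agent.CFC.Asym

/-! The dense regime `7/8 ≤ p ≤ 1`, and the theorem. -/

namespace Pool.Agent.CFC

open Finset Filter Topology Pool.Agent.MD437

/-- Regime `7/8 ≤ p ≤ 1`, for one `n`. -/
lemma regime_B_one {n : ℕ} {p θ z η : ℝ} (hθ : 0 < θ) (hθ1 : θ ≤ 1)
    (hz : 0 ≤ z) (hzη : Real.exp (-z) ≤ η / 2)
    (hθη : Real.exp θ * (Real.exp (2 * θ) + θ) - 1 ≤ η / 2) (hn : 0 < n)
    (h7 : 7 / 8 ≤ p) (h1 : p ≤ 1)
    (hK : 400 * Real.log n ^ 4 ≤ θ * Real.exp (1 / 2 * Real.log n))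
    (hL1 : 30000 ≤ Real.log n) (hL2 : 3 + z ≤ Real.log n) :
    ∃ a : ℕ, 1 - η ≤ gnp n p (fun G => chiCF G = a ∨ chiCF G = a + 1) := by
  classical
  have hn' : (0 : ℝ) < n := by exact_mod_cast hn
  set L := Real.log n with hL
  have hp0 : 0 ≤ p := by linarith
  have hq0 : 0 ≤ 1 - p := by linarith
  have hq8 : 1 - p ≤ 1 / 8 := by linarith
  have hnL : (n : ℝ) = Real.exp L := (Real.exp_log hn').symm
  set E' := Real.exp (1 / 2 * L) with hE'
  have hnE : (n : ℝ) = E' ^ 2 := by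
    rw [hnL, hE', ← Real.exp_nat_mul]
    congr 1
    push_cast
    ring
  have hE1 : 1 ≤ E' := Real.one_le_exp (by linarith)
  have hL0 : 1 ≤ L := by linarith
  have hE2 : E' ≤ n := by
    rw [hnE, sq]
    have := mul_le_mul_of_nonneg_left hE1 (by linarith : (0 : ℝ) ≤ E')
    linarith
  have hη : 0 ≤ η / 2 := (Real.exp_pos _).le.trans hzη
  have hLpow : ∀ j, j ≤ 4 → L ^ j ≤ L ^ 4 := fun j hj => pow_le_pow_right₀ hL0 hj
  have hLL4 : L ≤ L ^ 4 := by simpa using hLpow 1 (by norm_num)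
  have hLL2 : L ^ 2 ≤ L ^ 4 := hLpow 2 (by norm_num)
  have hKE : 400 * L ^ 4 ≤ E' := by
    refine hK.trans ?_
    have := mul_le_mul_of_nonneg_right hθ1 (by linarith : (0 : ℝ) ≤ E')
    linarith
  have hub : (1 : ℕ) ≤ ⌈L⌉₊ + 1 ∧
      (n : ℝ) * (1 - p) ^ (⌈L⌉₊ + 1) ≤ 1 / 2 * ((⌈L⌉₊ + 1 : ℕ) : ℝ) * L := by
    refine ⟨by omega, ?_⟩
    have h2 : (1 - p) ^ (⌈L⌉₊ + 1) ≤ Real.exp (-L) := by
      have h3 : 1 - p ≤ Real.exp (-1) := by
        refine hq8.trans ?_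
        rw [Real.exp_neg, inv_eq_one_div]
        apply one_div_le_one_div_of_le (Real.exp_pos _)
        have := Real.exp_one_lt_d9
        linarith
      calc (1 - p) ^ (⌈L⌉₊ + 1) ≤ (Real.exp (-1)) ^ (⌈L⌉₊ + 1) := pow_le_pow_left₀ hq0 h3 _
        _ = Real.exp (((⌈L⌉₊ + 1 : ℕ) : ℝ) * (-1)) := by rw [← Real.exp_nat_mul]
        _ ≤ _ := by
            apply Real.exp_le_exp.2
            have := Nat.le_ceil L
            push_cast
            linarith
    have h4 : (n : ℝ) * (1 - p) ^ (⌈L⌉₊ + 1) ≤ 1 := by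
      calc (n : ℝ) * (1 - p) ^ (⌈L⌉₊ + 1) ≤ n * Real.exp (-L) :=
            mul_le_mul_of_nonneg_left h2 hn'.le
        _ = 1 := by rw [hnL, ← Real.exp_add]; simp
    refine h4.trans ?_
    have h5 : (1 : ℝ) ≤ ((⌈L⌉₊ + 1 : ℕ) : ℝ) := by
      push_cast
      have := Nat.le_ceil L
      linarith
    have h6 : (1 : ℝ) * 1 ≤ (1 / 2 * L) * ((⌈L⌉₊ + 1 : ℕ) : ℝ) :=
      mul_le_mul (by linarith) h5 zero_le_one (by linarith)
    linarith
  have hex : ∃ m : ℕ, 1 ≤ m ∧ (n : ℝ) * (1 - p) ^ m ≤ 1 / 2 * (m : ℝ) * L := ⟨_, hub⟩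
  set M := Nat.find hex with hM
  obtain ⟨hM1, hMU⟩ : 1 ≤ M ∧ (n : ℝ) * (1 - p) ^ M ≤ 1 / 2 * (M : ℝ) * L := Nat.find_spec hex
  have hMle : (M : ℝ) ≤ 2 * L := by
    have h2 : M ≤ ⌈L⌉₊ + 1 := Nat.find_min' hex hub
    have h3 : (⌈L⌉₊ : ℝ) < L + 1 := Nat.ceil_lt_add_one (by linarith)
    have h4 : (M : ℝ) ≤ ⌈L⌉₊ + 1 := by exact_mod_cast h2
    linarith
  have hM0 : (0 : ℝ) ≤ M := Nat.cast_nonneg _
  have hM2 : (M : ℝ) ^ 2 ≤ 4 * L ^ 2 := by
    calc (M : ℝ) ^ 2 ≤ (2 * L) ^ 2 := pow_le_pow_left₀ hM0 hMle 2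
      _ = _ := by ring
  obtain ⟨k, hk⟩ : ∃ k, M = k + 1 := ⟨M - 1, by omega⟩
  have hθn : θ * E' ≤ θ * n := mul_le_mul_of_nonneg_left hE2 hθ.le
  have hup : pr p (E n) (fun S => ¬ ∃ c : Fin n → Fin (k + 2), IsCF (gr S) c) ≤ η / 2 := by
    have := upper_B (n := n) (m := M) (p := p) (θ := θ) h7 h1 hM1 hMU hθ1 hL0
      (by
        have h2 : ((2 * M ^ 2 : ℕ) : ℝ) ≤ n := by
          push_cast
          linarith
        exact_mod_cast h2)
      (by
        have h2 : (M : ℝ) ^ 2 * L ^ 2 ≤ (4 * L ^ 2) * L ^ 2 :=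
          mul_le_mul_of_nonneg_right hM2 (sq_nonneg _)
        have h3 : (4 * L ^ 2) * L ^ 2 = 4 * L ^ 4 := by ring
        have h4 : 0 ≤ L ^ 4 := by positivity
        linarith)
      (by
        have e : L / 2 = 1 / 2 * L := by ring
        rw [e, ← hE', hnE]
        have h2 : (M : ℝ) ^ 2 * E' ≤ (4 * L ^ 2) * E' :=
          mul_le_mul_of_nonneg_right hM2 (by linarith)
        have h3 : 400 * L ^ 2 * E' ≤ (θ * E') * E' := by
          refine mul_le_mul_of_nonneg_right ?_ (by linarith)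
          linarith
        have h4 : 0 ≤ L ^ 2 * E' := by positivity
        linarith)
    rw [hk] at this
    exact this.trans hθη
  refine ⟨k + 1, ?_⟩
  refine combine (b := k) hp0 h1 hup ?_
  rcases Nat.eq_zero_or_pos k with hk0 | hkpos
  · subst hk0
    have h2 : pr p (E n) (fun S => ∃ c : Fin n → Fin 0, IsCF (gr S) c) ≤
        pr p (E n) (fun _ => False) := by
      refine pr_mono hp0 h1 fun S _ h => ?_
      obtain ⟨c, _⟩ := h
      exact (c ⟨0, hn⟩).elim0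
    refine h2.trans ?_
    have h3 : pr p (E n) (fun _ => False) = 0 := by
      unfold pr ex
      simp
    rw [h3]
    exact hη
  · obtain ⟨j, rfl⟩ : ∃ j, k = j + 1 := ⟨k - 1, by omega⟩
    have hnot := Nat.find_min hex (m := j + 1) (by rw [← hM]; omega)
    have hnot2 : 1 / 2 * ((j + 1 : ℕ) : ℝ) * L < (n : ℝ) * (1 - p) ^ (j + 1) := by
      by_contra hcon
      push Not at hcon
      exact hnot ⟨by omega, hcon⟩
    push_cast at hnot2
    have hjM : ((j : ℝ) + 1) + 1 = M := by rw [hk]; push_cast; ring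
    refine (lower_B (n := n) (m := j) h7 h1 hz hL2 ?_ ?_).trans hzη
    · linarith
    · have hn0 : 0 ≤ (n : ℝ) * (1 - p) ^ j := by positivity
      have h2 : (n : ℝ) * (1 - p) ^ (j + 1) ≤ 1 / 8 * ((n : ℝ) * (1 - p) ^ j) := by
        rw [pow_succ]
        have := mul_le_mul_of_nonneg_left hq8 hn0
        linarith
      have hj0 : (0 : ℝ) ≤ j := Nat.cast_nonneg _
      have hjL : 0 ≤ (j : ℝ) * L := mul_nonneg hj0 (by linarith)
      linarith

/-- The uniform statement. -/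
lemma uniform {ε η : ℝ} (hε : 0 < ε) (hε' : ε ≤ 1 / 4) (hη : 0 < η) :
    ∀ᶠ n : ℕ in atTop, ∀ p : ℝ, Real.exp ((-(1 / 2) + ε) * Real.log n) ≤ p → p ≤ 1 →
      ∃ a : ℕ, 1 - η ≤ gnp n p (fun G => chiCF G = a ∨ chiCF G = a + 1) := by
  -- choice of `θ`
  obtain ⟨θ, hθ, hθ1, hθη⟩ : ∃ θ : ℝ, 0 < θ ∧ θ ≤ 1 ∧
      Real.exp θ * (Real.exp (2 * θ) + θ) - 1 ≤ η / 2 := by
    have hc : Continuous (fun θ : ℝ => Real.exp θ * (Real.exp (2 * θ) + θ) - 1) := by fun_prop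
    have h0 : Tendsto (fun θ : ℝ => Real.exp θ * (Real.exp (2 * θ) + θ) - 1) (𝓝 0) (𝓝 0) := by
      have := hc.tendsto 0
      simpa using this
    have h1 : ∀ᶠ θ : ℝ in 𝓝 0, Real.exp θ * (Real.exp (2 * θ) + θ) - 1 < η / 2 :=
      h0.eventually_lt_const (by linarith)
    have h2 : ∀ᶠ θ : ℝ in 𝓝[>] 0, Real.exp θ * (Real.exp (2 * θ) + θ) - 1 < η / 2 :=
      nhdsWithin_le_nhds h1
    have h3 : ∀ᶠ θ : ℝ in 𝓝[>] 0, θ < 1 :=
      nhdsWithin_le_nhds (eventually_lt_nhds one_pos)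
    have h4 : ∀ᶠ θ : ℝ in 𝓝[>] 0, 0 < θ := self_mem_nhdsWithin
    obtain ⟨θ, ha, hb, hc⟩ := (h2.and (h3.and h4)).exists
    exact ⟨θ, hc, hb.le, ha.le⟩
  -- choice of `z`
  obtain ⟨z, hz, hzη⟩ : ∃ z : ℝ, 0 ≤ z ∧ Real.exp (-z) ≤ η / 2 := by
    refine ⟨max 0 (-Real.log (η / 2)), le_max_left _ _, ?_⟩
    rw [← Real.le_log_iff_exp_le (by linarith)]
    have := le_max_right 0 (-Real.log (η / 2))
    linarith
  have hlog : Tendsto (fun n : ℕ => Real.log (n : ℝ)) atTop atTop :=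
    Real.tendsto_log_atTop.comp tendsto_natCast_atTop_atTop
  have hpow : ∀ (C b : ℝ), 0 < C → 0 < b → ∀ᶠ L : ℝ in atTop, C * L ^ 4 ≤ Real.exp (b * L) := by
    intro C b hC hb
    have h := (isLittleO_pow_exp_pos_mul_atTop (k := 4) hb).bound (show 0 < 1 / C by positivity)
    filter_upwards [h, eventually_ge_atTop 0] with L h1 h2
    rw [Real.norm_of_nonneg (by positivity), Real.norm_of_nonneg (Real.exp_pos _).le] at h1
    have := mul_le_mul_of_nonneg_left h1 hC.le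
    calc C * L ^ 4 ≤ C * (1 / C * Real.exp (b * L)) := this
      _ = _ := by field_simp
  have hexp : ∀ (b c : ℝ), 0 < b → 0 < c → ∀ᶠ L : ℝ in atTop, Real.exp (-(b * L)) ≤ c := by
    intro b c hb hc
    filter_upwards [eventually_ge_atTop (-Real.log c / b)] with L h1
    rw [← Real.le_log_iff_exp_le hc]
    rw [div_le_iff₀ hb] at h1
    linarith
  have hall : ∀ᶠ L : ℝ in atTop,
      (100000 + (24000 + 12000 * Real.exp 44) / θ) * L ^ 4 ≤ Real.exp (ε * L) ∧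
      400 / θ * L ^ 4 ≤ Real.exp (1 / 2 * L) ∧
      30000 ≤ L ∧ 100 * (48 + z) ≤ L ∧
      46 + Real.log 39424 + 1500000 / ε ≤ 3 / 256 * L ∧
      Real.exp (-(Real.exp (-176) / 960 * L)) ≤ ε / 6000000 ∧
      Real.exp (-(ε / 12000000 * L)) ≤ θ * Real.exp (-1) := by
    have hexp44 : 0 < Real.exp 44 := Real.exp_pos _
    have hexp176 : 0 < Real.exp (-176) := Real.exp_pos _
    have hexp1 : 0 < Real.exp (-1) := Real.exp_pos _
    filter_upwards [hpow (100000 + (24000 + 12000 * Real.exp 44) / θ) ε (by positivity) hε,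
      hpow (400 / θ) (1 / 2) (by positivity) (by norm_num),
      eventually_ge_atTop (30000 : ℝ), eventually_ge_atTop (100 * (48 + z)),
      eventually_ge_atTop (256 / 3 * (46 + Real.log 39424 + 1500000 / ε)),
      hexp (Real.exp (-176) / 960) (ε / 6000000) (by positivity) (by positivity),
      hexp (ε / 12000000) (θ * Real.exp (-1)) (by positivity) (by positivity)]
      with L a1 a2 a3 a4 a5 a6 a7
    exact ⟨a1, a2, a3, a4, by linarith, a6, a7⟩
  filter_upwards [hlog.eventually hall, eventually_gt_atTop 0] with n h hn p hp1 hp2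
  obtain ⟨a1, a2, a3, a4, a5, a6, a7⟩ := h
  rcases le_total p (7 / 8) with h7 | h7
  · refine regime_A_one hε hε' hθ hz hzη hθη hn hp1 h7 a1 a3 a4 a5 ?_ ?_
    · refine le_trans (le_of_eq ?_) a6
      congr 2
      ring
    · calc Real.exp (1 - ε / 12000000 * Real.log n) =
          Real.exp (-(ε / 12000000 * Real.log n)) * Real.exp 1 := by
            rw [← Real.exp_add]
            congr 1
            ring
        _ ≤ θ * Real.exp (-1) * Real.exp 1 :=
            mul_le_mul_of_nonneg_right a7 (Real.exp_pos _).le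
        _ = θ := by
            rw [mul_assoc, ← Real.exp_add]
            simp
  · refine regime_B_one hθ hθ1 hz hzη hθη hn h7 hp2 ?_ a3 (by linarith)
    have h3 := mul_le_mul_of_nonneg_left a2 hθ.le
    have h4 : θ * (400 / θ * Real.log n ^ 4) = 400 * Real.log n ^ 4 := by field_simp
    linarith

lemma gnp_nonneg {n : ℕ} {p : ℝ} (hp0 : 0 ≤ p) (hp1 : p ≤ 1) (Q : SimpleGraph (Fin n) → Prop) :
    0 ≤ gnp n p Q := by
  classical
  unfold gnp
  refine sum_nonneg fun G _ => ?_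
  split_ifs
  · have : 0 ≤ 1 - p := by linarith
    positivity
  · exact le_rfl

lemma gnp_le_one {n : ℕ} {p : ℝ} (hp0 : 0 ≤ p) (hp1 : p ≤ 1) (Q : SimpleGraph (Fin n) → Prop) :
    gnp n p Q ≤ 1 := by
  rw [gnp_eq]
  exact pr_le_one hp0 hp1 _ _

lemma chiCF_le {n : ℕ} (G : SimpleGraph (Fin n)) : chiCF G ≤ n :=
  (chiCF_le_iff G n).2 ⟨_, isCF_id G⟩

theorem main (ε : ℝ) (hε : 0 < ε) (p : ℕ → ℝ)
    (hp : ∀ᶠ n : ℕ in atTop, (n : ℝ) ^ (-(1 / 2 : ℝ) + ε) ≤ p n ∧ p n ≤ 1) :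
    ∃ a : ℕ → ℕ, Tendsto (fun n : ℕ => gnp n (p n) (fun G => chiCF G = a n ∨ chiCF G = a n + 1))
      atTop (𝓝 1) := by
  -- the best pair of values
  have hbest : ∀ n : ℕ, ∃ a : ℕ, ∀ b ∈ Finset.range (n + 1),
      gnp n (p n) (fun G => chiCF G = b ∨ chiCF G = b + 1) ≤
        gnp n (p n) (fun G => chiCF G = a ∨ chiCF G = a + 1) := by
    intro n
    obtain ⟨a, _, ha⟩ := Finset.exists_max_image (Finset.range (n + 1))
      (fun b => gnp n (p n) (fun G => chiCF G = b ∨ chiCF G = b + 1)) ⟨0, by simp⟩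
    exact ⟨a, ha⟩
  choose a ha using hbest
  refine ⟨a, ?_⟩
  rw [Metric.tendsto_atTop']
  have key : ∀ η : ℝ, 0 < η → ∀ᶠ n : ℕ in atTop,
      1 - η ≤ gnp n (p n) (fun G => chiCF G = a n ∨ chiCF G = a n + 1) ∧
      gnp n (p n) (fun G => chiCF G = a n ∨ chiCF G = a n + 1) ≤ 1 := by
    intro η hη
    have hε1 : 0 < min ε (1 / 4) := lt_min hε (by norm_num)
    filter_upwards [uniform hε1 (min_le_right _ _) (show 0 < min η (1 / 2) from
      lt_min hη (by norm_num)), hp, eventually_gt_atTop 0] with n h1 h2 hn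
    have hn' : (1 : ℝ) ≤ n := by exact_mod_cast hn
    have hlog : 0 ≤ Real.log n := Real.log_nonneg hn'
    have hle : Real.exp ((-(1 / 2) + min ε (1 / 4)) * Real.log n) ≤ p n := by
      refine le_trans ?_ h2.1
      rw [Real.rpow_def_of_pos (by linarith)]
      apply Real.exp_le_exp.2
      have := mul_le_mul_of_nonneg_right (min_le_left ε (1 / 4)) hlog
      linarith
    have hp0 : 0 ≤ p n := (Real.exp_pos _).le.trans hle
    obtain ⟨b, hb⟩ := h1 (p n) hle h2.2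
    refine ⟨?_, gnp_le_one hp0 h2.2 _⟩
    have hmin := min_le_left η (1 / 2)
    have hmin2 := min_le_right η (1 / 2)
    rcases Nat.lt_or_ge b (n + 1) with hbn | hbn
    · have := ha n b (by simpa using hbn)
      linarith
    · -- impossible
      exfalso
      have h3 : gnp n (p n) (fun G => chiCF G = b ∨ chiCF G = b + 1) = 0 := by
        unfold gnp
        refine sum_eq_zero fun G _ => ?_
        rw [if_neg]
        have := chiCF_le G
        omega
      rw [h3] at hb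
      linarith
  intro δ hδ
  obtain ⟨N, hN⟩ := (key (δ / 2) (by linarith)).exists_forall_of_atTop
  refine ⟨N, fun n hn => ?_⟩
  obtain ⟨h1, h2⟩ := hN n hn.le
  rw [Real.dist_eq, abs_lt]
  constructor <;> linarith

end Pool.Agent.CFC
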