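import Pool.Agent.MD437.Base

/-! Product formulas for the expectation over a random subset. -/

namespace Pool.Agent.CFC

open Finset Pool.Agent.MD437

variable {ι : Type*} [DecidableEq ι] {κ : Type*} [DecidableEq κ]

/-- Factorisation over disjoint blocks. -/
lemma ex_prod (p : ℝ) (s : Finset κ) (B : κ → Finset ι)
    (hB : ∀ i ∈ s, ∀ j ∈ s, i ≠ j → Disjoint (B i) (B j)) (A : Finset ι)
    (hA : ∀ i ∈ s, B i ⊆ A) (g : κ → Finset ι → ℝ) :
    ex p A (fun S => ∏ k ∈ s, g k (S ∩ B k)) = ∏ k ∈ s, ex p (B k) (g k) := by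
  induction s using Finset.induction_on generalizing A with
  | empty => simp [ex_const]
  | insert a s ha ih =>
    have hBa : B a ⊆ A := hA a (mem_insert_self a s)
    have hd : Disjoint (B a) (A \ B a) := disjoint_sdiff
    have hAu : A = B a ∪ (A \ B a) := by
      rw [union_sdiff_of_subset hBa]
    have hsub : ∀ i ∈ s, B i ⊆ A \ B a := by
      intro i hi
      rw [subset_sdiff]
      refine ⟨hA i (mem_insert_of_mem hi), ?_⟩
      refine hB i (mem_insert_of_mem hi) a (mem_insert_self a s) ?_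
      rintro rfl
      exact ha hi
    have ih' := ih (fun i hi j hj => hB i (mem_insert_of_mem hi) j (mem_insert_of_mem hj))
      (A \ B a) hsub
    rw [prod_insert ha, ← ih']
    rw [hAu, ex_union p hd, ← hAu]
    have h1 : ∀ S ⊆ B a, ex p (A \ B a) (fun T => ∏ k ∈ insert a s, g k ((S ∪ T) ∩ B k)) =
        g a S * ex p (A \ B a) (fun T => ∏ k ∈ s, g k (T ∩ B k)) := by
      intro S hS
      rw [← ex_mul_left]
      refine ex_congr p fun T hT => ?_
      rw [prod_insert ha]
      congr 1
      · congr 1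
        rw [union_inter_distrib_right, inter_eq_left.2 hS]
        have : T ∩ B a = ∅ := by
          rw [← disjoint_iff_inter_eq_empty]
          exact (disjoint_of_subset_right hT hd).symm
        rw [this, union_empty]
      · refine prod_congr rfl fun k hk => ?_
        congr 1
        rw [union_inter_distrib_right]
        have : S ∩ B k = ∅ := by
          rw [← disjoint_iff_inter_eq_empty]
          exact disjoint_of_subset_left hS (disjoint_of_subset_right (hsub k hk) hd)
        rw [this, empty_union]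
    rw [ex_congr p h1]
    have h2 : (fun S => g a S * ex p (A \ B a) (fun T => ∏ k ∈ s, g k (T ∩ B k))) =
        fun S => ex p (A \ B a) (fun T => ∏ k ∈ s, g k (T ∩ B k)) * g a S := by
      funext S; ring
    rw [h2, ex_mul_left]
    ring

/-- Transport along an injection. -/
lemma ex_image (p : ℝ) (W : Finset κ) (j : κ → ι) (hj : Set.InjOn j (W : Set κ))
    (f : Finset ι → ℝ) :
    ex p (W.image j) f = ex p W (fun T => f (T.image j)) := by
  induction W using Finset.induction_on generalizing f with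
  | empty => simp [ex_empty]
  | insert a W ha ih =>
    have hja : j a ∉ W.image j := by
      intro h
      obtain ⟨b, hb, hba⟩ := mem_image.1 h
      have := hj (mem_coe.2 (mem_insert_of_mem hb)) (mem_coe.2 (mem_insert_self a W)) hba
      subst this
      exact ha hb
    have hj' : Set.InjOn j (W : Set κ) := hj.mono (by
      intro x hx
      exact mem_coe.2 (mem_insert_of_mem (mem_coe.1 hx)))
    rw [image_insert, ex_insert p hja, ex_insert p ha, ih hj', ih hj']
    simp only [image_insert]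

lemma ex_indicator_le {p : ℝ} (hp0 : 0 ≤ p) (hp1 : p ≤ 1) (A : Finset ι) (h : Finset ι → ℝ)
    (h1 : ∀ S ⊆ A, h S ≤ 1) :
    ex p A h ≤ (1 - p) ^ A.card * h ∅ + (1 - (1 - p) ^ A.card) := by
  classical
  have e := ex_miss p (subset_refl A)
  have h2 : ex p A h ≤ ex p A (fun S => 1 - (1 - h ∅) *
      (if Disjoint S A then (1 : ℝ) else 0)) := by
    refine ex_mono hp0 hp1 fun S hS => ?_
    by_cases hd : Disjoint S A
    · have : S = ∅ := by
        rw [disjoint_iff_inter_eq_empty, inter_eq_left.2 hS] at hd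
        exact hd
      rw [if_pos hd, this]
      linarith
    · rw [if_neg hd]
      linarith [h1 S hS]
  rw [ex_sub, ex_const, ex_mul_left, e] at h2
  linarith

lemma le_ex_indicator {p : ℝ} (hp0 : 0 ≤ p) (hp1 : p ≤ 1) (A : Finset ι) (h : Finset ι → ℝ)
    (h1 : ∀ S ⊆ A, 0 ≤ h S) :
    (1 - p) ^ A.card * h ∅ ≤ ex p A h := by
  classical
  have e := ex_miss p (subset_refl A)
  have h2 : ex p A (fun S => h ∅ * (if Disjoint S A then (1 : ℝ) else 0)) ≤ ex p A h := by
    refine ex_mono hp0 hp1 fun S hS => ?_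
    by_cases hd : Disjoint S A
    · have : S = ∅ := by
        rw [disjoint_iff_inter_eq_empty, inter_eq_left.2 hS] at hd
        exact hd
      rw [if_pos hd, this]
      linarith
    · rw [if_neg hd]
      linarith [h1 S hS]
  rw [ex_mul_left, e] at h2
  linarith

/-- probability that exactly one element is chosen -/
lemma pr_one (p : ℝ) (A : Finset ι) :
    pr p A (fun T => T.card = 1) = (A.card : ℝ) * p * (1 - p) ^ (A.card - 1) := by
  classical
  induction A using Finset.induction_on with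
  | empty => simp [pr_def, ex_empty]
  | insert a A ha ih =>
    rw [pr_def] at ih ⊢
    rw [ex_insert p ha, ih]
    have h1 : ex p A (fun S => if (insert a S).card = 1 then (1 : ℝ) else 0) =
        (1 - p) ^ A.card := by
      rw [← ex_miss p (subset_refl A)]
      refine ex_congr p fun S hS => ?_
      have haS : a ∉ S := fun h => ha (hS h)
      rw [card_insert_of_notMem haS]
      have : S.card + 1 = 1 ↔ Disjoint S A := by
        rw [disjoint_iff_inter_eq_empty, inter_eq_left.2 hS, ← card_eq_zero]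
        omega
      by_cases hd : Disjoint S A
      · rw [if_pos (this.2 hd), if_pos hd]
      · rw [if_neg (fun h => hd (this.1 h)), if_neg hd]
    rw [h1, card_insert_of_notMem ha]
    rcases Nat.eq_zero_or_pos A.card with h0 | h0
    · rw [h0]; simp
    · obtain ⟨c, hc⟩ : ∃ c, A.card = c + 1 := ⟨A.card - 1, by omega⟩
      have e1 : c + 1 - 1 = c := by omega
      have e2 : c + 1 + 1 - 1 = c + 1 := by omega
      rw [hc, e1, e2]
      push_cast
      rw [pow_succ]
      ring

/-- probability that no element is chosen -/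
lemma pr_zero (p : ℝ) (A : Finset ι) :
    pr p A (fun T => T.card = 0) = (1 - p) ^ A.card := by
  classical
  rw [pr_def, ← ex_miss p (subset_refl A)]
  refine ex_congr p fun S hS => ?_
  have : S.card = 0 ↔ Disjoint S A := by
    rw [disjoint_iff_inter_eq_empty, inter_eq_left.2 hS, ← card_eq_zero]
  simp only [this]

lemma pr_not (p : ℝ) (A : Finset ι) (Q : Finset ι → Prop) :
    pr p A (fun S => ¬ Q S) = 1 - pr p A Q := by
  classical
  rw [pr_def, pr_def]
  have h := ex_sub p A (fun _ => 1) (fun S => if Q S then (1 : ℝ) else 0)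
  rw [ex_const] at h
  rw [← h]
  refine ex_congr p fun S _ => ?_
  by_cases hQ : Q S <;> simp [hQ]

lemma pr_le_one {p : ℝ} (hp0 : 0 ≤ p) (hp1 : p ≤ 1) (A : Finset ι) (Q : Finset ι → Prop) :
    pr p A Q ≤ 1 := by
  have h := pr_nonneg hp0 hp1 A (fun S => ¬ Q S)
  rw [pr_not] at h
  linarith

lemma pr_congr (p : ℝ) {A : Finset ι} {Q R : Finset ι → Prop} (h : ∀ S ⊆ A, (Q S ↔ R S)) :
    pr p A Q = pr p A R := by
  classical
  rw [pr_def, pr_def]
  refine ex_congr p fun S hS => ?_
  simp only [h S hS]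

lemma pr_exclusive (p : ℝ) (A : Finset ι) (Q R : Finset ι → Prop)
    (h : ∀ S ⊆ A, Q S → ¬ R S) :
    pr p A (fun S => Q S ∨ R S) = pr p A Q + pr p A R := by
  classical
  rw [pr_def, pr_def, pr_def, ← ex_add]
  refine ex_congr p fun S hS => ?_
  by_cases h1 : Q S
  · have := h S hS h1
    simp [h1, this]
  · simp [h1]

/-- probability that at most one element is chosen -/
lemma pr_le_one_card (p : ℝ) (A : Finset ι) :
    pr p A (fun T => T.card ≤ 1) =
      (1 - p) ^ A.card + (A.card : ℝ) * p * (1 - p) ^ (A.card - 1) := by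
  rw [← pr_zero, ← pr_one, ← pr_exclusive]
  · refine pr_congr p fun S _ => ?_
    omega
  · intro S _ h
    omega

/-- Probability that all blocks fail. -/
lemma pr_blocks (p : ℝ) (s : Finset κ) (A : κ → Finset ι)
    (hA : ∀ i ∈ s, ∀ j ∈ s, i ≠ j → Disjoint (A i) (A j)) (W : Finset ι)
    (hW : ∀ i ∈ s, A i ⊆ W) (K : κ → Finset ι → Prop) :
    pr p W (fun T => ∀ i ∈ s, K i (T ∩ A i)) = ∏ i ∈ s, pr p (A i) (K i) := by
  classical
  have h := ex_prod p s A hA W hW (fun i S => if K i S then (1 : ℝ) else 0)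
  have h2 : ∀ i ∈ s, pr p (A i) (K i) = ex p (A i) (fun S => if K i S then (1 : ℝ) else 0) :=
    fun i _ => pr_def _ _ _
  rw [prod_congr rfl h2, ← h, pr_def]
  refine ex_congr p fun S _ => ?_
  by_cases hall : ∀ i ∈ s, K i (S ∩ A i)
  · rw [if_pos hall]
    symm
    exact prod_eq_one fun i hi => if_pos (hall i hi)
  · rw [if_neg hall]
    push Not at hall
    obtain ⟨i, hi, hK⟩ := hall
    symm
    exact prod_eq_zero hi (if_neg hK)

/-- both sets of the pair see something else than one element -/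
noncomputable def gp (p : ℝ) (C C' : Finset ι) : ℝ :=
  pr p (C ∪ C') (fun T => (T ∩ C).card ≠ 1 ∧ (T ∩ C').card ≠ 1)

/-- probability that a random subset of a set of size `s` has exactly one element -/
noncomputable def qs (p : ℝ) (s : ℕ) : ℝ := (s : ℝ) * p * (1 - p) ^ (s - 1)

lemma pr_one' (p : ℝ) (A : Finset ι) : pr p A (fun T => T.card = 1) = qs p A.card := pr_one p A

lemma pr_ne_one (p : ℝ) (A : Finset ι) : pr p A (fun T => T.card ≠ 1) = 1 - qs p A.card := by
  rw [← pr_one', ← pr_not]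

lemma qs_nonneg {p : ℝ} (hp0 : 0 ≤ p) (hp1 : p ≤ 1) (s : ℕ) : 0 ≤ qs p s := by
  unfold qs
  have : 0 ≤ 1 - p := by linarith
  positivity

lemma qs_le_one {p : ℝ} (hp0 : 0 ≤ p) (hp1 : p ≤ 1) (s : ℕ) : qs p s ≤ 1 := by
  have h := pr_le_one hp0 hp1 (Finset.range s) (fun T => T.card = 1)
  rwa [pr_one', card_range] at h

lemma bern {p : ℝ} (hp1 : p ≤ 1) (l : ℕ) : 1 - (1 - p) ^ l ≤ l * p := by
  have h := one_add_mul_le_pow (show (-2 : ℝ) ≤ -p by linarith) l
  have e : (1 : ℝ) + -p = 1 - p := by ring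
  rw [e] at h
  linarith

/-- product structure of the pair -/
lemma pr_union' (p : ℝ) {A B : Finset ι} (hAB : Disjoint A B) (Q : Finset ι → Prop) :
    pr p (A ∪ B) Q = ex p A (fun S => pr p B (fun T => Q (S ∪ T))) := by
  classical
  rw [pr_def, ex_union p hAB]
  refine ex_congr p fun S _ => ?_
  rw [pr_def]

lemma pr_two_blocks (p : ℝ) {A B : Finset ι} (hAB : Disjoint A B) (Q R : Finset ι → Prop) :
    pr p (A ∪ B) (fun T => Q (T ∩ A) ∧ R (T ∩ B)) = pr p A Q * pr p B R := by
  classical
  rw [pr_union' p hAB]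
  have h1 : ∀ S ⊆ A, pr p B (fun T => Q ((S ∪ T) ∩ A) ∧ R ((S ∪ T) ∩ B)) =
      pr p B R * (if Q S then (1 : ℝ) else 0) := by
    intro S hS
    have e1 : ∀ T ⊆ B, (S ∪ T) ∩ A = S := by
      intro T hT
      rw [union_inter_distrib_right, inter_eq_left.2 hS]
      have : T ∩ A = ∅ := by
        rw [← disjoint_iff_inter_eq_empty]
        exact (disjoint_of_subset_right hT hAB).symm
      rw [this, union_empty]
    have e2 : ∀ T ⊆ B, (S ∪ T) ∩ B = T := by
      intro T hT
      rw [union_inter_distrib_right, inter_eq_left.2 hT]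
      have : S ∩ B = ∅ := by
        rw [← disjoint_iff_inter_eq_empty]
        exact disjoint_of_subset_left hS hAB
      rw [this, empty_union]
    by_cases hQ : Q S
    · rw [if_pos hQ, mul_one]
      refine pr_congr p fun T hT => ?_
      rw [e1 T hT, e2 T hT]
      exact ⟨fun h => h.2, fun h => ⟨hQ, h⟩⟩
    · rw [if_neg hQ, mul_zero]
      have : pr p B (fun T => Q ((S ∪ T) ∩ A) ∧ R ((S ∪ T) ∩ B)) = pr p B (fun _ => False) := by
        refine pr_congr p fun T hT => ?_
        rw [e1 T hT]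
        simp [hQ]
      rw [this, pr_def]
      simp [ex_const]
  rw [ex_congr p h1, ex_mul_left, pr_def p A Q]
  ring

/-- lower bound with an empty intersection -/
lemma gp_le₂ {p : ℝ} (hp0 : 0 ≤ p) (hp1 : p ≤ 1) (C C' : Finset ι) :
    gp p C C' ≤ (1 - qs p C.card) - (1 - p) ^ C.card * qs p (C' \ C).card := by
  classical
  unfold gp
  have hu : C ∪ C' = C ∪ (C' \ C) := by rw [union_sdiff_self_eq_union]
  have hd : Disjoint C (C' \ C) := disjoint_sdiff
  rw [hu]
  have h1 : pr p (C ∪ (C' \ C)) (fun T => (T ∩ C).card ≠ 1) = 1 - qs p C.card := by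
    have := pr_two_blocks p hd (fun S => S.card ≠ 1) (fun _ => True)
    rw [pr_ne_one] at this
    have ht : pr p (C' \ C) (fun _ => True) = 1 := by
      rw [pr_def]; simp [ex_const]
    rw [ht, mul_one] at this
    rw [← this]
    exact pr_congr p fun S _ => by simp
  have h2 : pr p (C ∪ (C' \ C)) (fun T => (T ∩ C).card = 0 ∧ (T ∩ (C' \ C)).card = 1) =
      (1 - p) ^ C.card * qs p (C' \ C).card := by
    rw [pr_two_blocks p hd (fun S => S.card = 0) (fun S => S.card = 1), pr_zero, pr_one']
  have h3 := pr_exclusive p (C ∪ (C' \ C))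
    (fun T => (T ∩ C).card ≠ 1 ∧ (T ∩ C').card ≠ 1)
    (fun T => (T ∩ C).card = 0 ∧ (T ∩ (C' \ C)).card = 1) (by
      rintro S - ⟨-, h1⟩ ⟨h2, h3⟩
      apply h1
      have e : S ∩ C' = S ∩ (C' \ C) := by
        ext x
        simp only [mem_inter, mem_sdiff]
        constructor
        · rintro ⟨hx, hx'⟩
          refine ⟨hx, hx', fun hxC => ?_⟩
          have : x ∈ S ∩ C := mem_inter.2 ⟨hx, hxC⟩
          rw [card_eq_zero] at h2
          rw [h2] at this
          exact notMem_empty x this
        · rintro ⟨hx, hx', -⟩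
          exact ⟨hx, hx'⟩
      rw [e, h3])
  have h4 : pr p (C ∪ (C' \ C)) (fun T => ((T ∩ C).card ≠ 1 ∧ (T ∩ C').card ≠ 1) ∨
      ((T ∩ C).card = 0 ∧ (T ∩ (C' \ C)).card = 1)) ≤ 1 - qs p C.card := by
    rw [← h1]
    refine pr_mono hp0 hp1 fun S _ h => ?_
    rcases h with h | h
    · exact h.1
    · rw [h.1]; decide
  rw [h3, h2] at h4
  linarith

/-- the two events are almost independent if the intersection is small -/
lemma gp_le₁ {p : ℝ} (hp0 : 0 ≤ p) (hp1 : p ≤ 1) (C C' : Finset ι) (h : C.card = C'.card) :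
    gp p C C' ≤ (1 - qs p C.card) ^ 2 + 2 * ((C ∩ C').card : ℝ) * p := by
  classical
  set I := C ∩ C' with hI
  set J := C \ C' with hJ
  set J' := C' \ C with hJ'
  have hIJ : Disjoint I J := by
    rw [disjoint_left]
    intro x hx hx'
    exact (mem_sdiff.1 hx').2 (mem_inter.1 hx).2
  have hIJ' : Disjoint I J' := by
    rw [disjoint_left]
    intro x hx hx'
    exact (mem_sdiff.1 hx').2 (mem_inter.1 hx).1
  have hJJ' : Disjoint J J' := by
    rw [disjoint_left]
    intro x hx hx'
    exact (mem_sdiff.1 hx').2 (mem_sdiff.1 hx).1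
  have hC : C = I ∪ J := by
    ext x
    simp only [hI, hJ, mem_union, mem_inter, mem_sdiff]
    tauto
  have hC' : C' = I ∪ J' := by
    ext x
    simp only [hI, hJ', mem_union, mem_inter, mem_sdiff]
    tauto
  have hu : C ∪ C' = I ∪ (J ∪ J') := by
    ext x
    simp only [hI, hJ, hJ', mem_union, mem_inter, mem_sdiff]
    tauto
  have hd : Disjoint I (J ∪ J') := disjoint_union_right.2 ⟨hIJ, hIJ'⟩
  have hcard : J.card = J'.card := by
    have h1 := card_union_of_disjoint hIJ
    have h2 := card_union_of_disjoint hIJ'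
    rw [← hC] at h1
    rw [← hC'] at h2
    omega
  set l := I.card with hl
  set u := 1 - qs p J.card with hu0
  have hu1 : 0 ≤ u ∧ u ≤ 1 := by
    constructor
    · linarith [qs_le_one hp0 hp1 J.card]
    · linarith [qs_nonneg hp0 hp1 J.card]
  -- the value at the empty set
  have hbase : pr p (J ∪ J') (fun T => ((∅ ∪ T) ∩ C).card ≠ 1 ∧ ((∅ ∪ T) ∩ C').card ≠ 1) =
      u ^ 2 := by
    have e : pr p (J ∪ J') (fun T => ((∅ ∪ T) ∩ C).card ≠ 1 ∧ ((∅ ∪ T) ∩ C').card ≠ 1) =
        pr p (J ∪ J') (fun T => (T ∩ J).card ≠ 1 ∧ (T ∩ J').card ≠ 1) := by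
      refine pr_congr p fun T hT => ?_
      rw [empty_union]
      have e1 : T ∩ C = T ∩ J := by
        ext x
        simp only [mem_inter]
        constructor
        · rintro ⟨hx, hxC⟩
          refine ⟨hx, ?_⟩
          rcases mem_union.1 (hT hx) with h | h
          · exact h
          · exact absurd hxC (mem_sdiff.1 h).2
        · rintro ⟨hx, hxJ⟩
          exact ⟨hx, (mem_sdiff.1 hxJ).1⟩
      have e2 : T ∩ C' = T ∩ J' := by
        ext x
        simp only [mem_inter]
        constructor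
        · rintro ⟨hx, hxC⟩
          refine ⟨hx, ?_⟩
          rcases mem_union.1 (hT hx) with h | h
          · exact absurd hxC (mem_sdiff.1 h).2
          · exact h
        · rintro ⟨hx, hxJ⟩
          exact ⟨hx, (mem_sdiff.1 hxJ).1⟩
      rw [e1, e2]
    rw [e, pr_two_blocks p hJJ' (fun S => S.card ≠ 1) (fun S => S.card ≠ 1), pr_ne_one,
      pr_ne_one, ← hcard, hu0]
    ring
  have h1 : gp p C C' ≤ (1 - p) ^ l * u ^ 2 + (1 - (1 - p) ^ l) := by
    unfold gp
    rw [hu, pr_union' p hd, ← hbase]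
    exact ex_indicator_le hp0 hp1 I
      (fun S => pr p (J ∪ J') (fun T => ((S ∪ T) ∩ C).card ≠ 1 ∧ ((S ∪ T) ∩ C').card ≠ 1))
      (fun S _ => pr_le_one hp0 hp1 _ _)
  have h2 : (1 - p) ^ l * u ≤ 1 - qs p C.card := by
    have e : 1 - qs p C.card = ex p I (fun S => pr p J (fun T => (S ∪ T).card ≠ 1)) := by
      rw [← pr_ne_one]
      conv_lhs => rw [hC]
      exact pr_union' p hIJ (fun T => T.card ≠ 1)
    rw [e]
    have := le_ex_indicator hp0 hp1 I (fun S => pr p J (fun T => (S ∪ T).card ≠ 1))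
      (fun S _ => pr_nonneg hp0 hp1 _ _)
    have e2 : pr p J (fun T => ((∅ : Finset ι) ∪ T).card ≠ 1) = u := by
      rw [hu0, ← pr_ne_one]
      exact pr_congr p fun T _ => by rw [empty_union]
    rw [e2] at this
    exact this
  have hx0 : 0 ≤ (1 - p) ^ l := pow_nonneg (by linarith) _
  have hx1 : (1 - p) ^ l ≤ 1 := pow_le_one₀ (by linarith) (by linarith)
  have h3 : 1 - (1 - p) ^ l ≤ l * p := bern hp1 l
  set x := (1 - p) ^ l with hx
  have h4 : x ^ 2 * u ^ 2 ≤ (1 - qs p C.card) ^ 2 := by
    rw [← mul_pow]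
    exact pow_le_pow_left₀ (mul_nonneg hx0 hu1.1) h2 2
  have h5 : x * u ^ 2 - x ^ 2 * u ^ 2 ≤ 1 - x := by
    have : x * u ^ 2 - x ^ 2 * u ^ 2 = (x * u ^ 2) * (1 - x) := by ring
    rw [this]
    have h6 : x * u ^ 2 ≤ 1 := by
      have : u ^ 2 ≤ 1 := pow_le_one₀ hu1.1 hu1.2
      calc x * u ^ 2 ≤ 1 * 1 := mul_le_mul hx1 this (sq_nonneg u) zero_le_one
        _ = 1 := one_mul 1
    nlinarith
  linarith

end Pool.Agent.CFC
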