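import Pool.Agent.CFC.Defs
import Pool.Agent.CFC.Prob
import Pool.Agent.MD437.Graph

/-! The random graph as a random set of edges; stars outside a set `W` are independent. -/

namespace Pool.Agent.CFC

open Finset Pool.Agent.MD437

variable {n : ℕ}

/-- graph of an edge set -/
def gr (S : Finset (Sym2 (Fin n))) : SimpleGraph (Fin n) :=
  SimpleGraph.fromEdgeSet (S : Set (Sym2 (Fin n)))

lemma gr_adj {S : Finset (Sym2 (Fin n))} {x y : Fin n} :
    (gr S).Adj x y ↔ s(x, y) ∈ S ∧ x ≠ y := by
  unfold gr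
  rw [SimpleGraph.fromEdgeSet_adj]
  simp only [Finset.mem_coe]

lemma card_E' : (E n).card = n.choose 2 := by
  have h : (E n) = (⊤ : SimpleGraph (Fin n)).edgeFinset := by
    ext e
    rw [mem_E, SimpleGraph.mem_edgeFinset, SimpleGraph.edgeSet_top]
    simp
  rw [h, SimpleGraph.card_edgeFinset_top_eq_card_choose_two, Fintype.card_fin]

lemma gnp_eq (p : ℝ) (Q : SimpleGraph (Fin n) → Prop) :
    gnp n p Q = pr p (E n) (fun S => Q (gr S)) := by
  classical
  rw [pr_def]
  unfold gnp ex
  refine Finset.sum_bij' (fun G _ => G.edgeFinset) (fun S _ => gr S) ?_ ?_ ?_ ?_ ?_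
  · intro G _
    rw [Finset.mem_powerset]
    intro e he
    rw [mem_E]
    rw [SimpleGraph.mem_edgeFinset] at he
    exact G.not_isDiag_of_mem_edgeSet he
  · intro S _
    exact Finset.mem_univ _
  · intro G _
    unfold gr
    rw [SimpleGraph.coe_edgeFinset, SimpleGraph.fromEdgeSet_edgeSet]
  · intro S hS
    rw [Finset.mem_powerset] at hS
    ext e
    rw [SimpleGraph.mem_edgeFinset]
    unfold gr
    rw [SimpleGraph.edgeSet_fromEdgeSet]
    constructor
    · intro h; exact h.1
    · intro h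
      refine ⟨h, ?_⟩
      have := mem_E.mp (hS h)
      simpa using this
  · intro G _
    have h1 : gr G.edgeFinset = G := by
      unfold gr
      rw [SimpleGraph.coe_edgeFinset, SimpleGraph.fromEdgeSet_edgeSet]
    simp only [h1, card_E']
    by_cases h : Q G
    · rw [if_pos h, if_pos h, mul_one]
    · rw [if_neg h, if_neg h, mul_zero]

/-- The stars of the vertices outside `W`, and the pairs inside `W`, are independent. -/
lemma pr_star (p : ℝ) (W : Finset (Fin n)) (F : Finset (Sym2 (Fin n))) (hF : F ⊆ E n)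
    (hFW : ∀ e ∈ F, ∀ v ∈ e, v ∈ W) (Q : Fin n → Finset (Fin n) → Prop) :
    pr p (E n) (fun S => Disjoint S F ∧ ∀ x ∈ Wᶜ, Q x (W.filter (fun y => s(x, y) ∈ S))) =
      (1 - p) ^ F.card * ∏ x ∈ Wᶜ, pr p W (Q x) := by
  classical
  let B : Option (Fin n) → Finset (Sym2 (Fin n)) := fun k =>
    match k with
    | none => F
    | some x => W.image (fun y => s(x, y))
  let g : Option (Fin n) → Finset (Sym2 (Fin n)) → ℝ := fun k =>
    match k with
    | none => fun S => if Disjoint S F then (1 : ℝ) else 0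
    | some x => fun S => if Q x (W.filter (fun y => s(x, y) ∈ S)) then (1 : ℝ) else 0
  have hB : ∀ i ∈ insertNone Wᶜ, ∀ j ∈ insertNone Wᶜ, i ≠ j → Disjoint (B i) (B j) := by
    have h0 : ∀ x ∈ Wᶜ, Disjoint F (W.image (fun y => s(x, y))) := by
      intro x hx
      rw [disjoint_left]
      intro e he he'
      obtain ⟨y, hy, rfl⟩ := mem_image.1 he'
      exact (mem_compl.1 hx) (hFW _ he x (Sym2.mem_mk_left x y))
    rintro (_ | x) hx (_ | y) hy hxy
    · exact absurd rfl hxy
    · exact h0 y (some_mem_insertNone.1 hy)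
    · exact (h0 x (some_mem_insertNone.1 hx)).symm
    · show Disjoint (W.image (fun z => s(x, z))) (W.image (fun z => s(y, z)))
      rw [disjoint_left]
      intro e he he'
      obtain ⟨a, ha, rfl⟩ := mem_image.1 he
      obtain ⟨b, hb, hab⟩ := mem_image.1 he'
      rcases Sym2.eq_iff.1 hab with ⟨h1, -⟩ | ⟨h1, -⟩
      · exact hxy (by rw [h1])
      · rw [h1] at hy
        exact (mem_compl.1 (some_mem_insertNone.1 hy)) ha
  have hA : ∀ i ∈ insertNone Wᶜ, B i ⊆ E n := by
    rintro (_ | x) hx
    · exact hF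
    · intro e he
      obtain ⟨y, hy, rfl⟩ := mem_image.1 he
      rw [mk_mem_E]
      rintro rfl
      exact (mem_compl.1 (some_mem_insertNone.1 hx)) hy
  have h := ex_prod p (insertNone Wᶜ) B hB (E n) hA g
  rw [prod_insertNone] at h
  have e0 : ex p (B none) (g none) = (1 - p) ^ F.card := ex_miss p (subset_refl F)
  have e1 : ∀ x ∈ Wᶜ, ex p (B (some x)) (g (some x)) = pr p W (Q x) := by
    intro x hx
    show ex p (W.image (fun y => s(x, y)))
      (fun S => if Q x (W.filter (fun y => s(x, y) ∈ S)) then (1 : ℝ) else 0) = _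
    have hinj : Set.InjOn (fun y => s(x, y)) (W : Set (Fin n)) := by
      intro a ha b hb hab
      rcases Sym2.eq_iff.1 hab with ⟨-, h1⟩ | ⟨h1, h2⟩
      · exact h1
      · rw [h2]; exact h1
    rw [ex_image p W _ hinj, pr_def]
    refine ex_congr p fun T hT => ?_
    have : W.filter (fun y => s(x, y) ∈ T.image (fun y => s(x, y))) = T := by
      ext y
      rw [mem_filter, mem_image]
      constructor
      · rintro ⟨hy, z, hz, hzy⟩
        have := hinj (mem_coe.2 (hT hz)) (mem_coe.2 hy) hzy
        rwa [← this]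
      · intro hy
        exact ⟨hT hy, y, hy, rfl⟩
    rw [this]
  rw [e0, prod_congr rfl e1] at h
  rw [← h, pr_def]
  refine ex_congr p fun S hS => ?_
  rw [prod_insertNone]
  have d1 : Disjoint (S ∩ F) F ↔ Disjoint S F := by
    rw [disjoint_left, disjoint_left]
    constructor
    · intro h x hx hxF
      exact h (mem_inter.2 ⟨hx, hxF⟩) hxF
    · intro h x hx hxF
      exact h (mem_inter.1 hx).1 hxF
  have d2 : ∀ x, W.filter (fun y => s(x, y) ∈ S ∩ W.image (fun y => s(x, y))) =
      W.filter (fun y => s(x, y) ∈ S) := by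
    intro x
    ext y
    rw [mem_filter, mem_filter, mem_inter]
    constructor
    · rintro ⟨h1, h2, -⟩
      exact ⟨h1, h2⟩
    · rintro ⟨h1, h2⟩
      exact ⟨h1, h2, mem_image.2 ⟨y, h1, rfl⟩⟩
  have g0 : g none (S ∩ B none) = if Disjoint S F then (1 : ℝ) else 0 := by
    show (if Disjoint (S ∩ F) F then (1 : ℝ) else 0) = _
    by_cases hd : Disjoint S F
    · rw [if_pos hd, if_pos (d1.2 hd)]
    · rw [if_neg hd, if_neg (fun h => hd (d1.1 h))]
  have g1 : ∀ x ∈ Wᶜ, g (some x) (S ∩ B (some x)) =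
      if Q x (W.filter (fun y => s(x, y) ∈ S)) then (1 : ℝ) else 0 := by
    intro x _
    show (if Q x (W.filter (fun y => s(x, y) ∈ S ∩ W.image (fun y => s(x, y)))) then (1 : ℝ)
      else 0) = _
    rw [d2 x]
  rw [g0, prod_congr rfl g1]
  by_cases hd : Disjoint S F
  · by_cases hall : ∀ x ∈ Wᶜ, Q x (W.filter (fun y => s(x, y) ∈ S))
    · rw [if_pos ⟨hd, hall⟩, if_pos hd, one_mul]
      symm
      exact prod_eq_one fun x hx => if_pos (hall x hx)
    · rw [if_neg (fun h => hall h.2)]
      push Not at hall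
      obtain ⟨x, hx, hQ⟩ := hall
      symm
      rw [prod_eq_zero hx (if_neg hQ), mul_zero]
  · rw [if_neg (fun h => hd h.1), if_neg hd, zero_mul]

end Pool.Agent.CFC
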