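import Pool.Agent.CFC.Basic
import Pool.Agent.CFC.System

/-! The lower bound for `0 < p ≤ 7/8`. -/

namespace Pool.Agent.CFC

open Finset Pool.Agent.MD437

variable {n m : ℕ} {p : ℝ}

/-- binomial coefficients -/
lemma choose_le {t : ℝ} (ht : 0 < t) (n s : ℕ) :
    (n.choose s : ℝ) ≤ Real.exp (n * t) * (t⁻¹) ^ s := by
  have h1 : (n.choose s : ℝ) * t ^ s ≤ (1 + t) ^ n := by
    rcases Nat.lt_or_ge n s with h | h
    · rw [Nat.choose_eq_zero_of_lt h]
      simp only [Nat.cast_zero, zero_mul]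
      positivity
    · rw [add_comm, add_pow]
      have := single_le_sum (f := fun k => t ^ k * 1 ^ (n - k) * (n.choose k : ℝ))
        (fun k _ => by positivity) (mem_range.2 (Nat.lt_succ_of_le h))
      simp only [one_pow, mul_one] at this ⊢
      linarith
  have h2 : (1 + t) ^ n ≤ Real.exp (n * t) := by
    rw [Real.exp_nat_mul]
    refine pow_le_pow_left₀ (by positivity) ?_ n
    have := Real.add_one_le_exp t
    linarith
  have h3 : (n.choose s : ℝ) = ((n.choose s : ℝ) * t ^ s) * (t⁻¹) ^ s := by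
    rw [mul_assoc, ← mul_pow, mul_inv_cancel₀ ht.ne', one_pow, mul_one]
  rw [h3]
  exact mul_le_mul_of_nonneg_right (h1.trans h2) (by positivity)

/-- the pointwise inequality -/
lemma pointwise_A {z : ℝ} (h0 : 0 < p) (h1 : p ≤ 7 / 8) (hn : 0 < (n : ℝ) * p) (hm : 2200 ≤ m)
    (hz : 0 ≤ z) (hΛ : 50 * (48 + z) ≤ Real.log (n * p))
    (hσ : 1000 * (((m : ℝ) + 1) * SS p) ≤ n)
    (hL : ∀ s : Fin m → ℕ, (∀ i, kk p ≤ s i ∧ s i ≤ SS p) →
      13 / 12 * (∑ i, (s i : ℝ)) * Real.log (n * p) ≤ n * ww p s)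
    (s : Fin (m + 1) → ℕ) (hs : ∀ i, s i ≤ SS p) (j : Fin (m + 1)) (hj : s j = SS p) :
    z + (∑ i, (s i : ℝ)) * Real.log (n * p) + ((m : ℝ) + 1) * (1 / p) +
      ((m : ℝ) + 1) * Real.log (SS p + 1) ≤
      ((n : ℝ) - ∑ i, (s i : ℝ)) * ∏ i, (1 - qt p (SS p) (s i)) := by
  classical
  set Λ := Real.log (n * p) with hΛd
  set S := SS p with hS
  set k := kk p with hk
  set t : Fin m → ℕ := fun i => s (j.succAbove i) with ht
  set s' : Fin m → ℕ := fun i => if t i = S then k else max (t i) k with hs'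
  set d : ℕ := (univ.filter (fun i => t i = S)).card with hd
  have hp1 : p ≤ 1 := by linarith
  have hkS : k < S := kk_lt_SS h0
  have hk1 : 1 ≤ k := kk_pos h0 h1
  have hs'b : ∀ i, k ≤ s' i ∧ s' i ≤ S := by
    intro i
    show k ≤ (if t i = S then k else max (t i) k) ∧ (if t i = S then k else max (t i) k) ≤ S
    split_ifs
    · exact ⟨le_rfl, hkS.le⟩
    · exact ⟨le_max_right _ _, max_le (hs _) hkS.le⟩
  set σ' : ℝ := ∑ i, (s' i : ℝ) with hσ'
  have hLs := hL s' hs'b
  -- sums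
  have hsum : ∑ i, (s i : ℝ) = (S : ℝ) + ∑ i, (t i : ℝ) := by
    rw [Fin.sum_univ_succAbove _ j, hj]
  have hsum2 : ∑ i, (t i : ℝ) ≤ σ' + d * S := by
    have h2 : ∀ i, (t i : ℝ) ≤ (s' i : ℝ) + (if t i = S then (S : ℝ) else 0) := by
      intro i
      show (t i : ℝ) ≤ ((if t i = S then k else max (t i) k : ℕ) : ℝ) + _
      split_ifs with h
      · rw [h]
        have : (0 : ℝ) ≤ k := Nat.cast_nonneg _
        linarith
      · rw [add_zero]
        exact_mod_cast le_max_left _ _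
    calc ∑ i, (t i : ℝ) ≤ ∑ i, ((s' i : ℝ) + (if t i = S then (S : ℝ) else 0)) :=
          sum_le_sum fun i _ => h2 i
      _ = σ' + d * S := by
          rw [sum_add_distrib, ← sum_filter, sum_const, nsmul_eq_mul]
  have hmk : (m : ℝ) * k ≤ σ' := by
    rw [hσ']
    calc (m : ℝ) * k = ∑ _i : Fin m, (k : ℝ) := by
          rw [sum_const, card_univ, Fintype.card_fin, nsmul_eq_mul]
      _ ≤ _ := sum_le_sum fun i _ => by exact_mod_cast (hs'b i).1
  -- products
  have hfac : ∀ i, (if t i = S then (59 / 50 : ℝ) else 1) * (1 - qs p (s' i)) ≤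
      1 - qt p S (t i) := by
    intro i
    show (if t i = S then (59 / 50 : ℝ) else 1) *
      (1 - qs p (if t i = S then k else max (t i) k)) ≤ 1 - qt p S (t i)
    by_cases h : t i = S
    · rw [if_pos h, if_pos h, h]
      have h2 := qs_kk h0 h1
      have h3 := qt_SS h0 h1
      rw [← hk] at h2
      rw [← hS] at h3
      linarith
    · rw [if_neg h, if_neg h, one_mul]
      have hlt : t i < S := lt_of_le_of_ne (hs _) h
      unfold qt
      rw [if_pos hlt]
      rcases le_total (t i) k with h2 | h2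
      · rw [max_eq_right h2]
        have := qs_mono h0 h1 (s := t i) (by rw [← hk]; exact h2)
        rw [← hk] at this
        linarith
      · rw [max_eq_left h2]
  have hprod : (59 / 50 : ℝ) ^ d * ww p s' ≤ ∏ i, (1 - qt p S (t i)) := by
    calc (59 / 50 : ℝ) ^ d * ww p s' =
        ∏ i, ((if t i = S then (59 / 50 : ℝ) else 1) * (1 - qs p (s' i))) := by
          rw [prod_mul_distrib, prod_ite, prod_const_one, mul_one, prod_const]
          rfl
      _ ≤ _ := prod_le_prod (fun i _ => mul_nonneg (by split_ifs <;> norm_num)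
          (by linarith [qs_le_one h0.le hp1 (s' i)])) fun i _ => hfac i
  have hw' : 0 ≤ ww p s' := ww_nonneg h0.le hp1 s'
  have hww : 99 / 100 * ((59 / 50 : ℝ) ^ d * ww p s') ≤ ∏ i, (1 - qt p S (s i)) := by
    rw [Fin.prod_univ_succAbove _ j, hj]
    have h3 := qt_SS h0 h1
    rw [← hS] at h3
    have h4 : (0 : ℝ) ≤ (59 / 50 : ℝ) ^ d * ww p s' := by positivity
    calc 99 / 100 * ((59 / 50 : ℝ) ^ d * ww p s') ≤
        (1 - qt p S S) * ((59 / 50 : ℝ) ^ d * ww p s') :=
          mul_le_mul_of_nonneg_right (by linarith) h4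
      _ ≤ _ := mul_le_mul_of_nonneg_left hprod (by linarith)
  have hdpow : 1 + 9 / 50 * (d : ℝ) ≤ (59 / 50 : ℝ) ^ d := by
    have := one_add_mul_le_pow (show (-2 : ℝ) ≤ 9 / 50 by norm_num) d
    calc 1 + 9 / 50 * (d : ℝ) = 1 + d * (9 / 50) := by ring
      _ ≤ (1 + 9 / 50) ^ d := this
      _ = _ := by norm_num
  -- size of everything
  have hm' : (2200 : ℝ) ≤ m := by exact_mod_cast hm
  have hhalf := half_le h0 h1
  rw [← hk] at hhalf
  have hSp := SS_ub h0 hp1
  rw [← hS] at hSp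
  have hpinv : 1 / p ≤ 2 * k := by
    rw [div_le_iff₀ h0]
    nlinarith
  have hSk : (S : ℝ) ≤ 22 * k := by
    have : (S : ℝ) * p ≤ 22 * k * p := by nlinarith
    exact le_of_mul_le_mul_right this h0
  have hk0 : (1 : ℝ) ≤ k := by exact_mod_cast hk1
  have hσ'pos : 1 ≤ σ' := by nlinarith
  have hΛpos : 2400 ≤ Λ := by nlinarith
  have e1 : ((m : ℝ) + 1) * (1 / p) ≤ 4 * σ' := by
    calc ((m : ℝ) + 1) * (1 / p) ≤ (2 * m) * (2 * k) :=
          mul_le_mul (by linarith) hpinv (by positivity) (by positivity)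
      _ = 4 * (m * k) := by ring
      _ ≤ 4 * σ' := by linarith
  have e2 : ((m : ℝ) + 1) * Real.log (S + 1) ≤ 44 * σ' := by
    have h5 : Real.log (S + 1) ≤ S := by
      have := Real.log_le_sub_one_of_pos (show (0 : ℝ) < S + 1 by positivity)
      linarith
    calc ((m : ℝ) + 1) * Real.log (S + 1) ≤ (2 * m) * (22 * k) :=
          mul_le_mul (by linarith) (h5.trans hSk) (Real.log_nonneg (by
            have : (0 : ℝ) ≤ S := Nat.cast_nonneg _
            linarith)) (by positivity)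
      _ = 44 * (m * k) := by ring
      _ ≤ 44 * σ' := by linarith
  have e3 : (S : ℝ) ≤ 1 / 100 * σ' := by
    have : 22 * (k : ℝ) ≤ 1 / 100 * (m * k) := by nlinarith
    linarith
  have hd0 : (0 : ℝ) ≤ d := Nat.cast_nonneg _
  have e4 : (∑ i, (s i : ℝ)) ≤ (1 + 1 / 100 * (d + 1)) * σ' := by
    rw [hsum]
    have : (d : ℝ) * S ≤ d * (1 / 100 * σ') := mul_le_mul_of_nonneg_left e3 hd0
    linarith
  have e5 : z + 48 * σ' ≤ 1 / 50 * (σ' * Λ) := by
    have h6 : z + 48 * σ' ≤ (48 + z) * σ' := by nlinarith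
    have h7 : (48 + z) ≤ 1 / 50 * Λ := by linarith
    have h8 := mul_le_mul_of_nonneg_right h7 (by linarith : (0 : ℝ) ≤ σ')
    linarith
  have hLHS : z + (∑ i, (s i : ℝ)) * Λ + ((m : ℝ) + 1) * (1 / p) +
      ((m : ℝ) + 1) * Real.log (S + 1) ≤ (103 / 100 + 1 / 100 * d) * (σ' * Λ) := by
    have := mul_le_mul_of_nonneg_right e4 (by linarith : (0 : ℝ) ≤ Λ)
    nlinarith
  -- the right-hand side
  have e6 : 999 / 1000 * (n : ℝ) ≤ (n : ℝ) - ∑ i, (s i : ℝ) := by
    have h7 : ∑ i, (s i : ℝ) ≤ ((m : ℝ) + 1) * S := by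
      calc ∑ i, (s i : ℝ) ≤ ∑ _i : Fin (m + 1), (S : ℝ) :=
            sum_le_sum fun i _ => by exact_mod_cast hs i
        _ = _ := by
            rw [sum_const, card_univ, Fintype.card_fin, nsmul_eq_mul]
            push_cast
            ring
    linarith
  have hn0 : (0 : ℝ) ≤ n := Nat.cast_nonneg _
  have hRHS : (1 + 9 / 50 * d) * (107 / 100 * (σ' * Λ)) ≤
      ((n : ℝ) - ∑ i, (s i : ℝ)) * ∏ i, (1 - qt p S (s i)) := by
    calc (1 + 9 / 50 * d) * (107 / 100 * (σ' * Λ)) ≤
        (59 / 50 : ℝ) ^ d * (999 / 1000 * (99 / 100) * (13 / 12 * (σ' * Λ))) := by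
          refine mul_le_mul hdpow ?_ (by positivity) (by positivity)
          have : 0 ≤ σ' * Λ := by positivity
          nlinarith
      _ ≤ (59 / 50 : ℝ) ^ d * (999 / 1000 * (99 / 100) * (n * ww p s')) := by
          refine mul_le_mul_of_nonneg_left ?_ (by positivity)
          refine mul_le_mul_of_nonneg_left ?_ (by norm_num)
          linarith
      _ = (999 / 1000 * n) * (99 / 100 * ((59 / 50 : ℝ) ^ d * ww p s')) := by ring
      _ ≤ _ := mul_le_mul e6 hww (by positivity) (by linarith)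
  refine hLHS.trans (le_trans ?_ hRHS)
  have : 0 ≤ σ' * Λ := by positivity
  nlinarith [mul_nonneg hd0 this]

/-- No conflict-free colouring with `m + 1` colours. -/
theorem lower_A {z : ℝ} (h0 : 0 < p) (h1 : p ≤ 7 / 8) (hn : 1 ≤ (n : ℝ) * p) (hm : 2200 ≤ m)
    (hz : 0 ≤ z) (hΛ : 50 * (48 + z) ≤ Real.log (n * p))
    (hσ : 1000 * (((m : ℝ) + 1) * SS p) ≤ n)
    (hL : ∀ s : Fin m → ℕ, (∀ i, kk p ≤ s i ∧ s i ≤ SS p) →
      13 / 12 * (∑ i, (s i : ℝ)) * Real.log (n * p) ≤ n * ww p s) :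
    pr p (E n) (fun S => ∃ c : Fin n → Fin (m + 1), IsCF (gr S) c) ≤ Real.exp (-z) := by
  have hp1 : p ≤ 1 := by linarith
  have hn0 : 0 < (n : ℝ) * p := by linarith
  have hnn : (0 : ℝ) < n := by
    by_contra hcon
    push Not at hcon
    nlinarith
  refine lower_bound (S₀ := SS p) h0.le hp1 ?_
    (fun s => Real.exp (-(s * Real.log (n * p) + 1 / p + Real.log (SS p + 1))))
    (fun s => (Real.exp_pos _).le) ?_ (Real.exp_pos _).le ?_
  · have hS : (1 : ℝ) ≤ SS p := by
      have := SS_lb h0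
      by_contra hcon
      push Not at hcon
      nlinarith
    have : (((m + 1) * (SS p - 1) : ℕ) : ℝ) < n := by
      have hS' : 1 ≤ SS p := by exact_mod_cast hS
      push_cast [Nat.cast_sub hS']
      have : ((m : ℝ) + 1) * (SS p - 1) ≤ ((m : ℝ) + 1) * SS p := by nlinarith
      nlinarith
    exact_mod_cast this
  · -- the sum of the weights
    have hS1 : (0 : ℝ) < (SS p : ℝ) + 1 := by positivity
    have h2 : ∀ s ∈ range (SS p + 1), (n.choose s : ℝ) *
        Real.exp (-(s * Real.log (n * p) + 1 / p + Real.log (SS p + 1))) ≤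
        1 / ((SS p : ℝ) + 1) := by
      intro s _
      have h3 := choose_le (t := 1 / (n * p)) (by positivity) n s
      have h4 : (n : ℝ) * (1 / (n * p)) = 1 / p := by field_simp
      have h5 : ((1 / ((n : ℝ) * p))⁻¹) ^ s = Real.exp (s * Real.log (n * p)) := by
        rw [one_div, inv_inv, Real.exp_nat_mul, Real.exp_log hn0]
      rw [h4, h5] at h3
      calc (n.choose s : ℝ) * Real.exp (-(s * Real.log (n * p) + 1 / p + Real.log (SS p + 1))) ≤
          (Real.exp (1 / p) * Real.exp (s * Real.log (n * p))) *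
            Real.exp (-(s * Real.log (n * p) + 1 / p + Real.log (SS p + 1))) :=
            mul_le_mul_of_nonneg_right h3 (Real.exp_pos _).le
        _ = Real.exp (-Real.log (SS p + 1)) := by
            rw [← Real.exp_add, ← Real.exp_add]
            congr 1
            ring
        _ = 1 / ((SS p : ℝ) + 1) := by
            rw [Real.exp_neg, Real.exp_log hS1, one_div]
    refine (sum_le_sum h2).trans ?_
    rw [sum_const, card_range, nsmul_eq_mul]
    push_cast
    rw [mul_one_div, div_self hS1.ne']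
  · intro s hs hj
    obtain ⟨j, hj⟩ := hj
    have h2 := pointwise_A h0 h1 hn0 hm hz hΛ hσ hL s hs j hj
    rw [← Real.exp_sum, ← Real.exp_add]
    apply Real.exp_le_exp.2
    have h3 : ∑ i, -((s i : ℝ) * Real.log (n * p) + 1 / p + Real.log (SS p + 1)) =
        -((∑ i, (s i : ℝ)) * Real.log (n * p) + ((m : ℝ) + 1) * (1 / p) +
          ((m : ℝ) + 1) * Real.log (SS p + 1)) := by
      rw [sum_neg_distrib, sum_add_distrib, sum_add_distrib, ← sum_mul, sum_const, sum_const,
        card_univ, Fintype.card_fin, nsmul_eq_mul, nsmul_eq_mul]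
      push_cast
      ring
    rw [h3]
    linarith

end Pool.Agent.CFC
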