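import Pool.Agent.CFC.Graph

/-! The union bound: conflict-free colourings with few colours do not exist. -/

namespace Pool.Agent.CFC

open Finset Pool.Agent.MD437

variable {n : ℕ}

/-- The relaxed condition for a set `A` of size at most `S₀`. -/
def rel (S₀ a k : ℕ) : Prop := (a < S₀ ∧ k = 1) ∨ (a = S₀ ∧ k ≤ 1)

/-- From a conflict-free colouring to small sets. -/
lemma exists_sets {m S₀ : ℕ} (hS : (m + 1) * (S₀ - 1) < n)
    {S : Finset (Sym2 (Fin n))} {c : Fin n → Fin (m + 1)} (hc : IsCF (gr S) c) :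
    ∃ A : Fin (m + 1) → Finset (Fin n), (∀ i j, i ≠ j → Disjoint (A i) (A j)) ∧
      (∀ i, (A i).card ≤ S₀) ∧ (∃ j, (A j).card = S₀) ∧
      ∀ x ∈ (univ.biUnion A)ᶜ, ∃ i, rel S₀ (A i).card
        (((univ.biUnion A).filter (fun y => s(x, y) ∈ S)) ∩ A i).card := by
  classical
  let K : Fin (m + 1) → Finset (Fin n) := fun i => univ.filter (fun x => c x = i)
  have hKd : ∀ i j, i ≠ j → Disjoint (K i) (K j) := by
    intro i j hij
    rw [disjoint_left]
    intro x hx hx'
    rw [mem_filter] at hx hx'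
    exact hij (hx.2.symm.trans hx'.2)
  have hA : ∀ i, ∃ A, A ⊆ K i ∧ A.card = min (K i).card S₀ ∧ ((K i).card < S₀ → A = K i) := by
    intro i
    by_cases h : (K i).card < S₀
    · exact ⟨K i, subset_rfl, by rw [min_eq_left h.le], fun _ => rfl⟩
    · push Not at h
      obtain ⟨A, hA, hAc⟩ := exists_subset_card_eq h
      exact ⟨A, hA, by rw [hAc, min_eq_right h], fun h' => absurd h' (not_lt.2 h)⟩
  choose A hAK hAc hAe using hA
  have hlarge : ∃ j, S₀ ≤ (K j).card := by
    by_contra hcon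
    push Not at hcon
    have h1 : n = ∑ i, (K i).card := by
      have := card_eq_sum_card_fiberwise (f := c) (s := (univ : Finset (Fin n)))
        (t := (univ : Finset (Fin (m + 1)))) (fun x _ => mem_univ _)
      rw [card_univ, Fintype.card_fin] at this
      exact this
    have h2 : ∑ i, (K i).card ≤ ∑ _i : Fin (m + 1), (S₀ - 1) :=
      sum_le_sum fun i _ => by have := hcon i; omega
    rw [sum_const, card_univ, Fintype.card_fin, smul_eq_mul] at h2
    omega
  refine ⟨A, ?_, ?_, ?_, ?_⟩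
  · intro i j hij
    exact disjoint_of_subset_left (hAK i) (disjoint_of_subset_right (hAK j) (hKd i j hij))
  · intro i
    rw [hAc]
    exact min_le_right _ _
  · obtain ⟨j, hj⟩ := hlarge
    exact ⟨j, by rw [hAc, min_eq_right hj]⟩
  · intro x hx
    obtain ⟨y, hy, hyu⟩ := hc x
    set i := c y with hi
    have hyK : y ∈ K i := by
      rw [mem_filter]
      exact ⟨mem_univ _, rfl⟩
    have hxA : ∀ j, x ∉ A j := by
      intro j hj
      exact (mem_compl.1 hx) (mem_biUnion.2 ⟨j, mem_univ _, hj⟩)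
    -- neighbours in `K i`
    have hnb : ∀ z ∈ A i, s(x, z) ∈ S → z = y := by
      intro z hz hzS
      have hzK := hAK i hz
      rw [mem_filter] at hzK
      refine hyu z (Or.inr ?_) hzK.2
      rw [gr_adj]
      refine ⟨hzS, ?_⟩
      rintro rfl
      exact hxA i hz
    have hle : (((univ.biUnion A).filter (fun y => s(x, y) ∈ S)) ∩ A i).card ≤ 1 := by
      rw [card_le_one]
      intro a ha b hb
      rw [mem_inter, mem_filter] at ha hb
      rw [hnb a ha.2 ha.1.2, hnb b hb.2 hb.1.2]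
    refine ⟨i, ?_⟩
    by_cases h : (K i).card < S₀
    · left
      have hAi := hAe i h
      refine ⟨by rw [hAi]; exact h, ?_⟩
      refine le_antisymm hle ?_
      have hyA : y ∈ A i := by rw [hAi]; exact hyK
      have hyx : y ≠ x := by
        rintro rfl
        exact hxA i hyA
      have hadj : s(x, y) ∈ S := by
        rcases hy with h1 | h1
        · exact absurd h1 hyx
        · exact (gr_adj.1 h1).1
      refine card_pos.2 ⟨y, ?_⟩
      rw [mem_inter, mem_filter]
      exact ⟨⟨mem_biUnion.2 ⟨i, mem_univ _, hyA⟩, hadj⟩, hyA⟩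
    · right
      push Not at h
      exact ⟨by rw [hAc, min_eq_right h], hle⟩

/-- probability that the relaxed condition holds for a set of size `s` -/
noncomputable def qt (p : ℝ) (S₀ s : ℕ) : ℝ := if s < S₀ then qs p s else (1 - p) ^ s + qs p s

lemma pr_rel (p : ℝ) (S₀ : ℕ) (A : Finset (Fin n)) (hA : A.card ≤ S₀) :
    pr p A (fun T => rel S₀ A.card T.card) = qt p S₀ A.card := by
  unfold qt rel
  by_cases h : A.card < S₀
  · rw [if_pos h, ← pr_one']
    exact pr_congr p fun T _ => by omega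
  · have h' : A.card = S₀ := by omega
    have e : pr p A (fun T => (A.card < S₀ ∧ T.card = 1) ∨ (A.card = S₀ ∧ T.card ≤ 1)) =
        pr p A (fun T => T.card ≤ 1) := pr_congr p fun T _ => by omega
    rw [if_neg h, e, pr_le_one_card]
    rfl

lemma pr_false (p : ℝ) {ι : Type*} [DecidableEq ι] (A : Finset ι) :
    pr p A (fun _ => False) = 0 := by
  rw [pr_def]; simp [ex_const]

/-- The probability for given sets. -/
lemma pr_sets {m S₀ : ℕ} (p : ℝ) (A : Fin (m + 1) → Finset (Fin n))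
    (hd : ∀ i j, i ≠ j → Disjoint (A i) (A j)) (hS : ∀ i, (A i).card ≤ S₀) :
    pr p (E n) (fun S => ∀ x ∈ (univ.biUnion A)ᶜ, ∃ i, rel S₀ (A i).card
        (((univ.biUnion A).filter (fun y => s(x, y) ∈ S)) ∩ A i).card) =
      (1 - ∏ i, (1 - qt p S₀ (A i).card)) ^ (n - ∑ i, (A i).card) := by
  classical
  set W := univ.biUnion A with hW
  have h := pr_star p W ∅ (empty_subset _) (by simp)
    (fun _ T => ∃ i, rel S₀ (A i).card (T ∩ A i).card)
  have e1 : pr p (E n) (fun S => ∀ x ∈ Wᶜ, ∃ i, rel S₀ (A i).card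
        ((W.filter (fun y => s(x, y) ∈ S)) ∩ A i).card) =
      pr p (E n) (fun S => Disjoint S ∅ ∧ ∀ x ∈ Wᶜ, ∃ i, rel S₀ (A i).card
        ((W.filter (fun y => s(x, y) ∈ S)) ∩ A i).card) :=
    pr_congr p fun S _ => by simp
  rw [e1, h, card_empty, pow_zero, one_mul, prod_const]
  have e2 : pr p W (fun T => ∃ i, rel S₀ (A i).card (T ∩ A i).card) =
      1 - ∏ i, (1 - qt p S₀ (A i).card) := by
    have h1 := pr_blocks p univ A (fun i _ j _ hij => hd i j hij) W
      (fun i hi => subset_biUnion_of_mem A hi) (fun i T => ¬ rel S₀ (A i).card T.card)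
    have h2 : ∀ i ∈ (univ : Finset (Fin (m + 1))),
        pr p (A i) (fun T => ¬ rel S₀ (A i).card T.card) = 1 - qt p S₀ (A i).card := by
      intro i _
      rw [pr_not, pr_rel p S₀ (A i) (hS i)]
    rw [prod_congr rfl h2] at h1
    rw [← h1, ← pr_not]
    refine pr_congr p fun T _ => ?_
    push Not
    simp
  have e3 : Wᶜ.card = n - ∑ i, (A i).card := by
    rw [card_compl, Fintype.card_fin, hW, card_biUnion]
    intro i _ j _ hij
    exact hd i j hij
  rw [e2, e3]

lemma qt_le_one {p : ℝ} (hp0 : 0 ≤ p) (hp1 : p ≤ 1) (S₀ s : ℕ) (hs : s ≤ S₀) :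
    0 ≤ qt p S₀ s ∧ qt p S₀ s ≤ 1 := by
  have hS : S₀ < (S₀ + 1) := by omega
  -- realise `s` as the size of a set
  have h := pr_rel (n := S₀ + 1) p S₀
    ((univ : Finset (Fin (S₀ + 1))).filter (fun i => i.val < s)) (by
      calc _ = s := by
            rw [Fin.card_filter_val_lt]
            omega
        _ ≤ S₀ := hs)
  have hc : ((univ : Finset (Fin (S₀ + 1))).filter (fun i => i.val < s)).card = s := by
    rw [Fin.card_filter_val_lt]
    omega
  rw [hc] at h
  rw [← h]
  exact ⟨pr_nonneg hp0 hp1 _ _, pr_le_one hp0 hp1 _ _⟩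

/-- The union bound over all families of small sets, with weights `φ`. -/
theorem lower_bound {m S₀ : ℕ} {p ζ : ℝ} (hp0 : 0 ≤ p) (hp1 : p ≤ 1)
    (hS : (m + 1) * (S₀ - 1) < n) (φ : ℕ → ℝ) (hφ : ∀ s, 0 ≤ φ s)
    (hsum : ∑ s ∈ range (S₀ + 1), (n.choose s : ℝ) * φ s ≤ 1) (hζ : 0 ≤ ζ)
    (hpt : ∀ s : Fin (m + 1) → ℕ, (∀ i, s i ≤ S₀) → (∃ j, s j = S₀) →
      Real.exp (-(((n : ℝ) - ∑ i, (s i : ℝ)) * ∏ i, (1 - qt p S₀ (s i)))) ≤ ζ * ∏ i, φ (s i)) :
    pr p (E n) (fun S => ∃ c : Fin n → Fin (m + 1), IsCF (gr S) c) ≤ ζ := by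
  classical
  -- the set of families
  let 𝒜 : Finset (Fin (m + 1) → Finset (Fin n)) := univ.filter (fun A =>
    (∀ i j, i ≠ j → Disjoint (A i) (A j)) ∧ (∀ i, (A i).card ≤ S₀) ∧ ∃ j, (A j).card = S₀)
  have h1 : pr p (E n) (fun S => ∃ c : Fin n → Fin (m + 1), IsCF (gr S) c) ≤
      pr p (E n) (fun S => ∃ A ∈ 𝒜, ∀ x ∈ (univ.biUnion A)ᶜ, ∃ i, rel S₀ (A i).card
        (((univ.biUnion A).filter (fun y => s(x, y) ∈ S)) ∩ A i).card) := by
    refine pr_mono hp0 hp1 fun S _ h => ?_
    obtain ⟨c, hc⟩ := h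
    obtain ⟨A, h1, h2, h3, h4⟩ := exists_sets hS hc
    exact ⟨A, mem_filter.2 ⟨mem_univ _, h1, h2, h3⟩, h4⟩
  have h2 := pr_union hp0 hp1 (E n) 𝒜 (fun A S => ∀ x ∈ (univ.biUnion A)ᶜ,
    ∃ i, rel S₀ (A i).card (((univ.biUnion A).filter (fun y => s(x, y) ∈ S)) ∩ A i).card)
  refine (h1.trans h2).trans ?_
  have h3 : ∀ A ∈ 𝒜, pr p (E n) (fun S => ∀ x ∈ (univ.biUnion A)ᶜ, ∃ i, rel S₀ (A i).card
        (((univ.biUnion A).filter (fun y => s(x, y) ∈ S)) ∩ A i).card) ≤
      ζ * ∏ i, φ (A i).card := by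
    intro A hA
    rw [mem_filter] at hA
    obtain ⟨-, hd, hc, hj⟩ := hA
    rw [pr_sets p A hd hc]
    refine le_trans ?_ (hpt (fun i => (A i).card) hc hj)
    set w := ∏ i, (1 - qt p S₀ (A i).card) with hw
    have hw0 : 0 ≤ w := prod_nonneg fun i _ => by
      linarith [(qt_le_one hp0 hp1 S₀ _ (hc i)).2]
    have hw1 : w ≤ 1 := prod_le_one (fun i _ => by
      linarith [(qt_le_one hp0 hp1 S₀ _ (hc i)).2]) (fun i _ => by
      linarith [(qt_le_one hp0 hp1 S₀ _ (hc i)).1])
    have hle : ∑ i, (A i).card ≤ n := by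
      have : (univ.biUnion A).card = ∑ i, (A i).card :=
        card_biUnion fun i _ j _ hij => hd i j hij
      rw [← this]
      have := card_le_univ (univ.biUnion A)
      rwa [Fintype.card_fin] at this
    have hcast : ((n - ∑ i, (A i).card : ℕ) : ℝ) = (n : ℝ) - ∑ i, ((A i).card : ℝ) := by
      rw [Nat.cast_sub hle]
      push_cast
      rfl
    rw [← hcast]
    calc (1 - w) ^ (n - ∑ i, (A i).card) ≤ (Real.exp (-w)) ^ (n - ∑ i, (A i).card) := by
          refine pow_le_pow_left₀ (by linarith) ?_ _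
          have := Real.add_one_le_exp (-w)
          linarith
      _ = _ := by
          rw [← Real.exp_nat_mul]
          congr 1
          ring
  refine (sum_le_sum h3).trans ?_
  have h4 : ∑ A ∈ 𝒜, ζ * ∏ i, φ (A i).card ≤
      ∑ A ∈ Fintype.piFinset (fun _ : Fin (m + 1) =>
        (univ : Finset (Finset (Fin n))).filter (fun B => B.card ≤ S₀)),
        ζ * ∏ i, φ (A i).card := by
    refine sum_le_sum_of_subset_of_nonneg ?_ ?_
    · intro A hA
      rw [mem_filter] at hA
      rw [Fintype.mem_piFinset]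
      intro i
      rw [mem_filter]
      exact ⟨mem_univ _, hA.2.2.1 i⟩
    · intro A _ _
      exact mul_nonneg hζ (prod_nonneg fun i _ => hφ _)
  refine h4.trans ?_
  rw [← mul_sum, ← prod_univ_sum (fun _ : Fin (m + 1) =>
    (univ : Finset (Finset (Fin n))).filter (fun B => B.card ≤ S₀)) (fun _ B => φ B.card)]
  have h5 : ∑ B ∈ (univ : Finset (Finset (Fin n))).filter (fun B => B.card ≤ S₀), φ B.card =
      ∑ s ∈ range (S₀ + 1), (n.choose s : ℝ) * φ s := by
    rw [← sum_fiberwise_of_maps_to (s := (univ : Finset (Finset (Fin n))).filter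
      (fun B => B.card ≤ S₀)) (t := range (S₀ + 1)) (g := fun B => B.card) (fun B hB => by
        rw [mem_filter] at hB
        rw [mem_range]
        omega)]
    refine sum_congr rfl fun s hs => ?_
    rw [mem_range] at hs
    have e : ((univ : Finset (Finset (Fin n))).filter (fun B => B.card ≤ S₀)).filter
        (fun B => B.card = s) = powersetCard s univ := by
      ext B
      rw [mem_filter, mem_filter, mem_powersetCard]
      constructor
      · rintro ⟨-, h⟩
        exact ⟨subset_univ _, h⟩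
      · rintro ⟨-, h⟩
        exact ⟨⟨mem_univ _, by omega⟩, h⟩
    rw [e]
    have : ∀ B ∈ powersetCard s (univ : Finset (Fin n)), φ B.card = φ s := by
      intro B hB
      rw [(mem_powersetCard.1 hB).2]
    rw [sum_congr rfl this, sum_const, card_powersetCard, card_univ, Fintype.card_fin,
      nsmul_eq_mul]
  rw [h5, prod_const, card_univ, Fintype.card_fin]
  have h6 : (∑ s ∈ range (S₀ + 1), (n.choose s : ℝ) * φ s) ^ (m + 1) ≤ 1 :=
    pow_le_one₀ (sum_nonneg fun s _ => mul_nonneg (Nat.cast_nonneg _) (hφ s)) hsum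
  calc ζ * (∑ s ∈ range (S₀ + 1), (n.choose s : ℝ) * φ s) ^ (m + 1) ≤ ζ * 1 :=
        mul_le_mul_of_nonneg_left h6 hζ
    _ = ζ := mul_one ζ

end Pool.Agent.CFC
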