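import Pool.Agent.CFC.System
import Pool.Agent.CFC.Count

/-! The second moment inequality. -/

namespace Pool.Agent.CFC

open Finset Pool.Agent.MD437

variable {n m : ℕ}

/-- all families with `C i ⊆ V i` of size `s i` -/
def fam (V : Fin m → Finset (Fin n)) (s : Fin m → ℕ) : Finset (Fin m → Finset (Fin n)) :=
  Fintype.piFinset (fun i => powersetCard (s i) (V i))

lemma mem_fam {V : Fin m → Finset (Fin n)} {s : Fin m → ℕ} {C : Fin m → Finset (Fin n)} :
    C ∈ fam V s ↔ ∀ i, C i ⊆ V i ∧ (C i).card = s i := by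
  unfold fam
  rw [Fintype.mem_piFinset]
  simp only [mem_powersetCard]

lemma exp_le_one_sub {w : ℝ} (h0 : 0 ≤ w) (h1 : w ≤ 1 / 4) : Real.exp (-(w + w ^ 2)) ≤ 1 - w := by
  set x := w + w ^ 2 with hx
  have hx0 : 0 ≤ x := by positivity
  have h := Real.quadratic_le_exp_of_nonneg hx0
  rw [Real.exp_neg]
  have hpos : 0 < 1 + x + x ^ 2 / 2 := by positivity
  calc (Real.exp x)⁻¹ ≤ (1 + x + x ^ 2 / 2)⁻¹ := inv_anti₀ hpos h
    _ ≤ 1 - x + x ^ 2 / 2 := by
        rw [inv_eq_one_div, div_le_iff₀ hpos]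
        nlinarith [sq_nonneg (x ^ 2)]
    _ ≤ 1 - w := by
        have h2 : x ^ 2 ≤ 2 * w ^ 2 := by
          have : x = w * (1 + w) := by rw [hx]; ring
          rw [this, mul_pow]
          have : (1 + w) ^ 2 ≤ 2 := by nlinarith
          nlinarith [sq_nonneg w]
        rw [hx] at h2 ⊢
        linarith

/-- comparison of the probabilities for one vertex -/
lemma pair_le {w w₂ : ℝ} {n σ : ℕ} (h0 : 0 ≤ w) (h1 : w ≤ 1 / 4) (hw2 : 0 ≤ w₂)
    (hv0 : 0 ≤ 1 - 2 * w + w₂) (hσ : 2 * σ ≤ n) :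
    (1 - 2 * w + w₂) ^ (n - 2 * σ) ≤ ((1 - w) ^ (n - σ)) ^ 2 *
      Real.exp (2 * σ * w + 2 * n * w ^ 2) * Real.exp (n * w₂) := by
  have hc : ((n - 2 * σ : ℕ) : ℝ) = (n : ℝ) - 2 * σ := by
    rw [Nat.cast_sub hσ]; push_cast; ring
  have hc' : ((n - σ : ℕ) : ℝ) = (n : ℝ) - σ := by
    rw [Nat.cast_sub (by omega)]
  have e1 : (1 - 2 * w + w₂) ^ (n - 2 * σ) ≤ Real.exp (-(2 * w - w₂) * (n - 2 * σ)) := by
    calc (1 - 2 * w + w₂) ^ (n - 2 * σ) ≤ (Real.exp (-(2 * w - w₂))) ^ (n - 2 * σ) := by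
          refine pow_le_pow_left₀ hv0 ?_ _
          have := Real.add_one_le_exp (-(2 * w - w₂))
          linarith
      _ = _ := by rw [← Real.exp_nat_mul, hc]; ring_nf
  have e2 : Real.exp (-2 * (w + w ^ 2) * (n - σ)) ≤ ((1 - w) ^ (n - σ)) ^ 2 := by
    calc Real.exp (-2 * (w + w ^ 2) * (n - σ)) = ((Real.exp (-(w + w ^ 2))) ^ (n - σ)) ^ 2 := by
          rw [← Real.exp_nat_mul, ← Real.exp_nat_mul, hc']
          congr 1
          push_cast
          ring
      _ ≤ _ := by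
          refine pow_le_pow_left₀ (by positivity) ?_ 2
          exact pow_le_pow_left₀ (by positivity) (exp_le_one_sub h0 h1) _
  refine e1.trans ?_
  calc Real.exp (-(2 * w - w₂) * (n - 2 * σ)) ≤
      Real.exp (-2 * (w + w ^ 2) * (n - σ) + (2 * σ * w + 2 * n * w ^ 2) + n * w₂) := by
        apply Real.exp_le_exp.2
        have hσ0 : (0 : ℝ) ≤ σ := Nat.cast_nonneg σ
        nlinarith [mul_nonneg (mul_nonneg h0 h0) hσ0, mul_nonneg hw2 hσ0]
    _ = Real.exp (-2 * (w + w ^ 2) * (n - σ)) * Real.exp (2 * σ * w + 2 * n * w ^ 2) *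
        Real.exp (n * w₂) := by rw [Real.exp_add, Real.exp_add]
    _ ≤ _ := by
        refine mul_le_mul_of_nonneg_right ?_ (by positivity)
        exact mul_le_mul_of_nonneg_right e2 (by positivity)

lemma gp_nonneg {ι : Type*} [DecidableEq ι] {p : ℝ} (hp0 : 0 ≤ p) (hp1 : p ≤ 1)
    (C C' : Finset ι) : 0 ≤ gp p C C' := pr_nonneg hp0 hp1 _ _

/-- Second moment method. -/
theorem second_moment {p D M : ℝ} (hp0 : 0 ≤ p) (hp1 : p ≤ 1) (V : Fin m → Finset (Fin n))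
    (hV : ∀ i j, i ≠ j → Disjoint (V i) (V j)) (s : Fin m → ℕ) (hne : (fam V s).Nonempty)
    (hw : ww p s ≤ 1 / 4) (hσ : 2 * ∑ i, s i ≤ n)
    (hb : 0 < (1 - p) ^ (∑ i, (s i).choose 2))
    (hD0 : 0 ≤ D) (hD : ∀ i, ∀ l ≤ s i, (1 - p) ^ (2 * (s i).choose 2 - l.choose 2) ≤
      (1 - p) ^ (2 * (s i).choose 2) * D ^ l)
    (hM : ∀ C ∈ fam V s, ∑ C' ∈ fam V s, D ^ (∑ i, (C i ∩ C' i).card) *
      Real.exp (n * ∏ i, gp p (C i) (C' i)) ≤ M * (fam V s).card) :
    pr p (E n) (fun S => ¬ ∃ C ∈ fam V s, GoodS S C) ≤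
      Real.exp (2 * ((∑ i, s i : ℕ) : ℝ) * ww p s + 2 * n * ww p s ^ 2) * M - 1 := by
  classical
  set w := ww p s with hwdef
  set σ := ∑ i, s i with hσdef
  set K := Real.exp (2 * (σ : ℝ) * w + 2 * n * w ^ 2) with hK
  have hw0 : 0 ≤ w := ww_nonneg hp0 hp1 s
  set P1 := (1 - p) ^ (∑ i, (s i).choose 2) * (1 - w) ^ (n - σ) with hP1
  have hP1pos : 0 < P1 := mul_pos hb (pow_pos (by linarith) _)
  have hdisj : ∀ C ∈ fam V s, ∀ i j, i ≠ j → Disjoint (C i) (C j) := by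
    intro C hC i j hij
    rw [mem_fam] at hC
    exact disjoint_of_subset_left (hC i).1 (disjoint_of_subset_right (hC j).1 (hV i j hij))
  have hdisj2 : ∀ C ∈ fam V s, ∀ C' ∈ fam V s, ∀ i j, i ≠ j →
      Disjoint (C i ∪ C' i) (C j ∪ C' j) := by
    intro C hC C' hC' i j hij
    rw [mem_fam] at hC hC'
    exact disjoint_of_subset_left (union_subset (hC i).1 (hC' i).1)
      (disjoint_of_subset_right (union_subset (hC j).1 (hC' j).1) (hV i j hij))
  let X : Finset (Sym2 (Fin n)) → ℝ := fun S =>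
    ∑ C ∈ fam V s, if GoodS S C then (1 : ℝ) else 0
  set T : ℝ := ((fam V s).card : ℝ) with hT
  have hTpos : 0 < T := by
    rw [hT]
    exact_mod_cast card_pos.2 hne
  have hEX : ex p (E n) X = T * P1 := by
    show ex p (E n) (fun S => ∑ C ∈ fam V s, if GoodS S C then (1 : ℝ) else 0) = T * P1
    rw [ex_sum]
    have : ∀ C ∈ fam V s, ex p (E n) (fun S => if GoodS S C then (1 : ℝ) else 0) = P1 := by
      intro C hC
      rw [← pr_def p (E n) (fun S => GoodS S C)]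
      exact pr_good p s C (hdisj C hC) (fun i => ((mem_fam.1 hC) i).2)
    rw [sum_congr rfl this, sum_const, nsmul_eq_mul]
  have hEX2 : ex p (E n) (fun S => X S ^ 2) ≤ P1 ^ 2 * K * (M * T * T) := by
    have e1 : ex p (E n) (fun S => X S ^ 2) =
        ∑ C ∈ fam V s, ∑ C' ∈ fam V s, pr p (E n) (fun S => GoodS S C ∧ GoodS S C') := by
      have : ∀ S ⊆ E n, X S ^ 2 = ∑ C ∈ fam V s, ∑ C' ∈ fam V s,
          if GoodS S C ∧ GoodS S C' then (1 : ℝ) else 0 := by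
        intro S _
        show (∑ C ∈ fam V s, if GoodS S C then (1 : ℝ) else 0) ^ 2 = _
        rw [sq, sum_mul_sum]
        refine sum_congr rfl fun C _ => sum_congr rfl fun C' _ => ?_
        by_cases h1 : GoodS S C <;> by_cases h2 : GoodS S C' <;> simp [h1, h2]
      rw [ex_congr p this, ex_sum]
      refine sum_congr rfl fun C _ => ?_
      rw [ex_sum]
      exact sum_congr rfl fun C' _ => (pr_def _ _ _).symm
    have e2 : ∀ C ∈ fam V s, ∀ C' ∈ fam V s, pr p (E n) (fun S => GoodS S C ∧ GoodS S C') ≤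
        P1 ^ 2 * K * (D ^ (∑ i, (C i ∩ C' i).card) *
          Real.exp (n * ∏ i, gp p (C i) (C' i))) := by
      intro C hC C' hC'
      obtain ⟨h1, h2, -⟩ := pr_good_pair hp0 hp1 s C C' (hdisj2 C hC C' hC')
        (fun i => ((mem_fam.1 hC) i).2) (fun i => ((mem_fam.1 hC') i).2)
      refine h1.trans ?_
      have h3 := pair_le (n := n) (σ := σ) hw0 hw
        (prod_nonneg fun i _ => gp_nonneg hp0 hp1 (C i) (C' i)) h2 hσ
      have h4 : (1 - p) ^ (∑ i, (2 * (s i).choose 2 - (C i ∩ C' i).card.choose 2)) ≤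
          ((1 - p) ^ (∑ i, (s i).choose 2)) ^ 2 * D ^ (∑ i, (C i ∩ C' i).card) := by
        rw [← prod_pow_eq_pow_sum, ← prod_pow_eq_pow_sum, ← prod_pow_eq_pow_sum, ← prod_pow,
          ← prod_mul_distrib]
        refine prod_le_prod (fun i _ => pow_nonneg (by linarith) _) fun i _ => ?_
        have hle : (C i ∩ C' i).card ≤ s i := by
          rw [← ((mem_fam.1 hC) i).2]
          exact card_le_card inter_subset_left
        have := hD i _ hle
        rw [mul_comm 2, pow_mul] at this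
        rw [mul_comm 2]
        exact this
      calc _ ≤ (((1 - p) ^ (∑ i, (s i).choose 2)) ^ 2 * D ^ (∑ i, (C i ∩ C' i).card)) *
            (((1 - w) ^ (n - σ)) ^ 2 * K * Real.exp (n * ∏ i, gp p (C i) (C' i))) :=
            mul_le_mul h4 h3 (pow_nonneg h2 _) (by positivity)
        _ = _ := by rw [hP1]; ring
    rw [e1]
    calc ∑ C ∈ fam V s, ∑ C' ∈ fam V s, pr p (E n) (fun S => GoodS S C ∧ GoodS S C') ≤
        ∑ C ∈ fam V s, ∑ C' ∈ fam V s, P1 ^ 2 * K * (D ^ (∑ i, (C i ∩ C' i).card) *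
          Real.exp (n * ∏ i, gp p (C i) (C' i))) :=
          sum_le_sum fun C hC => sum_le_sum fun C' hC' => e2 C hC C' hC'
      _ ≤ ∑ C ∈ fam V s, P1 ^ 2 * K * (M * T) := by
          refine sum_le_sum fun C hC => ?_
          rw [← mul_sum]
          exact mul_le_mul_of_nonneg_left (hM C hC) (by positivity)
      _ = _ := by
          rw [sum_const, nsmul_eq_mul]
          ring
  -- Chebyshev
  have hcheb : (T * P1) ^ 2 * pr p (E n) (fun S => ¬ ∃ C ∈ fam V s, GoodS S C) ≤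
      ex p (E n) (fun S => X S ^ 2) - (T * P1) ^ 2 := by
    have h1 : ex p (E n) (fun S => X S ^ 2) - (T * P1) ^ 2 =
        ex p (E n) (fun S => (X S - T * P1) ^ 2) := by
      have : ex p (E n) (fun S => (X S - T * P1) ^ 2) =
          ex p (E n) (fun S => (X S ^ 2 - (2 * (T * P1)) * X S) + (T * P1) ^ 2) :=
        ex_congr p fun S _ => by ring
      rw [this, ex_add, ex_sub, ex_mul_left, ex_const, hEX]
      ring
    rw [h1, pr_def, ← ex_mul_left]
    refine ex_mono hp0 hp1 fun S _ => ?_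
    by_cases h : ∃ C ∈ fam V s, GoodS S C
    · rw [if_neg (not_not.2 h), mul_zero]
      exact sq_nonneg _
    · rw [if_pos h, mul_one]
      have : X S = 0 := by
        show (∑ C ∈ fam V s, if GoodS S C then (1 : ℝ) else 0) = 0
        refine sum_eq_zero fun C hC => if_neg fun hg => h ⟨C, hC, hg⟩
      rw [this]
      apply le_of_eq
      ring
  have hpos : 0 < (T * P1) ^ 2 := by positivity
  have hfin : (T * P1) ^ 2 * pr p (E n) (fun S => ¬ ∃ C ∈ fam V s, GoodS S C) ≤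
      (T * P1) ^ 2 * (K * M - 1) := by
    calc _ ≤ P1 ^ 2 * K * (M * T * T) - (T * P1) ^ 2 := by linarith
      _ = _ := by ring
  exact le_of_mul_le_mul_left hfin hpos

lemma fam_card (V : Fin m → Finset (Fin n)) (s : Fin m → ℕ) :
    (fam V s).card = ∏ i, (powersetCard (s i) (V i)).card := by
  unfold fam
  rw [Fintype.card_piFinset]

/-- exponential moment of the total intersection -/
lemma sum_fam_pow (V : Fin m → Finset (Fin n)) (s : Fin m → ℕ) {N : ℕ} (hN : 0 < N)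
    (hV : ∀ i, (V i).card = N) (hs : ∀ i, s i ≤ N) {C : Fin m → Finset (Fin n)}
    (hC : C ∈ fam V s) {y : ℝ} (hy : 1 ≤ y) :
    ∑ C' ∈ fam V s, y ^ (∑ i, (C i ∩ C' i).card) ≤
      ((fam V s).card : ℝ) * Real.exp (y * (∑ i, (s i : ℝ) ^ 2) / N) := by
  classical
  have h1 : ∑ C' ∈ fam V s, y ^ (∑ i, (C i ∩ C' i).card) =
      ∏ i, ∑ B ∈ powersetCard (s i) (V i), y ^ (C i ∩ B).card := by
    rw [prod_univ_sum]
    refine sum_congr rfl fun C' _ => ?_
    rw [← prod_pow_eq_pow_sum]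
  rw [h1, fam_card]
  have h2 : ∀ i ∈ (univ : Finset (Fin m)), ∑ B ∈ powersetCard (s i) (V i), y ^ (C i ∩ B).card ≤
      ((powersetCard (s i) (V i)).card : ℝ) * Real.exp (y * (s i : ℝ) ^ 2 / N) := by
    intro i _
    have := sum_pow_inter (V i) (C i) ((mem_fam.1 hC) i).1 (s i) (by rw [hV i]; exact hs i)
      (by rw [hV i]; exact hN) ((mem_fam.1 hC) i).2 hy
    rwa [hV i] at this
  refine (prod_le_prod (fun i _ => sum_nonneg fun B _ => pow_nonneg (by linarith) _) h2).trans ?_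
  rw [prod_mul_distrib, ← Real.exp_sum]
  push_cast
  refine le_of_eq ?_
  congr 2
  rw [mul_sum, sum_div]

/-- The bound for `M`. -/
lemma M_bound {p D y τ : ℝ} (V : Fin m → Finset (Fin n))
    (s : Fin m → ℕ) {N : ℕ} (hN : 0 < N) (hV : ∀ i, (V i).card = N) (hs : ∀ i, s i ≤ N)
    (hD : 1 ≤ D) (hy : 1 ≤ y) (ℓ₀ : ℕ) (Ω : ℕ → ℝ) {C : Fin m → Finset (Fin n)}
    (hC : C ∈ fam V s)
    (h1 : ∀ C' ∈ fam V s, (∑ i, (C i ∩ C' i).card) < ℓ₀ →
      (n : ℝ) * ∏ i, gp p (C i) (C' i) ≤ τ)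
    (h2 : ∀ C' ∈ fam V s, ℓ₀ ≤ (∑ i, (C i ∩ C' i).card) →
      (n : ℝ) * ∏ i, gp p (C i) (C' i) ≤ Ω (∑ i, (C i ∩ C' i).card)) :
    ∑ C' ∈ fam V s, D ^ (∑ i, (C i ∩ C' i).card) *
      Real.exp (n * ∏ i, gp p (C i) (C' i)) ≤
      (Real.exp τ * Real.exp (D * (∑ i, (s i : ℝ) ^ 2) / N) +
        ∑ ℓ ∈ Icc ℓ₀ (∑ i, s i), (D / y) ^ ℓ * Real.exp (Ω ℓ) *
          Real.exp (y * (∑ i, (s i : ℝ) ^ 2) / N)) * (fam V s).card := by
  classical
  have hy0 : 0 < y := by linarith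
  have hD0 : 0 < D := by linarith
  have h3 : ∀ C' ∈ fam V s, D ^ (∑ i, (C i ∩ C' i).card) *
      Real.exp (n * ∏ i, gp p (C i) (C' i)) ≤
      Real.exp τ * D ^ (∑ i, (C i ∩ C' i).card) +
        ∑ ℓ ∈ Icc ℓ₀ (∑ i, s i), ((D / y) ^ ℓ * Real.exp (Ω ℓ)) *
          y ^ (∑ i, (C i ∩ C' i).card) := by
    intro C' hC'
    set L := ∑ i, (C i ∩ C' i).card with hL
    have hLs : L ≤ ∑ i, s i := by
      rw [hL]
      refine sum_le_sum fun i _ => ?_
      rw [← ((mem_fam.1 hC) i).2]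
      exact card_le_card inter_subset_left
    by_cases hlt : L < ℓ₀
    · have e1 : D ^ L * Real.exp (n * ∏ i, gp p (C i) (C' i)) ≤ Real.exp τ * D ^ L := by
        rw [mul_comm]
        exact mul_le_mul_of_nonneg_right (Real.exp_le_exp.2 (h1 C' hC' hlt)) (by positivity)
      have e2 : 0 ≤ ∑ ℓ ∈ Icc ℓ₀ (∑ i, s i), ((D / y) ^ ℓ * Real.exp (Ω ℓ)) * y ^ L :=
        sum_nonneg fun ℓ _ => by positivity
      linarith
    · push Not at hlt
      have e1 : D ^ L * Real.exp (n * ∏ i, gp p (C i) (C' i)) ≤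
          ((D / y) ^ L * Real.exp (Ω L)) * y ^ L := by
        have : ((D / y) ^ L * Real.exp (Ω L)) * y ^ L = D ^ L * Real.exp (Ω L) := by
          rw [div_pow]
          field_simp
        rw [this]
        exact mul_le_mul_of_nonneg_left (Real.exp_le_exp.2 (h2 C' hC' hlt)) (by positivity)
      have e2 : ((D / y) ^ L * Real.exp (Ω L)) * y ^ L ≤
          ∑ ℓ ∈ Icc ℓ₀ (∑ i, s i), ((D / y) ^ ℓ * Real.exp (Ω ℓ)) * y ^ L :=
        single_le_sum (f := fun ℓ => ((D / y) ^ ℓ * Real.exp (Ω ℓ)) * y ^ L)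
          (fun ℓ _ => by positivity) (mem_Icc.2 ⟨hlt, hLs⟩)
      have e3 : 0 ≤ Real.exp τ * D ^ L := by positivity
      linarith
  refine (sum_le_sum h3).trans ?_
  rw [sum_add_distrib, ← mul_sum, sum_comm, add_mul]
  refine add_le_add ?_ ?_
  · have := sum_fam_pow V s hN hV hs hC hD
    calc Real.exp τ * ∑ C' ∈ fam V s, D ^ (∑ i, (C i ∩ C' i).card) ≤
        Real.exp τ * (((fam V s).card : ℝ) * Real.exp (D * (∑ i, (s i : ℝ) ^ 2) / N)) :=
          mul_le_mul_of_nonneg_left this (by positivity)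
      _ = _ := by ring
  · rw [sum_mul]
    refine sum_le_sum fun ℓ _ => ?_
    rw [← mul_sum]
    have := sum_fam_pow V s hN hV hs hC hy
    calc ((D / y) ^ ℓ * Real.exp (Ω ℓ)) * ∑ C' ∈ fam V s, y ^ (∑ i, (C i ∩ C' i).card) ≤
        ((D / y) ^ ℓ * Real.exp (Ω ℓ)) *
          (((fam V s).card : ℝ) * Real.exp (y * (∑ i, (s i : ℝ) ^ 2) / N)) :=
          mul_le_mul_of_nonneg_left this (by positivity)
      _ = _ := by ring

end Pool.Agent.CFC
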