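import Pool.Agent.CFC.Basic
import Pool.Agent.CFC.Second

/-! The upper bound for `0 < p ≤ 7/8`. -/

namespace Pool.Agent.CFC

open Finset Pool.Agent.MD437

lemma exists_V (n m N : ℕ) (h : m * N ≤ n) : ∃ V : Fin m → Finset (Fin n),
    (∀ i j, i ≠ j → Disjoint (V i) (V j)) ∧ ∀ i, (V i).card = N := by
  have hc : Fintype.card (Fin m × Fin N) ≤ Fintype.card (Fin n) := by simpa using h
  obtain ⟨e⟩ := Function.Embedding.nonempty_of_card_le hc
  refine ⟨fun i => univ.map ⟨fun j => e (i, j), fun a b hab => by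
    have := e.injective hab
    exact (Prod.ext_iff.1 this).2⟩, ?_, ?_⟩
  · intro i j hij
    rw [disjoint_left]
    intro x hx hx'
    rw [mem_map] at hx hx'
    obtain ⟨a, -, ha⟩ := hx
    obtain ⟨b, -, hb⟩ := hx'
    have := e.injective (ha.trans hb.symm)
    exact hij (Prod.ext_iff.1 this).1
  · intro i
    rw [card_map, card_univ, Fintype.card_fin]

variable {n m : ℕ} {p : ℝ}

/-- first pair bound -/
lemma pairA₁ (h0 : 0 < p) (h1 : p ≤ 7 / 8) (V : Fin m → Finset (Fin n)) (s : Fin m → ℕ)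
    (hs : ∀ i, (s i : ℝ) * p ≤ 11) {C C' : Fin m → Finset (Fin n)} (hC : C ∈ fam V s)
    (hC' : C' ∈ fam V s) :
    ∏ i, gp p (C i) (C' i) ≤ ww p s ^ 2 *
      Real.exp (18432 * p * ((∑ i, (C i ∩ C' i).card : ℕ) : ℝ)) := by
  have hp1 : p ≤ 1 := by linarith
  have h2 : ∀ i, gp p (C i) (C' i) ≤
      (1 - qs p (s i)) ^ 2 * Real.exp (18432 * p * ((C i ∩ C' i).card : ℝ)) := by
    intro i
    have e1 := ((mem_fam.1 hC) i).2
    have e2 := ((mem_fam.1 hC') i).2
    have h3 := gp_le₁ h0.le hp1 (C i) (C' i) (e1.trans e2.symm)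
    rw [e1] at h3
    have h4 := qs_ub h0 h1 (hs i)
    set u := 1 - qs p (s i) with hu
    set l : ℝ := ((C i ∩ C' i).card : ℝ) with hl
    have hl0 : 0 ≤ l := Nat.cast_nonneg _
    have h5 : (1 : ℝ) / 9216 ≤ u ^ 2 := by
      calc (1 : ℝ) / 9216 = (1 / 96) ^ 2 := by norm_num
        _ ≤ u ^ 2 := pow_le_pow_left₀ (by norm_num) h4 2
    have h6 := Real.add_one_le_exp (18432 * p * l)
    have h7 : 0 ≤ p * l := by positivity
    calc gp p (C i) (C' i) ≤ u ^ 2 + 2 * l * p := h3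
      _ ≤ u ^ 2 * (18432 * p * l + 1) := by nlinarith
      _ ≤ _ := mul_le_mul_of_nonneg_left h6 (sq_nonneg u)
  calc ∏ i, gp p (C i) (C' i) ≤
      ∏ i, ((1 - qs p (s i)) ^ 2 * Real.exp (18432 * p * ((C i ∩ C' i).card : ℝ))) :=
        prod_le_prod (fun i _ => gp_nonneg h0.le hp1 _ _) fun i _ => h2 i
    _ = _ := by
        rw [prod_mul_distrib, prod_pow, ← Real.exp_sum, ← mul_sum]
        push_cast
        rfl

/-- second pair bound -/
lemma pairA₂ (h0 : 0 < p) (h1 : p ≤ 7 / 8) (V : Fin m → Finset (Fin n)) (s : Fin m → ℕ)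
    (hs : ∀ i, (s i : ℝ) * p ≤ 11) {C C' : Fin m → Finset (Fin n)} (hC : C ∈ fam V s)
    (hC' : C' ∈ fam V s) :
    ∏ i, gp p (C i) (C' i) ≤ ww p s *
      Real.exp (-(Real.exp (-176) * (p * ((∑ i, (s i : ℝ)) -
        ((∑ i, (C i ∩ C' i).card : ℕ) : ℝ))))) := by
  have hp1 : p ≤ 1 := by linarith
  have h2 : ∀ i, gp p (C i) (C' i) ≤ (1 - qs p (s i)) *
      Real.exp (-(Real.exp (-176) * (p * ((s i : ℝ) - ((C i ∩ C' i).card : ℝ))))) := by
    intro i
    have e1 := ((mem_fam.1 hC) i).2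
    have e2 := ((mem_fam.1 hC') i).2
    have h3 := gp_le₂ h0.le hp1 (C i) (C' i)
    rw [e1] at h3
    have hcard : ((C' i \ C i).card : ℝ) = (s i : ℝ) - ((C i ∩ C' i).card : ℝ) := by
      have := card_sdiff_add_card_inter (C' i) (C i)
      rw [e2, inter_comm] at this
      have h' : ((C' i \ C i).card : ℝ) + ((C i ∩ C' i).card : ℝ) = (s i : ℝ) := by
        exact_mod_cast this
      linarith
    set t := (C' i \ C i).card with ht
    have hts : t ≤ s i := by rw [← e2]; exact card_le_card sdiff_subset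
    rw [← hcard]
    have h4 := qs_ub h0 h1 (hs i)
    have h5 := qs_nonneg h0.le hp1 (s i)
    have hq : 0 < 1 - p := by linarith
    have h6 : Real.exp (-176) ≤ (1 - p) ^ (s i) * (1 - p) ^ (t - 1) := by
      rw [← pow_add]
      calc Real.exp (-176) ≤ Real.exp (((2 * s i : ℕ) : ℝ) * (-(8 * p))) := by
            apply Real.exp_le_exp.2
            push_cast
            have := hs i
            nlinarith
        _ = (Real.exp (-(8 * p))) ^ (2 * s i) := by rw [← Real.exp_nat_mul]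
        _ ≤ (1 - p) ^ (2 * s i) := pow_le_pow_left₀ (by positivity) (one_sub_ge h0 h1) _
        _ ≤ (1 - p) ^ (s i + (t - 1)) := pow_le_pow_of_le_one hq.le (by linarith) (by omega)
    set c := Real.exp (-176) with hc
    have hc0 : 0 < c := Real.exp_pos _
    have ht0 : (0 : ℝ) ≤ t := Nat.cast_nonneg _
    have h7 : c * (p * t) ≤ (1 - p) ^ (s i) * qs p t := by
      unfold qs
      calc c * (p * t) ≤ ((1 - p) ^ (s i) * (1 - p) ^ (t - 1)) * (p * t) :=
            mul_le_mul_of_nonneg_right h6 (by positivity)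
        _ = _ := by ring
    have h8 : 1 - c * (p * t) ≤ Real.exp (-(c * (p * t))) := by
      have := Real.add_one_le_exp (-(c * (p * t)))
      linarith
    set u := 1 - qs p (s i) with hu
    have hu0 : 0 ≤ u := by linarith
    have hu1 : u ≤ 1 := by linarith
    calc gp p (C i) (C' i) ≤ u - (1 - p) ^ (s i) * qs p t := h3
      _ ≤ u - c * (p * t) := by linarith
      _ ≤ u * (1 - c * (p * t)) := by
          have : 0 ≤ c * (p * t) := by positivity
          nlinarith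
      _ ≤ _ := mul_le_mul_of_nonneg_left h8 hu0
  calc ∏ i, gp p (C i) (C' i) ≤ ∏ i, ((1 - qs p (s i)) *
      Real.exp (-(Real.exp (-176) * (p * ((s i : ℝ) - ((C i ∩ C' i).card : ℝ)))))) :=
        prod_le_prod (fun i _ => gp_nonneg h0.le hp1 _ _) fun i _ => h2 i
    _ = _ := by
        rw [prod_mul_distrib, ← Real.exp_sum, sum_neg_distrib, ← mul_sum, ← mul_sum,
          sum_sub_distrib]
        push_cast
        rfl

lemma D_bound (h0 : 0 < p) (h1 : p ≤ 7 / 8) {s l : ℕ} (hs : (s : ℝ) * p ≤ 11) (hl : l ≤ s) :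
    (1 - p) ^ (2 * s.choose 2 - l.choose 2) ≤ (1 - p) ^ (2 * s.choose 2) * Real.exp 44 ^ l := by
  have hq : 0 < 1 - p := by linarith
  have hc : l.choose 2 ≤ s.choose 2 := Nat.choose_le_choose 2 hl
  have e1 : (1 - p) ^ (2 * s.choose 2) =
      (1 - p) ^ (2 * s.choose 2 - l.choose 2) * (1 - p) ^ (l.choose 2) := by
    rw [← pow_add]
    congr 1
    omega
  have h2 : 1 ≤ (1 - p) ^ (l.choose 2) * Real.exp 44 ^ l := by
    have h3 : (l.choose 2 : ℝ) ≤ (l : ℝ) * s / 2 := by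
      rw [Nat.cast_choose_two]
      have : (l : ℝ) ≤ s := by exact_mod_cast hl
      have h0' : (0 : ℝ) ≤ l := Nat.cast_nonneg _
      nlinarith
    calc (1 : ℝ) = Real.exp 0 := Real.exp_zero.symm
      _ ≤ Real.exp (((l.choose 2 : ℕ) : ℝ) * (-(8 * p)) + (l : ℝ) * 44) := by
          apply Real.exp_le_exp.2
          have h0' : (0 : ℝ) ≤ l := Nat.cast_nonneg _
          have h4 : (l.choose 2 : ℝ) * p ≤ (l : ℝ) * 11 / 2 := by
            calc (l.choose 2 : ℝ) * p ≤ ((l : ℝ) * s / 2) * p :=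
                  mul_le_mul_of_nonneg_right h3 h0.le
              _ = (l : ℝ) * (s * p) / 2 := by ring
              _ ≤ _ := by nlinarith
          nlinarith
      _ = (Real.exp (-(8 * p))) ^ (l.choose 2) * Real.exp 44 ^ l := by
          rw [Real.exp_add, Real.exp_nat_mul, Real.exp_nat_mul]
      _ ≤ _ := by
          refine mul_le_mul_of_nonneg_right ?_ (by positivity)
          exact pow_le_pow_left₀ (by positivity) (one_sub_ge h0 h1) _
  rw [e1, mul_assoc]
  calc (1 - p) ^ (2 * s.choose 2 - l.choose 2) =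
      (1 - p) ^ (2 * s.choose 2 - l.choose 2) * 1 := (mul_one _).symm
    _ ≤ _ := mul_le_mul_of_nonneg_left h2 (by positivity)

/-- the exponent of one term of the tail -/
lemma tail_term {c Λ r σ ℓ nw E : ℝ} (hc : 0 < c) (hc' : c ≤ 1 / 16) (hσ : 0 ≤ σ)
    (hr : 0 ≤ r) (hΛ : r + 1 + 1 / c ≤ Λ / 32) (hnw0 : 0 ≤ nw) (hnw : nw ≤ 11 / 12 * σ * Λ)
    (hE0 : 0 ≤ E) (hE1 : E ≤ 1) (hℓ : c * σ ≤ ℓ)
    (hE : ℓ < 47 / 48 * σ → E ≤ c / 4) :
    -(Λ - r) * ℓ + nw * E + σ ≤ -(c / 4 * σ * Λ) := by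
  have hcinv : 0 < 1 / c := by positivity
  have hΛ0 : 0 ≤ Λ := by linarith
  have ha : 0 ≤ Λ - r := by linarith
  have hσΛ : 0 ≤ σ * Λ := mul_nonneg hσ hΛ0
  by_cases hA : 47 / 48 * σ ≤ ℓ
  · have h1 : nw * E ≤ 11 / 12 * σ * Λ := by
      calc nw * E ≤ nw * 1 := mul_le_mul_of_nonneg_left hE1 hnw0
        _ ≤ _ := by linarith
    have h2 : (Λ - r) * (47 / 48 * σ) ≤ (Λ - r) * ℓ := mul_le_mul_of_nonneg_left hA ha
    have h3 : r * σ + σ ≤ Λ / 32 * σ := by
      have : (r + 1) * σ ≤ Λ / 32 * σ := mul_le_mul_of_nonneg_right (by linarith) hσ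
      linarith
    have h4 : c / 4 * σ * Λ ≤ 1 / 64 * (σ * Λ) := by
      have : c / 4 * (σ * Λ) ≤ 1 / 64 * (σ * Λ) := mul_le_mul_of_nonneg_right (by linarith) hσΛ
      linarith
    have h5 : 0 ≤ r * σ := mul_nonneg hr hσ
    have e1 : (Λ - r) * (47 / 48 * σ) = 47 / 48 * (σ * Λ) - 47 / 48 * (r * σ) := by ring
    have e2 : -(Λ - r) * ℓ = -((Λ - r) * ℓ) := by ring
    have e3 : Λ / 32 * σ = 1 / 32 * (σ * Λ) := by ring
    have e4 : 11 / 12 * σ * Λ = 11 / 12 * (σ * Λ) := by ring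
    rw [e1] at h2
    rw [e3] at h3
    rw [e4] at h1
    rw [e2]
    linarith
  · push Not at hA
    have h1 : nw * E ≤ c / 4 * (σ * Λ) := by
      calc nw * E ≤ (11 / 12 * σ * Λ) * (c / 4) :=
            mul_le_mul hnw (hE hA) hE0 (by
              have : 11 / 12 * σ * Λ = 11 / 12 * (σ * Λ) := by ring
              rw [this]
              linarith)
        _ = 11 / 12 * (c / 4 * (σ * Λ)) := by ring
        _ ≤ _ := by
            have : 0 ≤ c / 4 * (σ * Λ) := mul_nonneg (by linarith) hσΛ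
            linarith
    have h2 : (Λ - r) * (c * σ) ≤ (Λ - r) * ℓ := mul_le_mul_of_nonneg_left hℓ ha
    have h3 : c * r + 1 ≤ c * (Λ / 32) := by
      have : c * (r + 1 + 1 / c) ≤ c * (Λ / 32) := mul_le_mul_of_nonneg_left hΛ hc.le
      have h4 : c * (1 / c) = 1 := by field_simp
      have h5 : c * (r + 1 + 1 / c) = c * r + c + c * (1 / c) := by ring
      rw [h5, h4] at this
      linarith
    have h4 : (c * r + 1) * σ ≤ c * (Λ / 32) * σ := mul_le_mul_of_nonneg_right h3 hσ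
    have h5 : 0 ≤ c * (σ * Λ) := mul_nonneg hc.le hσΛ
    have e1 : (Λ - r) * (c * σ) = c * (σ * Λ) - c * r * σ := by ring
    have e2 : -(Λ - r) * ℓ = -((Λ - r) * ℓ) := by ring
    have e3 : c * (Λ / 32) * σ = 1 / 32 * (c * (σ * Λ)) := by ring
    have e4 : (c * r + 1) * σ = c * r * σ + σ := by ring
    have e5 : c / 4 * σ * Λ = 1 / 4 * (c * (σ * Λ)) := by ring
    have e6 : c / 4 * (σ * Λ) = 1 / 4 * (c * (σ * Λ)) := by ring
    rw [e1] at h2
    rw [e3, e4] at h4
    rw [e6] at h1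
    rw [e2, e5]
    linarith

/-- There is a conflict-free colouring with `m + 1` colours. -/
theorem upper_A {θ c : ℝ} (h0 : 0 < p) (h1 : p ≤ 7 / 8) (hm : 1 ≤ m) (s : Fin m → ℕ)
    (hs : ∀ i, kk p ≤ s i ∧ s i ≤ SS p)
    (hUC : (n : ℝ) * ww p s ≤ 11 / 12 * (∑ i, (s i : ℝ)) * Real.log (n * p))
    (hc : 0 < c) (hc' : c ≤ 1 / 16) (H2 : 4 * (m * SS p) ≤ n)
    (H3 : 4 * ((m : ℝ) * SS p) ^ 2 * Real.log (n * p) ^ 2 ≤ θ * n)
    (H4 : ((m : ℝ) * SS p) ^ 2 * Real.log (n * p) ^ 2 * Real.exp (202752 * c * m) ≤ θ * n)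
    (H5 : 2 * Real.exp 44 * ((m : ℝ) * SS p) ^ 2 ≤ θ * n)
    (H6 : 4 * ((m : ℝ) * SS p * Real.log (n * p)) ≤ n)
    (H7 : 46 + Real.log (22 * m) + 1 / c ≤ Real.log (n * p) / 32)
    (H8 : Real.exp (-(Real.exp (-176) * (m / 96))) ≤ c / 4)
    (H9 : Real.exp (1 - c / 4 * Real.log (n * p)) ≤ θ) :
    pr p (E n) (fun S => ¬ ∃ c : Fin n → Fin (m + 1), IsCF (gr S) c) ≤
      Real.exp θ * (Real.exp (2 * θ) + θ) - 1 := by
  classical
  have hp1 : p ≤ 1 := by linarith
  set Λ := Real.log (n * p) with hΛd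
  set S := SS p with hS
  set k := kk p with hk
  have hkS : k < S := kk_lt_SS h0
  have hk1 : 1 ≤ k := kk_pos h0 h1
  have hm' : (1 : ℝ) ≤ m := by exact_mod_cast hm
  have hS1 : (1 : ℝ) ≤ S := by exact_mod_cast (by omega : 1 ≤ S)
  have hSp : (S : ℝ) * p ≤ 11 := SS_ub h0 hp1
  have hn : 0 < n := by
    have : 1 ≤ m * S := Nat.mul_pos hm (by omega)
    omega
  have hn' : (0 : ℝ) < n := by exact_mod_cast hn
  have hlogm : 0 ≤ Real.log (22 * m) := Real.log_nonneg (by linarith)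
  have hcinv : 0 < 1 / c := by positivity
  have hΛ32 : 46 * 32 ≤ Λ := by linarith
  set σ := ∑ i, s i with hσ
  have hσr : ((σ : ℕ) : ℝ) = ∑ i, (s i : ℝ) := by rw [hσ]; push_cast; rfl
  rw [← hσr] at hUC
  set w := ww p s with hw
  have hw0 : 0 ≤ w := ww_nonneg h0.le hp1 s
  have hσB : (σ : ℝ) ≤ (m : ℝ) * S := by
    rw [hσr]
    calc ∑ i, (s i : ℝ) ≤ ∑ _i : Fin m, (S : ℝ) :=
          sum_le_sum fun i _ => by exact_mod_cast (hs i).2
      _ = _ := by rw [sum_const, card_univ, Fintype.card_fin, nsmul_eq_mul]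
  have hσk : (m : ℝ) * k ≤ σ := by
    rw [hσr]
    calc (m : ℝ) * k = ∑ _i : Fin m, (k : ℝ) := by
          rw [sum_const, card_univ, Fintype.card_fin, nsmul_eq_mul]
      _ ≤ _ := sum_le_sum fun i _ => by exact_mod_cast (hs i).1
  have hσ1 : (1 : ℝ) ≤ σ := by
    have hk1' : (1 : ℝ) ≤ k := by exact_mod_cast hk1
    calc (1 : ℝ) = 1 * 1 := (one_mul 1).symm
      _ ≤ (m : ℝ) * k := mul_le_mul hm' hk1' zero_le_one (by linarith)
      _ ≤ σ := hσk
  set B := (m : ℝ) * S with hB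
  have hB0 : 0 < B := by positivity
  have hnw : n * w ≤ B * Λ := by
    have h3 : σ * Λ ≤ B * Λ := mul_le_mul_of_nonneg_right hσB (by linarith)
    have h4 : 0 ≤ σ * Λ := mul_nonneg (by linarith) (by linarith)
    have h5 : 11 / 12 * (σ : ℝ) * Λ = 11 / 12 * (σ * Λ) := by ring
    linarith
  have hnw0 : 0 ≤ n * w := by positivity
  -- the sets
  set N := n / m with hN
  have hmN : m * N ≤ n := Nat.mul_div_le n m
  have hSN : S ≤ N := by
    rw [hN, Nat.le_div_iff_mul_le (by omega)]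
    have : S * m = m * S := mul_comm _ _
    omega
  have hNpos : 0 < N := by omega
  have hN' : (0 : ℝ) < N := by exact_mod_cast hNpos
  obtain ⟨V, hVd, hVc⟩ := exists_V n m N hmN
  have hNlow : (n : ℝ) ≤ 2 * m * N := by
    have h2 : n < m * (N + 1) := by
      rw [hN]
      exact Nat.lt_mul_div_succ n (by omega)
    have h3 : (n : ℝ) < m * (N + 1) := by exact_mod_cast h2
    have h4 : (1 : ℝ) ≤ N := by exact_mod_cast hNpos
    have h5 : (m : ℝ) * 1 ≤ m * N := mul_le_mul_of_nonneg_left h4 (by linarith)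
    linarith
  have hSNr : (S : ℝ) / N ≤ 2 * B / n := by
    rw [div_le_div_iff₀ hN' hn']
    calc (S : ℝ) * n ≤ S * (2 * m * N) := mul_le_mul_of_nonneg_left hNlow (by linarith)
      _ = _ := by rw [hB]; ring
  have hne : (fam V s).Nonempty := by
    have : ∀ i, (powersetCard (s i) (V i)).Nonempty := fun i => by
      rw [powersetCard_nonempty, hVc i]
      exact (hs i).2.trans hSN
    choose C hC using this
    exact ⟨C, Fintype.mem_piFinset.2 hC⟩
  have hsp : ∀ i, (s i : ℝ) * p ≤ 11 := by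
    intro i
    have h3 : (s i : ℝ) ≤ S := by exact_mod_cast (hs i).2
    exact (mul_le_mul_of_nonneg_right h3 h0.le).trans hSp
  have hsqsum : ∑ i, (s i : ℝ) ^ 2 ≤ S * σ := by
    rw [hσr, mul_sum]
    refine sum_le_sum fun i _ => ?_
    have h3 : (s i : ℝ) ≤ S := by exact_mod_cast (hs i).2
    have h0' : (0 : ℝ) ≤ s i := Nat.cast_nonneg _
    rw [sq]
    exact mul_le_mul_of_nonneg_right h3 h0'
  have hsq0 : 0 ≤ ∑ i, (s i : ℝ) ^ 2 := sum_nonneg fun i _ => sq_nonneg _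
  -- parameters
  set y : ℝ := (N : ℝ) / S with hy
  have hy1 : 1 ≤ y := by
    rw [hy, le_div_iff₀ (by linarith), one_mul]
    exact_mod_cast hSN
  have hD1 : (1 : ℝ) ≤ Real.exp 44 := Real.one_le_exp (by norm_num)
  set ℓ₀ := ⌈c * σ⌉₊ with hℓ₀
  set τ := (n : ℝ) * w ^ 2 * Real.exp (202752 * c * m) with hτ
  let Ω : ℕ → ℝ := fun ℓ => n * w * Real.exp (-(Real.exp (-176) * (p * ((σ : ℝ) - ℓ))))
  have hσp : p * σ ≤ 11 * m := by
    have h3 : p * σ ≤ p * B := mul_le_mul_of_nonneg_left hσB h0.le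
    have h2 : p * B = m * (S * p) := by rw [hB]; ring
    have h4 : (m : ℝ) * (S * p) ≤ m * 11 := mul_le_mul_of_nonneg_left hSp (by linarith)
    linarith
  have hM : ∀ C ∈ fam V s, ∑ C' ∈ fam V s, Real.exp 44 ^ (∑ i, (C i ∩ C' i).card) *
      Real.exp (n * ∏ i, gp p (C i) (C' i)) ≤ _ := fun C hC =>
    M_bound V s hNpos hVc (fun i => (hs i).2.trans hSN) hD1 hy1 ℓ₀ Ω (τ := τ) hC
      (fun C' hC' hlt => by
        have h2 := pairA₁ h0 h1 V s hsp hC hC'
        rw [← hw] at h2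
        set L := ∑ i, (C i ∩ C' i).card with hL
        have h3 : (L : ℝ) < c * σ := Nat.lt_ceil.1 hlt
        have h4 : 18432 * p * (L : ℝ) ≤ 202752 * c * m := by
          have h5 : p * (L : ℝ) ≤ p * (c * σ) := mul_le_mul_of_nonneg_left h3.le h0.le
          have h6 : c * (p * σ) ≤ c * (11 * m) := mul_le_mul_of_nonneg_left hσp hc.le
          have h7 : p * (c * σ) = c * (p * σ) := by ring
          have h8 : 18432 * p * (L : ℝ) = 18432 * (p * L) := by ring
          linarith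
        calc (n : ℝ) * ∏ i, gp p (C i) (C' i) ≤
            n * (w ^ 2 * Real.exp (18432 * p * (L : ℝ))) :=
              mul_le_mul_of_nonneg_left h2 hn'.le
          _ ≤ n * (w ^ 2 * Real.exp (202752 * c * m)) := by
              refine mul_le_mul_of_nonneg_left ?_ hn'.le
              exact mul_le_mul_of_nonneg_left (Real.exp_le_exp.2 h4) (sq_nonneg w)
          _ = τ := by rw [hτ]; ring)
      (fun C' hC' _ => by
        have h2 := pairA₂ h0 h1 V s hsp hC hC'
        rw [← hw, ← hσr] at h2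
        show (n : ℝ) * ∏ i, gp p (C i) (C' i) ≤ n * w *
          Real.exp (-(Real.exp (-176) * (p * ((σ : ℝ) - ((∑ i, (C i ∩ C' i).card : ℕ) : ℝ)))))
        calc (n : ℝ) * ∏ i, gp p (C i) (C' i) ≤ n * (w *
          Real.exp (-(Real.exp (-176) * (p * ((σ : ℝ) -
            ((∑ i, (C i ∩ C' i).card : ℕ) : ℝ)))))) := mul_le_mul_of_nonneg_left h2 hn'.le
          _ = _ := by ring)
  have hw4 : w ≤ 1 / 4 := by
    have h3 : (n : ℝ) * w ≤ n * (1 / 4) := by linarith
    exact le_of_mul_le_mul_left h3 hn'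
  have h2σ : 2 * ∑ i, s i ≤ n := by
    have : ((2 * σ : ℕ) : ℝ) ≤ n := by
      have h3 : ((4 * (m * S) : ℕ) : ℝ) ≤ n := by exact_mod_cast H2
      push_cast at h3 ⊢
      linarith
    exact_mod_cast this
  have hSM := second_moment h0.le hp1 V hVd s hne hw4 h2σ
    (by have : 0 < 1 - p := by linarith
        positivity) (by positivity) (fun i l hl => D_bound h0 h1 (hsp i) hl) hM
  -- the final estimate
  have hpr : pr p (E n) (fun S => ¬ ∃ c : Fin n → Fin (m + 1), IsCF (gr S) c) ≤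
      pr p (E n) (fun S => ¬ ∃ C ∈ fam V s, GoodS S C) := by
    refine pr_mono h0.le hp1 fun S _ h hC => h ?_
    obtain ⟨C, hC, hg⟩ := hC
    refine colour_of_good (C := C) ?_ hg
    intro i j hij
    exact disjoint_of_subset_left ((mem_fam.1 hC) i).1
      (disjoint_of_subset_right ((mem_fam.1 hC) j).1 (hVd i j hij))
  refine hpr.trans (hSM.trans ?_)
  have hθ0 : 0 ≤ θ := le_trans (Real.exp_pos _).le H9
  have hsqn : (n * w) ^ 2 ≤ (B * Λ) ^ 2 := pow_le_pow_left₀ hnw0 hnw 2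
  -- exponent K
  have hK : 2 * (σ : ℝ) * w + 2 * n * w ^ 2 ≤ θ := by
    have e1 : (n : ℝ) * (2 * σ * w + 2 * n * w ^ 2) = 2 * σ * (n * w) + 2 * (n * w) ^ 2 := by ring
    have e2 : 2 * (σ : ℝ) * (n * w) ≤ 2 * (B * Λ) ^ 2 := by
      have h3 : (σ : ℝ) * (n * w) ≤ B * (B * Λ) := mul_le_mul hσB hnw hnw0 hB0.le
      have h4 : B * (B * Λ) ≤ (B * Λ) ^ 2 := by
        have h5 : B * 1 ≤ B * Λ := mul_le_mul_of_nonneg_left (by linarith) hB0.le
        have h6 : 0 ≤ B * Λ := mul_nonneg hB0.le (by linarith)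
        rw [sq]
        exact mul_le_mul_of_nonneg_right (by linarith) h6
      linarith
    have e3 : (n : ℝ) * (2 * σ * w + 2 * n * w ^ 2) ≤ n * θ := by
      rw [e1]
      have : 4 * (B * Λ) ^ 2 ≤ θ * n := by
        calc 4 * (B * Λ) ^ 2 = 4 * B ^ 2 * Λ ^ 2 := by ring
          _ ≤ _ := H3
      linarith
    exact le_of_mul_le_mul_left e3 hn'
  have hτθ : τ ≤ θ := by
    have e3 : (n : ℝ) * τ ≤ n * θ := by
      calc (n : ℝ) * τ = (n * w) ^ 2 * Real.exp (202752 * c * m) := by rw [hτ]; ring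
        _ ≤ (B * Λ) ^ 2 * Real.exp (202752 * c * m) :=
            mul_le_mul_of_nonneg_right hsqn (Real.exp_pos _).le
        _ = B ^ 2 * Λ ^ 2 * Real.exp (202752 * c * m) := by ring
        _ ≤ θ * n := H4
        _ = _ := by ring
    exact le_of_mul_le_mul_left e3 hn'
  have hDθ : Real.exp 44 * (∑ i, (s i : ℝ) ^ 2) / N ≤ θ := by
    have e1 : (∑ i, (s i : ℝ) ^ 2) / N ≤ 2 * B ^ 2 / n := by
      calc (∑ i, (s i : ℝ) ^ 2) / N ≤ (S * σ) / N := by
            exact div_le_div_of_nonneg_right hsqsum hN'.le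
        _ = (S / N) * σ := by ring
        _ ≤ (2 * B / n) * B := mul_le_mul hSNr hσB (by linarith) (by positivity)
        _ = _ := by ring
    have e2 : Real.exp 44 * (2 * B ^ 2 / n) ≤ θ := by
      rw [mul_div_assoc', div_le_iff₀ hn']
      linarith
    calc Real.exp 44 * (∑ i, (s i : ℝ) ^ 2) / N = Real.exp 44 * ((∑ i, (s i : ℝ) ^ 2) / N) := by
          ring
      _ ≤ Real.exp 44 * (2 * B ^ 2 / n) := mul_le_mul_of_nonneg_left e1 (by positivity)
      _ ≤ θ := e2
  have htail : ∑ ℓ ∈ Icc ℓ₀ (∑ i, s i), (Real.exp 44 / y) ^ ℓ * Real.exp (Ω ℓ) *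
          Real.exp (y * (∑ i, (s i : ℝ) ^ 2) / N) ≤ θ := by
    set r := 44 + Real.log (22 * m) with hr
    have hr0 : 0 ≤ r := by linarith
    have hnp : 0 < (n : ℝ) * p := by positivity
    have hDy : Real.exp 44 / y ≤ Real.exp (-(Λ - r)) := by
      have e1 : Real.exp 44 / y = Real.exp 44 * (S / N) := by
        rw [hy]
        field_simp
      have e2 : (S : ℝ) / N ≤ 22 * m / (n * p) := by
        refine hSNr.trans ?_
        rw [div_le_div_iff₀ hn' hnp]
        have h3 : B * p ≤ 11 * m := by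
          have h4 : B * p = m * (S * p) := by rw [hB]; ring
          have h5 : (m : ℝ) * (S * p) ≤ m * 11 := mul_le_mul_of_nonneg_left hSp (by linarith)
          linarith
        have h6 := mul_le_mul_of_nonneg_left h3 (by linarith : (0 : ℝ) ≤ 2 * n)
        linarith
      have e3 : Real.exp (-(Λ - r)) = Real.exp 44 * (22 * m / (n * p)) := by
        rw [hr, show -(Λ - (44 + Real.log (22 * m))) = 44 + (Real.log (22 * m) - Λ) by ring,
          Real.exp_add, Real.exp_sub, hΛd, Real.exp_log hnp, Real.exp_log (by positivity)]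
      rw [e1, e3]
      exact mul_le_mul_of_nonneg_left e2 (by positivity)
    have hy0 : 0 < y := by linarith
    have hys : y * (∑ i, (s i : ℝ) ^ 2) / N ≤ σ := by
      rw [hy]
      have : (N : ℝ) / S * (∑ i, (s i : ℝ) ^ 2) / N = (∑ i, (s i : ℝ) ^ 2) / S := by
        field_simp
      rw [this, div_le_iff₀ (by linarith)]
      linarith
    have hterm : ∀ ℓ ∈ Icc ℓ₀ (∑ i, s i), (Real.exp 44 / y) ^ ℓ * Real.exp (Ω ℓ) *
          Real.exp (y * (∑ i, (s i : ℝ) ^ 2) / N) ≤ Real.exp (-(c / 4 * σ * Λ)) := by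
      intro ℓ hℓ
      rw [mem_Icc] at hℓ
      have hℓ1 : c * σ ≤ ℓ := Nat.ceil_le.1 hℓ.1
      have hℓ2 : (ℓ : ℝ) ≤ σ := by exact_mod_cast hℓ.2
      set E' := Real.exp (-(Real.exp (-176) * (p * ((σ : ℝ) - ℓ)))) with hE'
      have hE1 : E' ≤ 1 := by
        rw [hE', Real.exp_le_one_iff]
        have : 0 ≤ Real.exp (-176) * (p * ((σ : ℝ) - ℓ)) :=
          mul_nonneg (Real.exp_pos _).le (mul_nonneg h0.le (by linarith))
        linarith
      have hE2 : (ℓ : ℝ) < 47 / 48 * σ → E' ≤ c / 4 := by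
        intro hlt
        refine le_trans ?_ H8
        apply Real.exp_le_exp.2
        have h3 : (m : ℝ) / 96 ≤ p * ((σ : ℝ) - ℓ) := by
          have h4 : 1 / 2 ≤ (k : ℝ) * p := half_le h0 h1
          have h5 : (m : ℝ) * k * p ≤ σ * p := mul_le_mul_of_nonneg_right hσk h0.le
          have h6 : (m : ℝ) / 2 ≤ σ * p := by
            have h9 := mul_le_mul_of_nonneg_left h4 (by linarith : (0 : ℝ) ≤ m)
            linarith
          have h7 : (σ : ℝ) / 48 ≤ σ - ℓ := by linarith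
          have h8 := mul_le_mul_of_nonneg_left h7 h0.le
          linarith
        have h4 : Real.exp (-176) * ((m : ℝ) / 96) ≤
            Real.exp (-176) * (p * ((σ : ℝ) - ℓ)) :=
          mul_le_mul_of_nonneg_left h3 (Real.exp_pos _).le
        linarith
      have h9 := tail_term (c := c) (Λ := Λ) (r := r) (σ := σ) (ℓ := ℓ) (nw := n * w) (E := E')
        hc hc' (by linarith) hr0 (by linarith) hnw0 hUC (Real.exp_pos _).le hE1 hℓ1 hE2
      calc (Real.exp 44 / y) ^ ℓ * Real.exp (Ω ℓ) *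
          Real.exp (y * (∑ i, (s i : ℝ) ^ 2) / N) ≤
          (Real.exp (-(Λ - r))) ^ ℓ * Real.exp (n * w * E') * Real.exp σ := by
            refine mul_le_mul ?_ (Real.exp_le_exp.2 hys) (Real.exp_pos _).le (by positivity)
            refine mul_le_mul_of_nonneg_right ?_ (Real.exp_pos _).le
            exact pow_le_pow_left₀ (by positivity) hDy ℓ
        _ = Real.exp (-(Λ - r) * ℓ + n * w * E' + σ) := by
            rw [← Real.exp_nat_mul, ← Real.exp_add, ← Real.exp_add]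
            congr 1
            ring
        _ ≤ _ := Real.exp_le_exp.2 h9
    refine (sum_le_sum hterm).trans ?_
    rw [sum_const, nsmul_eq_mul]
    have hcard : ((Icc ℓ₀ (∑ i, s i)).card : ℝ) ≤ Real.exp σ := by
      have h3 : (Icc ℓ₀ (∑ i, s i)).card ≤ σ + 1 := by
        rw [Nat.card_Icc]
        omega
      calc ((Icc ℓ₀ (∑ i, s i)).card : ℝ) ≤ ((σ + 1 : ℕ) : ℝ) := by exact_mod_cast h3
        _ ≤ Real.exp σ := by
            push_cast
            exact Real.add_one_le_exp _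
    have hcΛ : 1 ≤ c / 4 * Λ := by
      have h3 : 32 * (1 / c) ≤ Λ := by linarith
      have h4 : c * (32 * (1 / c)) = 32 := by field_simp
      have h5 := mul_le_mul_of_nonneg_left h3 hc.le
      linarith
    calc ((Icc ℓ₀ (∑ i, s i)).card : ℝ) * Real.exp (-(c / 4 * σ * Λ)) ≤
        Real.exp σ * Real.exp (-(c / 4 * σ * Λ)) :=
          mul_le_mul_of_nonneg_right hcard (Real.exp_pos _).le
      _ = Real.exp ((σ : ℝ) * (1 - c / 4 * Λ)) := by
          rw [← Real.exp_add]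
          congr 1
          ring
      _ ≤ Real.exp (1 - c / 4 * Λ) := by
          apply Real.exp_le_exp.2
          have h3 := mul_le_mul_of_nonneg_right hσ1 (by linarith : (0 : ℝ) ≤ c / 4 * Λ - 1)
          linarith
      _ ≤ θ := H9
  have hfin : Real.exp τ * Real.exp (Real.exp 44 * (∑ i, (s i : ℝ) ^ 2) / N) +
      ∑ ℓ ∈ Icc ℓ₀ (∑ i, s i), (Real.exp 44 / y) ^ ℓ * Real.exp (Ω ℓ) *
          Real.exp (y * (∑ i, (s i : ℝ) ^ 2) / N) ≤ Real.exp (2 * θ) + θ := by
    refine add_le_add ?_ htail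
    rw [← Real.exp_add]
    apply Real.exp_le_exp.2
    linarith
  have hpos : 0 ≤ Real.exp τ * Real.exp (Real.exp 44 * (∑ i, (s i : ℝ) ^ 2) / N) +
      ∑ ℓ ∈ Icc ℓ₀ (∑ i, s i), (Real.exp 44 / y) ^ ℓ * Real.exp (Ω ℓ) *
          Real.exp (y * (∑ i, (s i : ℝ) ^ 2) / N) := by
    have hy0 : 0 < y := by linarith
    have : 0 ≤ ∑ ℓ ∈ Icc ℓ₀ (∑ i, s i), (Real.exp 44 / y) ^ ℓ * Real.exp (Ω ℓ) *
          Real.exp (y * (∑ i, (s i : ℝ) ^ 2) / N) :=
      sum_nonneg fun ℓ _ => by positivity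
    positivity
  have := mul_le_mul (Real.exp_le_exp.2 hK) hfin hpos (Real.exp_pos _).le
  linarith

end Pool.Agent.CFC
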